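import Pool.Agent.H24.TL.Defs

/-!
# [H24 TL LWF] the half window `Lw X = √(log X / 3)`: size
-/

set_option autoImplicit false

namespace Pool.Agent.H24.TL

open Filter

theorem lw_tendsto : Tendsto Lw atTop atTop := by
  unfold Lw
  exact Real.tendsto_sqrt_atTop.comp (Real.tendsto_log_atTop.atTop_div_const (by norm_num))

theorem lw_sq {X : ℝ} (hX : 1 ≤ X) : Lw X * Lw X = Real.log X / 3 := by
  unfold Lw
  exact Real.mul_self_sqrt (by have := Real.log_nonneg hX; linarith)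

theorem lw_nonneg (X : ℝ) : 0 ≤ Lw X := Real.sqrt_nonneg _

theorem lw_mono {X Y : ℝ} (h0 : 0 < X) (h : X ≤ Y) : Lw X ≤ Lw Y := by
  unfold Lw
  exact Real.sqrt_le_sqrt (by have := Real.log_le_log h0 h; linarith)

/-- `Lw X ≤ X ^ ε` for large `X` -/
theorem lw_small (ε : ℝ) (hε : 0 < ε) : ∀ᶠ X : ℝ in atTop, Lw X ≤ X ^ ε := by
  have h1 := (isLittleO_log_rpow_atTop (show 0 < 2 * ε by linarith)).bound (show (0 : ℝ) < 1 by norm_num)
  filter_upwards [h1, eventually_ge_atTop (1 : ℝ)] with X h2 h3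
  have hl := Real.log_nonneg h3
  rw [Real.norm_eq_abs, Real.norm_eq_abs, abs_of_nonneg hl, abs_of_nonneg (by positivity), one_mul] at h2
  unfold Lw
  rw [show X ^ ε = √(X ^ (2 * ε)) by
    rw [Real.sqrt_eq_rpow, ← Real.rpow_mul (by linarith)]
    congr 1
    ring]
  exact Real.sqrt_le_sqrt (by linarith)

/-- all that is needed for large natural `X` -/
theorem lw_ev : ∃ X0 : ℝ, ∀ X : ℝ, X0 ≤ X → 10 ≤ Lw X ∧ 100 * Lw X ≤ X := by
  have h1 := lw_tendsto.eventually_ge_atTop 10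
  have h2 := lw_small (1 / 2) (by norm_num)
  have h3 : ∀ᶠ X : ℝ in atTop, 10000 ≤ X := eventually_ge_atTop 10000
  obtain ⟨X0, h⟩ := (h1.and (h2.and h3)).exists_forall_of_atTop
  refine ⟨X0, fun X hX => ⟨(h X hX).1, ?_⟩⟩
  obtain ⟨a, b, c⟩ := h X hX
  rw [← Real.sqrt_eq_rpow] at b
  have hX0 : 0 ≤ X := by linarith
  have e1 : √X * √X = X := Real.mul_self_sqrt hX0
  have e2 : 100 ≤ √X := by
    rw [show (100 : ℝ) = √(10000) by rw [show (10000 : ℝ) = 100 ^ 2 by norm_num]; exact (Real.sqrt_sq (by norm_num)).symm]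
    exact Real.sqrt_le_sqrt c
  nlinarith [Real.sqrt_nonneg X]

end Pool.Agent.H24.TL
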