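import Pool.Agent.H24.TL.Lll
import Pool.Agent.H67.TS.Trd

/-!
# [H24 TL SGN] the mean of `|E|` from the mean of one sign, one length

PROOF. `∑_{n ∈ (A,N]} Gk (n/X) ET n H = ∑_{k ≤ H} ∑_{j ∈ (A+k,N+k]} Gk ((j-k)/X) bb j = H ∑_{(A,N]} Gk (j/X) bb j + O(H² (log X)^6)`
(`Gk_lip`, `Gk_bd`), `= O(H √X log X + H² (log X)^6)` (`win`), `A = ⌊X/L⌋₊`, `N = ⌈L X⌉₊`. With `|x| = 2 max (s x) 0 - s x` and
`|ET n H - log n EI n H| ≤ 2 H²/n` (`trg`) the sum `∑_{(X,2X]} |EI n H|` is at most `C (∑_{(A,N]} max (s EI n H) 0 + H √X + H² (log X)^5)`.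
-/

set_option autoImplicit false

namespace Pool.Agent.H24.TL

open Finset Pool.Agent.H48.WN Pool.Agent.H67.TS Pool.Agent.H99.GB

private theorem bb_abs {n : ℕ} (hn : 3 ≤ n) {B : ℝ} (hB : (n : ℝ) ≤ B) : |bb n| ≤ Real.log B := by
  have hn3 : (3 : ℝ) ≤ n := by exact_mod_cast hn
  have h1 : 1 ≤ Real.log n := by
    rw [Real.le_log_iff_exp_le (by linarith)]
    have := Real.exp_one_lt_d9
    linarith
  have h2 : Real.log n ≤ Real.log B := Real.log_le_log (by linarith) hB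
  unfold bb Pool.Agent.H67.VS.pl
  split_ifs with hp
  · rw [abs_of_nonneg (by linarith)]
    linarith
  · rw [zero_sub, abs_neg, abs_one]
    linarith

/-- one shift -/
private theorem shf (X L : ℝ) (A N k : ℕ) (hX : 100 ≤ X) (hL : 1 ≤ L) (hA3 : 3 ≤ A) (hAN : A + k ≤ N)
    (hA : X / (2 * L) ≤ A) (hN : (N : ℝ) ≤ 2 * (L * X)) (hk : (k : ℝ) ≤ X) :
    |∑ j ∈ Ioc (A + k) (N + k), bb j * Gk (((j : ℝ) - k) / X) - ∑ j ∈ Ioc A N, bb j * Gk ((j : ℝ) / X)| ≤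
      (3200 * L ^ 4 + 6) * Real.log (3 * (L * X)) * k := by
  have hX0 : 0 < X := by linarith
  have hL0 : 0 < L := by linarith
  have hk0 : (0 : ℝ) ≤ k := Nat.cast_nonneg _
  obtain ⟨ℓ, hℓ⟩ : ∃ ℓ : ℝ, ℓ = Real.log (3 * (L * X)) := ⟨_, rfl⟩
  have hLX1 : X ≤ L * X := by nlinarith
  have hℓ0 : 0 ≤ ℓ := by
    rw [hℓ]
    exact Real.log_nonneg (by linarith)
  rw [← hℓ]
  have hbb : ∀ j ∈ Ioc A (N + k), |bb j| ≤ ℓ := by
    intro j hj
    rw [mem_Ioc] at hj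
    rw [hℓ]
    refine bb_abs (by omega) ?_
    have h1 : (j : ℝ) ≤ ((N + k : ℕ) : ℝ) := by exact_mod_cast hj.2
    push_cast at h1
    linarith
  -- split
  have s1 : ∑ j ∈ Ioc (A + k) (N + k), bb j * Gk (((j : ℝ) - k) / X) =
      ∑ j ∈ Ioc (A + k) N, bb j * Gk (((j : ℝ) - k) / X) + ∑ j ∈ Ioc N (N + k), bb j * Gk (((j : ℝ) - k) / X) :=
    (sum_Ioc_consecutive _ hAN (by omega)).symm
  have s2 : ∑ j ∈ Ioc A N, bb j * Gk ((j : ℝ) / X) =
      ∑ j ∈ Ioc A (A + k), bb j * Gk ((j : ℝ) / X) + ∑ j ∈ Ioc (A + k) N, bb j * Gk ((j : ℝ) / X) :=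
    (sum_Ioc_consecutive _ (by omega) hAN).symm
  rw [s1, s2]
  have e : ∑ j ∈ Ioc (A + k) N, bb j * Gk (((j : ℝ) - k) / X) + ∑ j ∈ Ioc N (N + k), bb j * Gk (((j : ℝ) - k) / X) -
      (∑ j ∈ Ioc A (A + k), bb j * Gk ((j : ℝ) / X) + ∑ j ∈ Ioc (A + k) N, bb j * Gk ((j : ℝ) / X)) =
      ∑ j ∈ Ioc (A + k) N, bb j * (Gk (((j : ℝ) - k) / X) - Gk ((j : ℝ) / X)) +
        ∑ j ∈ Ioc N (N + k), bb j * Gk (((j : ℝ) - k) / X) - ∑ j ∈ Ioc A (A + k), bb j * Gk ((j : ℝ) / X) := by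
    simp_rw [mul_sub]
    rw [sum_sub_distrib]
    ring
  rw [e]
  have hAr : (3 : ℝ) ≤ A := by exact_mod_cast hA3
  have t1 : |∑ j ∈ Ioc (A + k) N, bb j * (Gk (((j : ℝ) - k) / X) - Gk ((j : ℝ) / X))| ≤ 3200 * L ^ 4 * ℓ * k := by
    have h1 : ∀ j ∈ Ioc (A + k) N, |bb j * (Gk (((j : ℝ) - k) / X) - Gk ((j : ℝ) / X))| ≤
        ℓ * (1600 * L ^ 3 * k / X) := by
      intro j hj
      rw [mem_Ioc] at hj
      have hj1 : (A : ℝ) ≤ (j : ℝ) - k := by
        have : ((A + k : ℕ) : ℝ) ≤ j := by exact_mod_cast hj.1.le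
        push_cast at this
        linarith
      have ha : 1 / (2 * L) ≤ ((j : ℝ) - k) / X := by
        rw [le_div_iff₀ hX0]
        have : 1 / (2 * L) * X = X / (2 * L) := by ring
        linarith
      have ha0 : 0 < 1 / (2 * L) := by positivity
      have g1 := Gk_lip (((j : ℝ) - k) / X) ((j : ℝ) / X) (by linarith)
        (div_le_div_of_nonneg_right (by linarith) hX0.le)
      rw [abs_mul, abs_sub_comm]
      refine mul_le_mul (hbb j (by rw [mem_Ioc]; omega)) (g1.trans ?_) (abs_nonneg _) hℓ0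
      have e1 : (j : ℝ) / X - ((j : ℝ) - k) / X = k / X := by ring
      rw [e1]
      calc 200 * ((k : ℝ) / X) / (((j : ℝ) - k) / X) ^ 3 ≤ 200 * ((k : ℝ) / X) / (1 / (2 * L)) ^ 3 :=
            div_le_div_of_nonneg_left (by positivity) (by positivity) (pow_le_pow_left₀ ha0.le ha 3)
        _ = 1600 * L ^ 3 * k / X := by
            field_simp
            ring
    refine (abs_sum_le_sum_abs _ _).trans ((sum_le_sum h1).trans ?_)
    rw [sum_const, nsmul_eq_mul, Nat.card_Ioc]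
    have h2 : ((N - (A + k) : ℕ) : ℝ) ≤ 2 * (L * X) := by
      have : N - (A + k) ≤ N := Nat.sub_le _ _
      have : ((N - (A + k) : ℕ) : ℝ) ≤ N := by exact_mod_cast this
      linarith
    calc ((N - (A + k) : ℕ) : ℝ) * (ℓ * (1600 * L ^ 3 * k / X)) ≤ 2 * (L * X) * (ℓ * (1600 * L ^ 3 * k / X)) :=
          mul_le_mul_of_nonneg_right h2 (by positivity)
      _ = 3200 * L ^ 4 * ℓ * k := by
          field_simp
          ring
  have t2 : |∑ j ∈ Ioc N (N + k), bb j * Gk (((j : ℝ) - k) / X)| ≤ 3 * ℓ * k := by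
    have h1 : ∀ j ∈ Ioc N (N + k), |bb j * Gk (((j : ℝ) - k) / X)| ≤ ℓ * 3 := by
      intro j hj
      rw [mem_Ioc] at hj
      have hj1 : (0 : ℝ) < (j : ℝ) - k := by
        have : ((A + k : ℕ) : ℝ) ≤ j := by exact_mod_cast (by omega : A + k ≤ j)
        push_cast at this
        linarith
      have hp : 0 < ((j : ℝ) - k) / X := by positivity
      rw [abs_mul, abs_of_pos (Gk_pos hp)]
      exact mul_le_mul (hbb j (by rw [mem_Ioc]; omega)) (Gk_bd hp) (Gk_pos hp).le hℓ0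
    refine (abs_sum_le_sum_abs _ _).trans ((sum_le_sum h1).trans (le_of_eq ?_))
    rw [sum_const, nsmul_eq_mul, Nat.card_Ioc, Nat.add_sub_cancel_left]
    ring
  have t3 : |∑ j ∈ Ioc A (A + k), bb j * Gk ((j : ℝ) / X)| ≤ 3 * ℓ * k := by
    have h1 : ∀ j ∈ Ioc A (A + k), |bb j * Gk ((j : ℝ) / X)| ≤ ℓ * 3 := by
      intro j hj
      rw [mem_Ioc] at hj
      have hj1 : (0 : ℝ) < j := by exact_mod_cast (by omega : 0 < j)
      have hp : 0 < (j : ℝ) / X := by positivity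
      rw [abs_mul, abs_of_pos (Gk_pos hp)]
      exact mul_le_mul (hbb j (by rw [mem_Ioc]; omega)) (Gk_bd hp) (Gk_pos hp).le hℓ0
    refine (abs_sum_le_sum_abs _ _).trans ((sum_le_sum h1).trans (le_of_eq ?_))
    rw [sum_const, nsmul_eq_mul, Nat.card_Ioc, Nat.add_sub_cancel_left]
    ring
  refine (abs_sub _ _).trans ?_
  have t4 := abs_add_le (∑ j ∈ Ioc (A + k) N, bb j * (Gk (((j : ℝ) - k) / X) - Gk ((j : ℝ) / X)))
    (∑ j ∈ Ioc N (N + k), bb j * Gk (((j : ℝ) - k) / X))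
  linarith

/-- the sum of `ET` with the kernel -/
private theorem etk (X : ℝ) (H A N : ℕ) :
    ∑ n ∈ Ioc A N, Gk ((n : ℝ) / X) * ET n H =
      ∑ k ∈ Icc 1 H, ∑ j ∈ Ioc (A + k) (N + k), bb j * Gk (((j : ℝ) - k) / X) := by
  have h1 : ∀ n : ℕ, ET n H = ∑ k ∈ Icc 1 H, bb (n + k) := by
    intro n
    rw [et_bb]
    have e : Ioc n (n + H) = (Icc 1 H).image (fun k => n + k) := by
      ext m
      simp only [mem_Ioc, mem_image, mem_Icc]
      constructor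
      · intro hm
        exact ⟨m - n, by omega, by omega⟩
      · rintro ⟨k, hk, rfl⟩
        omega
    rw [e, sum_image (fun a _ b _ h => by simpa using h)]
  simp_rw [h1, mul_sum]
  rw [sum_comm]
  refine sum_congr rfl fun k _ => ?_
  have e1 : Ioc (A + k) (N + k) = (Ioc A N).image (fun n => n + k) := by
    ext m
    simp only [mem_Ioc, mem_image]
    constructor
    · intro hm
      exact ⟨m - k, by omega, by omega⟩
    · rintro ⟨n, hn, rfl⟩
      omega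
  rw [e1, sum_image (fun a _ b _ h => by simpa using h)]
  refine sum_congr rfl fun n _ => ?_
  push_cast
  rw [add_sub_cancel_right, mul_comm]

/-- the mean from the mean of one sign, one length -/
theorem sgn_core (s : ℝ) (hs : s = 1 ∨ s = -1) (C : ℝ) (X H A N : ℕ) (L l : ℝ) (κ : ℕ → ℝ) (hX : 100 ≤ X)
    (hl : l = Real.log X) (hl27 : 27 ≤ l) (hL3 : 3 ≤ L) (hLl : L ≤ l) (hlX : l ≤ X) (hHX : (H : ℝ) ≤ X / 3)
    (hκ : ∀ n ∈ Ioc A N, 0 ≤ κ n)
    (hA3 : 3 ≤ A) (hA1 : (A : ℝ) ≤ X / 3) (hA2 : (X : ℝ) / (2 * L) ≤ A) (hN1 : L * X ≤ N) (hN2 : (N : ℝ) ≤ 2 * (L * X))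
    (hwin : |∑ j ∈ Ioc A N, bb j * Gk ((j : ℝ) / X)| ≤ C * (√X * l))
    (hone : ∀ n ∈ Ioc A N, -κ n ≤ s * EI n H) :
    ∑ n ∈ Ioc X (2 * X), |EI n H| ≤
      10 ^ 13 * (C * (H * √X) + (12824 * l ^ 5 + 24 * l ^ 2) * (H : ℝ) ^ 2 + 18 * ∑ n ∈ Ioc A N, κ n) := by
  have hX1 : (100 : ℝ) ≤ X := by exact_mod_cast hX
  have hX0 : (0 : ℝ) < X := by linarith
  have hH0 : (0 : ℝ) ≤ H := Nat.cast_nonneg _
  have hL0 : 0 < L := by linarith
  have hl0 : 0 < l := by linarith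
  have hAr : (3 : ℝ) ≤ A := by exact_mod_cast hA3
  have hsabs : ∀ x : ℝ, |s * x| = |x| := by
    intro x
    rcases hs with rfl | rfl
    · rw [one_mul]
    · rw [neg_one_mul, abs_neg]
  have h3X : 3 * (X : ℝ) ≤ L * X := mul_le_mul_of_nonneg_right hL3 hX0.le
  have hlog2 : ∀ n ∈ Ioc A N, Real.log n ≤ 2 * l + 1 := by
    intro n hn
    rw [mem_Ioc] at hn
    have h0 : (0 : ℝ) < n := by exact_mod_cast (by omega : 0 < n)
    have h1 : (n : ℝ) ≤ 2 * (X * X) := by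
      have : (n : ℝ) ≤ N := by exact_mod_cast hn.2
      have := mul_le_mul_of_nonneg_right (hLl.trans hlX) hX0.le
      linarith
    have h2 := Real.log_le_log h0 h1
    rw [Real.log_mul (by norm_num) (by positivity), Real.log_mul hX0.ne' hX0.ne', ← hl] at h2
    have := Real.log_two_lt_d9
    linarith
  have hlogp : ∀ n ∈ Ioc A N, 0 ≤ Real.log n := by
    intro n hn
    rw [mem_Ioc] at hn
    exact Real.log_nonneg (by exact_mod_cast (by omega : 1 ≤ n))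
  have hgp : ∀ n ∈ Ioc A N, 0 < Gk ((n : ℝ) / X) := by
    intro n hn
    rw [mem_Ioc] at hn
    have h0 : (0 : ℝ) < n := by exact_mod_cast (by omega : 0 < n)
    exact Gk_pos (by positivity)
  -- the left side
  have hleft : 1 / 10 ^ 13 * (l * ∑ n ∈ Ioc X (2 * X), |EI n H|) ≤
      ∑ n ∈ Ioc A N, Gk ((n : ℝ) / X) * (Real.log n * |EI n H|) := by
    have h1 : 1 / 10 ^ 13 * (l * ∑ n ∈ Ioc X (2 * X), |EI n H|) ≤
        ∑ n ∈ Ioc X (2 * X), Gk ((n : ℝ) / X) * (Real.log n * |EI n H|) := by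
      rw [mul_sum, mul_sum]
      refine sum_le_sum fun n hn => ?_
      rw [mem_Ioc] at hn
      have n1 : (X : ℝ) ≤ n := by exact_mod_cast hn.1.le
      have n2 : (n : ℝ) ≤ 2 * X := by exact_mod_cast hn.2
      have g1 : 1 / 10 ^ 13 ≤ Gk ((n : ℝ) / X) := by
        refine Gk_mid ?_ ?_
        · rw [le_div_iff₀ hX0]; linarith
        · rw [div_le_iff₀ hX0]; linarith
      refine mul_le_mul g1 ?_ (by positivity) (by linarith [(by norm_num : (0 : ℝ) < 1 / 10 ^ 13)])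
      rw [hl]
      exact mul_le_mul_of_nonneg_right (Real.log_le_log hX0 n1) (abs_nonneg _)
    refine h1.trans (sum_le_sum_of_subset_of_nonneg ?_ fun n hn _ => ?_)
    · intro n hn
      rw [mem_Ioc] at hn ⊢
      have a1 : (A : ℝ) ≤ X := by linarith
      have a2 : A ≤ X := by exact_mod_cast a1
      have a3 : ((2 * X : ℕ) : ℝ) ≤ N := by push_cast; linarith
      have a4 : 2 * X ≤ N := by exact_mod_cast a3
      omega
    · have := hgp n hn
      have := hlogp n hn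
      positivity
  -- pointwise
  have hpt : ∀ n ∈ Ioc A N, Gk ((n : ℝ) / X) * (Real.log n * |EI n H|) ≤
      s * (Gk ((n : ℝ) / X) * ET n H) + (3 * (4 * L * (H : ℝ) ^ 2 / X) + 3 * (2 * κ n * (2 * l + 1))) := by
    intro n hn
    have hκ := hκ n hn
    have g0 := hgp n hn
    have l0 := hlogp n hn
    have l1 := hlog2 n hn
    have h5 := hone n hn
    rw [mem_Ioc] at hn
    have hn0 : (0 : ℝ) < n := by exact_mod_cast (by omega : 0 < n)
    have g1 := Gk_bd (show 0 < (n : ℝ) / X by positivity)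
    have h6 : |EI n H| ≤ s * EI n H + 2 * κ n := by
      rw [← hsabs, abs_le]
      constructor <;> linarith
    have h7 := trg n H (by omega)
    have h8 : |s * ET n H - s * (Real.log n * EI n H)| ≤ 2 * ((H : ℝ) ^ 2 / n) := by
      rw [← mul_sub, hsabs]
      exact h7
    have h9 : (H : ℝ) ^ 2 / n ≤ 2 * L * (H : ℝ) ^ 2 / X := by
      have a1 : (X : ℝ) / (2 * L) ≤ n := by
        have : (A : ℝ) ≤ n := by exact_mod_cast hn.1.le
        linarith
      rw [div_le_iff₀ (by positivity)] at a1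
      rw [div_le_div_iff₀ hn0 hX0]
      have := mul_le_mul_of_nonneg_left a1 (sq_nonneg (H : ℝ))
      linarith
    have h10 := (abs_le.mp h8).1
    have h11 : Real.log n * |EI n H| ≤ s * ET n H + (4 * L * (H : ℝ) ^ 2 / X + 2 * κ n * (2 * l + 1)) := by
      have a1 : Real.log n * |EI n H| ≤ Real.log n * (s * EI n H + 2 * κ n) :=
        mul_le_mul_of_nonneg_left h6 l0
      have a2 : Real.log n * (2 * κ n) ≤ (2 * l + 1) * (2 * κ n) :=
        mul_le_mul_of_nonneg_right l1 (by linarith)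
      have a3 : 2 * (2 * L * (H : ℝ) ^ 2 / X) = 4 * L * (H : ℝ) ^ 2 / X := by ring
      linarith
    have h12 := mul_le_mul_of_nonneg_left h11 g0.le
    have h13 : 0 ≤ 4 * L * (H : ℝ) ^ 2 / X + 2 * κ n * (2 * l + 1) := by positivity
    have h14 := mul_le_mul_of_nonneg_right g1 h13
    calc _ ≤ _ := h12
      _ = s * (Gk ((n : ℝ) / X) * ET n H) +
            Gk ((n : ℝ) / X) * (4 * L * (H : ℝ) ^ 2 / X + 2 * κ n * (2 * l + 1)) := by ring
      _ ≤ _ := by linarith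
  have hsum := sum_le_sum hpt
  rw [sum_add_distrib, ← mul_sum, sum_add_distrib, sum_const, nsmul_eq_mul, Nat.card_Ioc, ← mul_sum] at hsum
  have hsk0 : 0 ≤ ∑ n ∈ Ioc A N, κ n := sum_nonneg hκ
  have hsk : ∑ n ∈ Ioc A N, 2 * κ n * (2 * l + 1) = 2 * (2 * l + 1) * ∑ n ∈ Ioc A N, κ n := by
    rw [mul_sum]
    exact sum_congr rfl fun n _ => by ring
  rw [hsk] at hsum
  -- the error terms
  have herr : ((N - A : ℕ) : ℝ) * (3 * (4 * L * (H : ℝ) ^ 2 / X)) ≤ l * (24 * l ^ 2 * (H : ℝ) ^ 2) := by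
    have a1 : ((N - A : ℕ) : ℝ) ≤ 2 * (L * X) := by
      have : ((N - A : ℕ) : ℝ) ≤ N := by exact_mod_cast Nat.sub_le _ _
      linarith
    calc _ ≤ 2 * (L * X) * (3 * (4 * L * (H : ℝ) ^ 2 / X)) :=
          mul_le_mul_of_nonneg_right a1 (by positivity)
      _ = 24 * (L * L) * (H : ℝ) ^ 2 := by
          field_simp
          ring
      _ ≤ 24 * (l * l * l) * (H : ℝ) ^ 2 := by
          have b1 : L * L ≤ l * l * l := by
            have : L * L ≤ l * l := mul_le_mul hLl hLl hL0.le hl0.le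
            nlinarith
          have b2 := mul_le_mul_of_nonneg_right b1 (sq_nonneg (H : ℝ))
          linarith
      _ = _ := by ring
  -- the main term
  have hmain : s * ∑ n ∈ Ioc A N, Gk ((n : ℝ) / X) * ET n H ≤
      l * (C * (H * √X)) + 3206 * l ^ 4 * (3 * l + 2) * (H : ℝ) ^ 2 := by
    have a0 : s * ∑ n ∈ Ioc A N, Gk ((n : ℝ) / X) * ET n H ≤ |∑ n ∈ Ioc A N, Gk ((n : ℝ) / X) * ET n H| := by
      rw [← hsabs]
      exact le_abs_self _
    refine a0.trans ?_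
    rw [etk]
    obtain ⟨W, hW⟩ : ∃ W : ℝ, W = ∑ j ∈ Ioc A N, bb j * Gk ((j : ℝ) / X) := ⟨_, rfl⟩
    rw [← hW] at hwin
    have hlog3 : Real.log (3 * (L * X)) ≤ 3 * l + 2 := by
      have b1 : 3 * (L * (X : ℝ)) ≤ 3 * (X * X) := by
        have := mul_le_mul_of_nonneg_right (hLl.trans hlX) hX0.le
        linarith
      have b2 := Real.log_le_log (by positivity) b1
      have b3 : Real.log (3 * ((X : ℝ) * X)) = Real.log 3 + (l + l) := by
        rw [Real.log_mul (by norm_num) (by positivity), Real.log_mul hX0.ne' hX0.ne', ← hl]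
      have := Real.log_le_sub_one_of_pos (by norm_num : (0 : ℝ) < 3)
      linarith
    have hlog30 : 0 ≤ Real.log (3 * (L * X)) := Real.log_nonneg (by linarith)
    have a1 : ∀ k ∈ Icc 1 H, |∑ j ∈ Ioc (A + k) (N + k), bb j * Gk (((j : ℝ) - k) / X)| ≤
        C * (√X * l) + 3206 * l ^ 4 * (3 * l + 2) * H := by
      intro k hk
      rw [mem_Icc] at hk
      have hkH : (k : ℝ) ≤ H := by exact_mod_cast hk.2
      have hAk : A + k ≤ N := by
        have : ((A + k : ℕ) : ℝ) ≤ N := by push_cast; linarith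
        exact_mod_cast this
      have b1 := shf X L A N k hX1 (by linarith) hA3 hAk hA2 hN2 (by linarith)
      rw [← hW] at b1
      have b2 : |∑ j ∈ Ioc (A + k) (N + k), bb j * Gk (((j : ℝ) - k) / X)| ≤
          |W| + |∑ j ∈ Ioc (A + k) (N + k), bb j * Gk (((j : ℝ) - k) / X) - W| := by
        have := abs_add_le W (∑ j ∈ Ioc (A + k) (N + k), bb j * Gk (((j : ℝ) - k) / X) - W)
        rwa [add_sub_cancel] at this
      have b3 : (3200 * L ^ 4 + 6) * Real.log (3 * (L * X)) * k ≤ 3206 * l ^ 4 * (3 * l + 2) * H := by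
        have c1 : L ^ 4 ≤ l ^ 4 := pow_le_pow_left₀ hL0.le hLl 4
        have c2 : 1 ≤ l ^ 4 := one_le_pow₀ (by linarith)
        refine mul_le_mul (mul_le_mul (by linarith) hlog3 hlog30 (by positivity)) hkH (Nat.cast_nonneg _) ?_
        positivity
      linarith
    refine (abs_sum_le_sum_abs _ _).trans ((sum_le_sum a1).trans (le_of_eq ?_))
    rw [sum_const, nsmul_eq_mul, Nat.card_Icc, Nat.add_sub_cancel]
    ring
  -- conclusion
  have hfin : 1 / 10 ^ 13 * (l * ∑ n ∈ Ioc X (2 * X), |EI n H|) ≤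
      l * (C * (H * √X) + (12824 * l ^ 5 + 24 * l ^ 2) * (H : ℝ) ^ 2 + 18 * ∑ n ∈ Ioc A N, κ n) := by
    have c1 : 3206 * l ^ 4 * (3 * l + 2) * (H : ℝ) ^ 2 ≤ l * (12824 * l ^ 5 * (H : ℝ) ^ 2) := by
      have d1 : 3206 * l ^ 4 * (3 * l + 2) ≤ l * (12824 * l ^ 5) := by
        have d2 : 3 * l + 2 ≤ 4 * l := by linarith
        have d4 : 3206 * l ^ 4 * (3 * l + 2) ≤ 3206 * l ^ 4 * (4 * l) := mul_le_mul_of_nonneg_left d2 (by positivity)
        have d5 : 0 ≤ l ^ 5 := by positivity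
        have d6 : l ^ 5 * 1 ≤ l ^ 5 * l := mul_le_mul_of_nonneg_left (by linarith) d5
        linarith
      have := mul_le_mul_of_nonneg_right d1 (sq_nonneg (H : ℝ))
      linarith
    have c3 : 6 * ∑ n ∈ Ioc A N, κ n ≤ 6 * (l * ∑ n ∈ Ioc A N, κ n) := by
      have := mul_le_mul_of_nonneg_right (by linarith : (1 : ℝ) ≤ l) hsk0
      linarith
    linarith
  have hl1 : l * ∑ n ∈ Ioc X (2 * X), |EI n H| ≤
      l * (10 ^ 13 * (C * (H * √X) + (12824 * l ^ 5 + 24 * l ^ 2) * (H : ℝ) ^ 2 + 18 * ∑ n ∈ Ioc A N, κ n)) := by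
    have := mul_le_mul_of_nonneg_left hfin (by norm_num : (0 : ℝ) ≤ 10 ^ 13)
    linarith
  exact le_of_mul_le_mul_left hl1 hl0

/-- the mean of `|E|` is at most the mean of one sign -/
theorem sgn : ∃ C X0 : ℝ, 0 < C ∧ ∀ (X H : ℕ) (s : ℝ), X0 ≤ X → 1 ≤ H → (H : ℝ) ^ 2 ≤ X → s = 1 ∨ s = -1 →
    ∑ n ∈ Ioc X (2 * X), |EI n H| ≤ C * (∑ n ∈ Ioc ⌊(X : ℝ) / Lw X⌋₊ ⌈Lw X * (X : ℝ)⌉₊, max (s * EI n H) 0 +
      H * √X * Real.log X + (H : ℝ) ^ 2 * Real.log X ^ 5) := by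
  obtain ⟨C, x2, hC, hwin⟩ := win
  obtain ⟨K, hK⟩ : ∃ K : ℝ, K = 10 ^ 13 * (C + 12848 + 18) := ⟨_, rfl⟩
  have hK0 : 0 < K := by rw [hK]; positivity
  have ev1 : ∀ᶠ X : ℝ in Filter.atTop, 27 ≤ Real.log X := Real.tendsto_log_atTop.eventually_ge_atTop 27
  have ev2 : ∀ᶠ X : ℝ in Filter.atTop, 6 * Real.log X ≤ X := by
    have h := Real.isLittleO_log_id_atTop.bound (c := 1 / 6) (by positivity)
    filter_upwards [h, Filter.eventually_ge_atTop 1] with X hX hX1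
    have hl := Real.log_nonneg hX1
    rw [Real.norm_eq_abs, abs_of_nonneg hl, id, Real.norm_eq_abs, abs_of_nonneg (by linarith : (0 : ℝ) ≤ X)] at hX
    linarith
  obtain ⟨x0, hx0⟩ := Filter.eventually_atTop.mp (ev1.and ev2)
  refine ⟨K, max 100 (max x0 x2), hK0, fun X H s hX hH1 hH2 hs => ?_⟩
  have hX100 : (100 : ℝ) ≤ X := (le_max_left _ _).trans hX
  have g2 : 100 ≤ X := by exact_mod_cast hX100
  have g3 : x0 ≤ X := (le_max_left _ _).trans ((le_max_right _ _).trans hX)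
  have g4 : x2 ≤ X := (le_max_right _ _).trans ((le_max_right _ _).trans hX)
  obtain ⟨k1, k2⟩ := hx0 X g3
  have hX0 : (0 : ℝ) < X := by linarith
  obtain ⟨l, hl⟩ : ∃ l : ℝ, l = Real.log X := ⟨_, rfl⟩
  obtain ⟨L, hL⟩ : ∃ L : ℝ, L = Lw X := ⟨_, rfl⟩
  rw [← hl] at k1 k2 ⊢
  rw [← hL]
  have hl0 : 0 < l := by linarith
  have hL3 : 3 ≤ L := by
    rw [hL, Lw, ← hl]
    exact Real.le_sqrt_of_sq_le (by linarith)
  have hLl : L ≤ l := by
    rw [hL, Lw, ← hl, Real.sqrt_le_left hl0.le]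
    nlinarith
  have hL0 : 0 < L := by linarith
  obtain ⟨A, hA⟩ : ∃ A : ℕ, A = ⌊(X : ℝ) / L⌋₊ := ⟨_, rfl⟩
  have hA1 : (A : ℝ) ≤ X / L := by rw [hA]; exact Nat.floor_le (by positivity)
  have hA2 : (X : ℝ) / L < A + 1 := by rw [hA]; exact Nat.lt_floor_add_one _
  have hXL : 6 ≤ (X : ℝ) / L := by
    rw [le_div_iff₀ hL0]
    linarith
  have hA3 : (X : ℝ) / (2 * L) ≤ A := by
    have e1 : (X : ℝ) / (2 * L) = X / L / 2 := by
      field_simp
    rw [e1]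
    linarith
  have hA4 : 3 ≤ A := by
    have : (3 : ℝ) ≤ A := by
      have e1 : (X : ℝ) / (2 * L) = X / L / 2 := by
        field_simp
      linarith
    exact_mod_cast this
  have hA5 : (A : ℝ) ≤ X / 3 := hA1.trans (div_le_div_of_nonneg_left hX0.le (by norm_num) hL3)
  obtain ⟨N, hN⟩ : ∃ N : ℕ, N = ⌈L * (X : ℝ)⌉₊ := ⟨_, rfl⟩
  have hN1 : L * X ≤ N := by rw [hN]; exact Nat.le_ceil _
  have hN2 : (N : ℝ) < L * X + 1 := by rw [hN]; exact Nat.ceil_lt_add_one (by positivity)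
  have h3X : 3 * (X : ℝ) ≤ L * X := mul_le_mul_of_nonneg_right hL3 hX0.le
  have hN3 : (N : ℝ) ≤ 2 * (L * X) := by linarith
  have hLX : 2 * L * X ≤ X * X := mul_le_mul_of_nonneg_right (by linarith) hX0.le
  have hw := hwin X A N g4 (by rw [← hL]; exact hA1) (by rw [← hL]; exact hN1) (by nlinarith)
  rw [← hl] at hw
  rw [← hA, ← hN]
  have hHX : (H : ℝ) ≤ X / 3 := by
    have h1 : (0 : ℝ) ≤ H := Nat.cast_nonneg _
    by_contra hcon
    push Not at hcon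
    have h2 : (X / 3 : ℝ) * (X / 3) < (H : ℝ) ^ 2 := by nlinarith
    nlinarith
  have hns : -s = 1 ∨ -s = -1 := by rcases hs with h | h <;> simp [h]
  have hcore := sgn_core (-s) hns C X H A N L l (fun n => max (s * EI n H) 0) g2 hl k1 hL3 hLl (by linarith) hHX
    (fun n _ => le_max_right _ _) hA4 hA5 hA3 hN1 hN3 hw (fun n _ => by
      have := le_max_left (s * EI n H) 0
      linarith)
  refine hcore.trans ?_
  obtain ⟨S, hS⟩ : ∃ S : ℝ, S = ∑ n ∈ Ioc A N, max (s * EI n H) 0 := ⟨_, rfl⟩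
  have hS0 : 0 ≤ S := by
    rw [hS]
    exact sum_nonneg fun n _ => le_max_right _ _
  rw [← hS]
  have q1 : l ^ 2 ≤ l ^ 5 := pow_le_pow_right₀ (by linarith) (by norm_num)
  have q2 : 0 ≤ (H : ℝ) * √X := by positivity
  have q3 : (H : ℝ) * √X ≤ H * √X * l := by
    have := mul_le_mul_of_nonneg_left (by linarith : (1 : ℝ) ≤ l) q2
    linarith
  have q4 : (12824 * l ^ 5 + 24 * l ^ 2) * (H : ℝ) ^ 2 ≤ 12848 * ((H : ℝ) ^ 2 * l ^ 5) := by
    have := mul_le_mul_of_nonneg_right (by linarith : 12824 * l ^ 5 + 24 * l ^ 2 ≤ 12848 * l ^ 5) (sq_nonneg (H : ℝ))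
    linarith
  have q5 : 0 ≤ (H : ℝ) ^ 2 * l ^ 5 := by positivity
  have q6 : 0 ≤ (H : ℝ) * √X * l := by positivity
  have q7 : C * ((H : ℝ) * √X) ≤ C * (H * √X * l) := mul_le_mul_of_nonneg_left q3 hC.le
  have q8 : C * ((H : ℝ) * √X) + (12824 * l ^ 5 + 24 * l ^ 2) * (H : ℝ) ^ 2 + 18 * S ≤
      (C + 12848 + 18) * (S + H * √X * l + (H : ℝ) ^ 2 * l ^ 5) := by
    have r1 : 0 ≤ C * S := by positivity
    have r2 : 0 ≤ C * ((H : ℝ) ^ 2 * l ^ 5) := by positivity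
    have e : (C + 12848 + 18) * (S + H * √X * l + (H : ℝ) ^ 2 * l ^ 5) = C * S + C * (H * √X * l) +
        C * ((H : ℝ) ^ 2 * l ^ 5) + 12866 * S + 12866 * (H * √X * l) + 12866 * ((H : ℝ) ^ 2 * l ^ 5) := by ring
    rw [e]
    linarith
  have := mul_le_mul_of_nonneg_left q8 (by norm_num : (0 : ℝ) ≤ 10 ^ 13)
  rw [hK]
  linarith

end Pool.Agent.H24.TL
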