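import Pool.Agent.H24.TL.Evh
import Pool.Agent.H27.RU.Fm3

/-!
# [H24 TL EV3] `Evh` with `r = 1/3` (Robert-Sargos), explicit size
-/

set_option autoImplicit false

namespace Pool.Agent.H24.TL

open Finset Pool.Agent.H48.WN

/-- the size -/
noncomputable def M3 (X H : ℝ) : ℝ :=
  max (min (H ^ (1 / 2 : ℝ)) (X ^ (1 / 6 : ℝ) / H ^ (1 / 3 : ℝ))) (min (H ^ (1 / 3 : ℝ)) (X ^ (2 / 9 : ℝ) / H ^ (1 / 3 : ℝ)))

theorem ms_three (X H : ℝ) (hX : 0 < X) (hH : 0 < H) : Ms (1 / 3) X H = M3 X H := by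
  unfold Ms M3
  congr 1
  have h1 : (0 : ℝ) < H ^ (1 / 3 : ℝ) := by positivity
  have h2 : H ^ (2 / 3 : ℝ) / H ^ (1 / 3 : ℝ) = H ^ (1 / 3 : ℝ) := by
    rw [← Real.rpow_sub hH]
    norm_num
  have h3 : (X ^ (1 / 3 : ℝ)) ^ (2 / 3 : ℝ) = X ^ (2 / 9 : ℝ) := by
    rw [← Real.rpow_mul hX.le]
    norm_num
  rcases le_total H (X ^ (1 / 3 : ℝ)) with h | h
  · rw [min_eq_left h, h2, min_eq_left]
    have h4 := Real.rpow_le_rpow hH.le h (by norm_num : (0 : ℝ) ≤ 2 / 3)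
    rw [h3] at h4
    calc H ^ (1 / 3 : ℝ) = H ^ (2 / 3 : ℝ) / H ^ (1 / 3 : ℝ) := h2.symm
      _ ≤ X ^ (2 / 9 : ℝ) / H ^ (1 / 3 : ℝ) := div_le_div_of_nonneg_right h4 h1.le
  · rw [min_eq_right h, h3, min_eq_right]
    have h4 := Real.rpow_le_rpow (by positivity) h (by norm_num : (0 : ℝ) ≤ 2 / 3)
    rw [h3] at h4
    calc X ^ (2 / 9 : ℝ) / H ^ (1 / 3 : ℝ) ≤ H ^ (2 / 3 : ℝ) / H ^ (1 / 3 : ℝ) := div_le_div_of_nonneg_right h4 h1.le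
      _ = H ^ (1 / 3 : ℝ) := h2

/-- **Every length**, with the size `M3` -/
theorem evh3 (ε : ℝ) (hε : 0 < ε) :
    ∃ X0 : ℕ, ∀ X : ℕ, X0 ≤ X → ∀ H : ℕ, (X : ℝ) ^ ε ≤ H → (H : ℝ) ≤ (X : ℝ) ^ (1 / 2 - ε) → ∀ s : ℝ, s = 1 ∨ s = -1 →
      (X : ℝ) ^ (1 - ε) * (M3 X H / H) ^ 2 ≤ ((((Ioc ⌊X / Lw X⌋₊ ⌈Lw X * X⌉₊).filter fun n =>
          M3 X H * (X : ℝ) ^ (-ε) ≤ s * EI n H).card : ℕ) : ℝ) := by
  obtain ⟨X0, h⟩ := evh (1 / 3) ε (by norm_num) le_rfl (fun ρ h0 h1 => Pool.Agent.H27.RU.fm3 ρ h0 h1) hε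
  refine ⟨max X0 1, fun X hX H h1 h2 s hs => ?_⟩
  have hX1 : (1 : ℝ) ≤ X := by exact_mod_cast (le_max_right X0 1).trans hX
  have hH0 : (0 : ℝ) < H := lt_of_lt_of_le (by positivity) h1
  have h3 := h X ((le_max_left _ _).trans hX) H h1 h2 s hs
  rw [ms_three X H (by linarith) hH0] at h3
  exact h3

end Pool.Agent.H24.TL
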