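import Pool.Agent.H99.GB.Hq
import Pool.Agent.H67.VU.Pnt3

/-!
# [H24 TL HEV] every length is good up to a power

PROOF. For `δ = X^(-e)`: if `q ∈ (R, 2R]` and `h = H % q` is not in `[δ q, (1-δ) q]` then `|H - k q| < δ q` for `k = H/q` or `H/q + 1`, so `k ≥ H/(4R)` and
`k q` lies in an interval of length `4 δ R`: at most `16 δ R²/H + 1` such `q` for each `k ≤ H/R + 1`, together at most `32 δ R + 2H/R`, less than half of
the number of primes. For the other primes `cq H q / (q-1) ≥ δ/2`.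
-/

set_option autoImplicit false

namespace Pool.Agent.H24.TL

open Finset Pool.Agent.H67.VS Pool.Agent.H99.GB

/-- integers in a real interval -/
private theorem card_int (s : Finset ℕ) (a b : ℝ) (hab : a ≤ b) (hb : 0 ≤ b)
    (h : ∀ q ∈ s, a ≤ q ∧ (q : ℝ) ≤ b) : (s.card : ℝ) ≤ b - a + 1 := by
  have h1 : s ⊆ Icc ⌈a⌉₊ ⌊b⌋₊ := by
    intro q hq
    rw [mem_Icc]
    exact ⟨Nat.ceil_le.mpr (h q hq).1, Nat.le_floor (h q hq).2⟩
  have h2 := card_le_card h1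
  rw [Nat.card_Icc] at h2
  have h3 : (⌊b⌋₊ : ℝ) ≤ b := Nat.floor_le hb
  have h4 : a ≤ (⌈a⌉₊ : ℝ) := Nat.le_ceil a
  rcases le_or_gt ⌈a⌉₊ (⌊b⌋₊ + 1) with h5 | h5
  · have h6 : ((⌊b⌋₊ + 1 - ⌈a⌉₊ : ℕ) : ℝ) = (⌊b⌋₊ : ℝ) + 1 - (⌈a⌉₊ : ℝ) := by
      rw [Nat.cast_sub h5]
      push_cast
      ring
    have h7 : (s.card : ℝ) ≤ ((⌊b⌋₊ + 1 - ⌈a⌉₊ : ℕ) : ℝ) := by exact_mod_cast h2
    linarith
  · have h6 : s.card = 0 := by omega
    rw [h6]
    push_cast
    linarith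

/-- the bad moduli -/
private theorem bad_card (R H : ℕ) (δ : ℝ) (hR : 1 ≤ R) (hH : 4 * R ≤ H) (hδ0 : 0 ≤ δ) (hδ : δ ≤ 1 / 2) :
    (((Icc 1 (H / R + 1)).biUnion fun k : ℕ => (Ioc R (2 * R)).filter fun q : ℕ => |(H : ℝ) - k * q| < δ * q).card : ℝ) ≤
      32 * δ * R + 2 * H / R := by
  have hR0 : (0 : ℝ) < R := by exact_mod_cast hR
  have hH4 : 4 * (R : ℝ) ≤ H := by exact_mod_cast hH
  have hH0 : (0 : ℝ) < H := by linarith
  have h2 : ∀ k ∈ Icc 1 (H / R + 1), (((Ioc R (2 * R)).filter fun q : ℕ => |(H : ℝ) - k * q| < δ * q).card : ℝ) ≤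
      16 * δ * R ^ 2 / H + 1 := by
    intro k hk
    rw [mem_Icc] at hk
    have hk1 : (1 : ℝ) ≤ k := by exact_mod_cast hk.1
    rcases lt_or_ge (4 * R * k : ℝ) H with h3 | h3
    · have h4 : ((Ioc R (2 * R)).filter fun q : ℕ => |(H : ℝ) - k * q| < δ * q) = ∅ := by
        rw [filter_eq_empty_iff]
        intro q hq
        rw [mem_Ioc] at hq
        rw [not_lt]
        have e1 : (q : ℝ) ≤ 2 * R := by exact_mod_cast hq.2
        have e2 : δ * q ≤ 1 / 2 * (2 * R) := mul_le_mul hδ e1 (Nat.cast_nonneg _) (by norm_num)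
        have e3 : (k : ℝ) * q ≤ k * (2 * R) := mul_le_mul_of_nonneg_left e1 (by linarith)
        have e4 := le_abs_self ((H : ℝ) - k * q)
        nlinarith
      rw [h4, card_empty]
      push_cast
      positivity
    · have h5 := card_int ((Ioc R (2 * R)).filter fun q : ℕ => |(H : ℝ) - k * q| < δ * q)
        ((H - 2 * δ * R) / k) ((H + 2 * δ * R) / k) (by gcongr; linarith [mul_nonneg hδ0 hR0.le])
        (by positivity) (by
          intro q hq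
          rw [mem_filter, mem_Ioc] at hq
          have e1 : (q : ℝ) ≤ 2 * R := by exact_mod_cast hq.1.2
          have e2 : δ * q ≤ 2 * δ * R := by nlinarith
          have e3 := abs_lt.mp hq.2
          constructor
          · rw [div_le_iff₀ (by linarith)]
            linarith [e3.1, e3.2, mul_comm (k : ℝ) q]
          · rw [le_div_iff₀ (by linarith)]
            linarith [e3.1, e3.2, mul_comm (k : ℝ) q])
      refine h5.trans ?_
      have e1 : (H + 2 * δ * R) / k - (H - 2 * δ * R) / k = 4 * δ * R / k := by ring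
      rw [e1]
      have e2 : 4 * δ * R / k ≤ 16 * δ * R ^ 2 / H := by
        rw [div_le_div_iff₀ (by linarith) hH0]
        have e3 : 4 * δ * R * H ≤ 4 * δ * R * (4 * R * k) := mul_le_mul_of_nonneg_left h3 (by positivity)
        have e4 : 4 * δ * R * (4 * R * k) = 16 * δ * R ^ 2 * k := by ring
        linarith
      linarith
  have h3 : (((Icc 1 (H / R + 1)).biUnion fun k : ℕ => (Ioc R (2 * R)).filter fun q : ℕ => |(H : ℝ) - k * q| < δ * q).card : ℝ) ≤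
      ∑ k ∈ Icc 1 (H / R + 1), (((Ioc R (2 * R)).filter fun q : ℕ => |(H : ℝ) - k * q| < δ * q).card : ℝ) := by
    exact_mod_cast card_biUnion_le
  refine h3.trans ((sum_le_sum h2).trans ?_)
  rw [sum_const, Nat.card_Icc, nsmul_eq_mul, Nat.add_sub_cancel]
  have h4 : ((H / R + 1 : ℕ) : ℝ) ≤ 2 * (H / R) := by
    push_cast
    have e1 : ((H / R : ℕ) : ℝ) ≤ (H : ℝ) / R := Nat.cast_div_le
    have e2 : 1 ≤ (H : ℝ) / R := by
      rw [le_div_iff₀ hR0]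
      linarith
    linarith
  calc ((H / R + 1 : ℕ) : ℝ) * (16 * δ * R ^ 2 / H + 1) ≤ 2 * (H / R) * (16 * δ * R ^ 2 / H + 1) :=
        mul_le_mul_of_nonneg_right h4 (by positivity)
    _ = 32 * δ * R + 2 * H / R := by
        field_simp
        ring

/-- a good modulus -/
private theorem good_q (H q : ℕ) (δ : ℝ) (hq : 2 ≤ q) (hδ0 : 0 ≤ δ) (hδ : δ ≤ 1 / 2)
    (h1 : δ * q ≤ ((H % q : ℕ) : ℝ)) (h2 : ((H % q : ℕ) : ℝ) ≤ (1 - δ) * q) :
    δ / 2 ≤ cq H q / ((q : ℝ) - 1) := by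
  have hq2 : (2 : ℝ) ≤ q := by exact_mod_cast hq
  have hq0 : (0 : ℝ) < q := by linarith
  obtain ⟨h, hh⟩ : ∃ h : ℝ, h = ((H % q : ℕ) : ℝ) := ⟨_, rfl⟩
  unfold cq
  rw [← hh] at h1 h2 ⊢
  rw [le_div_iff₀ (by linarith)]
  have h3 : h * (1 - h / q) = h * (q - h) / q := by field_simp
  rw [h3, le_div_iff₀ hq0]
  have h4 : 0 ≤ (h - δ * q) * ((1 - δ) * q - h) := mul_nonneg (by linarith) (by linarith)
  have h5 : δ * (1 - δ) * q ^ 2 ≤ h * (q - h) := by nlinarith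
  have h6 : δ / 2 * (q - 1) * q ≤ δ * (1 - δ) * q ^ 2 := by
    have h7 : 0 ≤ δ * q ^ 2 := by positivity
    nlinarith [mul_nonneg hδ0 hq0.le]
  linarith

/-- the main inequality -/
theorem hev_aux (R H : ℕ) (δ : ℝ) (hR : 1 ≤ R) (hH : 4 * R ≤ H) (hδ0 : 0 ≤ δ) (hδ : δ ≤ 1 / 2)
    (hN : 32 * δ * R + 2 * H / R ≤ ((QQ R).card : ℝ) / 2) :
    δ / 4 * ((QQ R).card : ℝ) ≤ ∑ q ∈ QQ R, cq H q / ((q : ℝ) - 1) := by
  obtain ⟨B, hB⟩ : ∃ B : Finset ℕ, B = (Icc 1 (H / R + 1)).biUnion fun k : ℕ => (Ioc R (2 * R)).filter fun q : ℕ =>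
    |(H : ℝ) - k * q| < δ * q := ⟨_, rfl⟩
  have hb := bad_card R H δ hR hH hδ0 hδ
  rw [← hB] at hb
  have h1 : ((QQ R).card : ℝ) / 2 ≤ ((QQ R \ B).card : ℝ) := by
    have e1 : (QQ R).card ≤ (QQ R \ B).card + B.card := by
      have := le_card_sdiff B (QQ R)
      omega
    have e2 : ((QQ R).card : ℝ) ≤ ((QQ R \ B).card : ℝ) + (B.card : ℝ) := by exact_mod_cast e1
    linarith
  have hterm : ∀ q ∈ QQ R, 0 ≤ cq H q / ((q : ℝ) - 1) := by
    intro q hq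
    unfold QQ at hq
    rw [mem_filter] at hq
    have h2 : (2 : ℝ) ≤ q := by exact_mod_cast hq.2.two_le
    have h3 : ((H % q : ℕ) : ℝ) ≤ q := by exact_mod_cast (Nat.mod_lt H hq.2.pos).le
    unfold cq
    refine div_nonneg (mul_nonneg (Nat.cast_nonneg _) ?_) (by linarith)
    rw [sub_nonneg, div_le_one (by linarith)]
    exact h3
  have hgood : ∀ q ∈ QQ R \ B, δ / 2 ≤ cq H q / ((q : ℝ) - 1) := by
    intro q hq
    rw [Finset.mem_sdiff] at hq
    obtain ⟨hq1, hq2⟩ := hq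
    unfold QQ at hq1
    rw [mem_filter] at hq1
    have hqI := hq1.1
    rw [mem_Ioc] at hq1
    have hq0 : 0 < q := hq1.2.pos
    have hq0r : (0 : ℝ) < q := by exact_mod_cast hq0
    have h3 : ∀ k ∈ Icc 1 (H / R + 1), δ * q ≤ |(H : ℝ) - k * q| := by
      intro k hk
      by_contra hcon
      apply hq2
      rw [hB, mem_biUnion]
      exact ⟨k, hk, mem_filter.mpr ⟨hqI, lt_of_not_ge hcon⟩⟩
    have hdm : q * (H / q) + H % q = H := Nat.div_add_mod H q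
    have hdmr : (q : ℝ) * ((H / q : ℕ) : ℝ) + ((H % q : ℕ) : ℝ) = H := by exact_mod_cast hdm
    have hk1 : 1 ≤ H / q := by
      rw [Nat.one_le_div_iff hq0]
      omega
    have hk2 : H / q ≤ H / R := Nat.div_le_div_left hq1.1.1.le hR
    refine good_q H q δ hq1.2.two_le hδ0 hδ ?_ ?_
    · have h4 := h3 (H / q) (mem_Icc.mpr ⟨hk1, by omega⟩)
      have e1 : (H : ℝ) - ((H / q : ℕ) : ℝ) * q = ((H % q : ℕ) : ℝ) := by linarith [mul_comm (q : ℝ) ((H / q : ℕ) : ℝ)]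
      rw [e1, abs_of_nonneg (Nat.cast_nonneg _)] at h4
      exact h4
    · have h4 := h3 (H / q + 1) (mem_Icc.mpr ⟨by omega, by omega⟩)
      have e1 : (H : ℝ) - ((H / q + 1 : ℕ) : ℝ) * q = ((H % q : ℕ) : ℝ) - q := by
        push_cast
        linarith [mul_comm (q : ℝ) ((H / q : ℕ) : ℝ)]
      have e2 : ((H % q : ℕ) : ℝ) ≤ q := by exact_mod_cast (Nat.mod_lt H hq0).le
      rw [e1, abs_of_nonpos (by linarith)] at h4
      linarith
  calc δ / 4 * ((QQ R).card : ℝ) = ((QQ R).card : ℝ) / 2 * (δ / 2) := by ring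
    _ ≤ ((QQ R \ B).card : ℝ) * (δ / 2) := mul_le_mul_of_nonneg_right h1 (by linarith)
    _ = ∑ _q ∈ QQ R \ B, δ / 2 := by rw [sum_const, nsmul_eq_mul]
    _ ≤ ∑ q ∈ QQ R \ B, cq H q / ((q : ℝ) - 1) := sum_le_sum hgood
    _ ≤ ∑ q ∈ QQ R, cq H q / ((q : ℝ) - 1) :=
        sum_le_sum_of_subset_of_nonneg sdiff_subset fun q hq _ => hterm q hq

end Pool.Agent.H24.TL
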