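import Pool.Agent.H99.GC.Fin
import Pool.Agent.H99.GB.Fin
import Pool.Agent.H24.TL.Hev

/-!
# [H24 TL GEV] theorem GC for EVERY length, with exceptions

PROOF. As `kap` and `gc` (`H99/GC/Kap`, `Fin`; the private lemmas are copied). Every length is good up to a power (`hev_aux` with `δ = K⁻²`, `K = X^d`).
Exceptions: the weight `κ + D 1_Ex(n)` in place of `κ`, `D = 2 H log (3X) ≥ |ET n H|`, `Ex` the set of the `n` in `(X, 2X]` with `s EI n H < -κ`:
`D ∑_(n ∈ Ex) (2 N + 2 G²) ≤ 2 D N |Ex| + 2 D |Ex|^(1/2) (∑ G⁴)^(1/2) ≤ 86 D N (|Ex| X)^(1/2)` (`four`), and `|Ex| ≤ X^(1 + ρ - 2θ - 4ε)`.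
-/

set_option autoImplicit false

namespace Pool.Agent.H24.TL

open Finset Pool.Agent.H67.VS Pool.Agent.H48.WN Pool.Agent.H99.GB Pool.Agent.H99.GC Filter

theorem kape (S Q : Finset ℕ) (f : ℕ → ℕ → ℝ) (e κ : ℕ → ℝ) (s : ℝ) (hs : s = 1 ∨ s = -1) (hκ : ∀ x ∈ S, 0 ≤ κ x)
    (hf : ∀ q ∈ Q, ∀ x ∈ S, |f q x| ≤ 1) (he : ∀ x ∈ S, -κ x ≤ s * e x) :
    2 * Real.sqrt (Q.card : ℝ) * (-∑ x ∈ S, (∑ q ∈ Q, f q x) * e x) ≤
      ∑ x ∈ S, κ x * (2 * (Q.card : ℝ) + 2 * (∑ q ∈ Q, f q x) ^ 2) +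
        2 * (Q.card : ℝ) * ∑ x ∈ S, |e x| +
        2 * ∑ q ∈ Q, ∑ r ∈ Q, (if q < r then |∑ x ∈ S, f q x * f r x * e x| else 0) := by
  have hss : s * s = 1 := by rcases hs with rfl | rfl <;> norm_num
  have hsa : |s| = 1 := by rcases hs with rfl | rfl <;> norm_num
  obtain ⟨g, hg⟩ : ∃ g : ℕ → ℝ, ∀ x, g x = ∑ q ∈ Q, f q x := ⟨_, fun x => rfl⟩
  obtain ⟨D, hD⟩ : ∃ D : ℝ, D = ∑ q ∈ Q, ∑ r ∈ Q, (if q < r then |∑ x ∈ S, f q x * f r x * e x| else 0) := ⟨_, rfl⟩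
  have hD0 : 0 ≤ D := by
    rw [hD]
    refine Finset.sum_nonneg fun q _ => Finset.sum_nonneg fun r _ => ?_
    split_ifs
    · exact abs_nonneg _
    · exact le_rfl
  have hA0 : 0 ≤ ∑ x ∈ S, |e x| := Finset.sum_nonneg fun x _ => abs_nonneg _
  rw [← hD]
  simp only [← hg]
  rcases Nat.eq_zero_or_pos Q.card with hN | hN
  · rw [hN, Nat.cast_zero, Real.sqrt_zero]
    have h1 : 0 ≤ ∑ x ∈ S, κ x * (2 * (0 : ℝ) + 2 * g x ^ 2) :=
      Finset.sum_nonneg fun x hx => mul_nonneg (hκ x hx) (by positivity)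
    nlinarith [h1]
  -- the second order term
  have hS2 : |∑ x ∈ S, g x ^ 2 * e x| ≤ (Q.card : ℝ) * ∑ x ∈ S, |e x| + 2 * D := by
    have h1 : ∑ x ∈ S, g x ^ 2 * e x = ∑ x ∈ S, (∑ q ∈ Q, f q x ^ 2) * e x +
        2 * ∑ q ∈ Q, ∑ r ∈ Q, (if q < r then ∑ x ∈ S, f q x * f r x * e x else 0) := by
      have h2 : ∀ x, g x ^ 2 * e x = (∑ q ∈ Q, f q x ^ 2) * e x +
          2 * ∑ q ∈ Q, ∑ r ∈ Q, (if q < r then f q x * f r x * e x else 0) := by
        intro x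
        have h9 : (∑ q ∈ Q, ∑ r ∈ Q, (if q < r then f q x * f r x else 0)) * e x =
            ∑ q ∈ Q, ∑ r ∈ Q, (if q < r then f q x * f r x * e x else 0) := by
          rw [Finset.sum_mul]
          refine Finset.sum_congr rfl fun q _ => ?_
          rw [Finset.sum_mul]
          refine Finset.sum_congr rfl fun r _ => ?_
          split_ifs
          · rfl
          · rw [zero_mul]
        rw [hg, sq_sum_lt, add_mul, mul_assoc, h9]
      rw [Finset.sum_congr rfl fun x _ => h2 x, Finset.sum_add_distrib, ← Finset.mul_sum]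
      congr 2
      rw [Finset.sum_comm]
      refine Finset.sum_congr rfl fun q _ => ?_
      rw [Finset.sum_comm]
      refine Finset.sum_congr rfl fun r _ => ?_
      split_ifs
      · rfl
      · simp
    have h3 : |∑ x ∈ S, (∑ q ∈ Q, f q x ^ 2) * e x| ≤ (Q.card : ℝ) * ∑ x ∈ S, |e x| := by
      refine (Finset.abs_sum_le_sum_abs _ _).trans ?_
      rw [Finset.mul_sum]
      refine Finset.sum_le_sum fun x hx => ?_
      rw [abs_mul]
      refine mul_le_mul_of_nonneg_right ?_ (abs_nonneg _)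
      rw [abs_of_nonneg (Finset.sum_nonneg fun q _ => sq_nonneg _)]
      have h4 : ∑ q ∈ Q, f q x ^ 2 ≤ ∑ q ∈ Q, (1 : ℝ) := by
        refine Finset.sum_le_sum fun q hq => ?_
        rw [sq_le_one_iff_abs_le_one]
        exact hf q hq x hx
      rwa [Finset.sum_const, nsmul_eq_mul, mul_one] at h4
    have h5 : |∑ q ∈ Q, ∑ r ∈ Q, (if q < r then ∑ x ∈ S, f q x * f r x * e x else 0)| ≤ D := by
      rw [hD]
      refine (Finset.abs_sum_le_sum_abs _ _).trans (Finset.sum_le_sum fun q _ => ?_)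
      refine (Finset.abs_sum_le_sum_abs _ _).trans (Finset.sum_le_sum fun r _ => ?_)
      split_ifs
      · exact le_rfl
      · rw [abs_zero]
    rw [h1]
    refine (abs_add_le _ _).trans (add_le_add h3 ?_)
    rw [abs_mul, abs_of_nonneg (by norm_num : (0 : ℝ) ≤ 2)]
    linarith
  obtain ⟨N, hNd⟩ : ∃ N : ℝ, N = (Q.card : ℝ) := ⟨_, rfl⟩
  have hN0 : 0 < N := by rw [hNd]; exact_mod_cast hN
  rw [← hNd] at hS2 ⊢
  have hr0 : 0 < Real.sqrt N := Real.sqrt_pos.2 hN0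
  have hr2 : Real.sqrt N * Real.sqrt N = N := Real.mul_self_sqrt hN0.le
  -- `0 ≤ ∑ (κ + s e) (√N + s g)²`
  have hmain : 0 ≤ ∑ x ∈ S, (κ x + s * e x) * (Real.sqrt N + s * g x) ^ 2 :=
    Finset.sum_nonneg fun x hx => mul_nonneg (by linarith [he x hx]) (sq_nonneg _)
  have hexp : ∑ x ∈ S, (κ x + s * e x) * (Real.sqrt N + s * g x) ^ 2 =
      ∑ x ∈ S, κ x * (Real.sqrt N + s * g x) ^ 2 + s * N * ∑ x ∈ S, e x +
        2 * Real.sqrt N * ∑ x ∈ S, g x * e x + s * ∑ x ∈ S, g x ^ 2 * e x := by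
    rw [Finset.mul_sum, Finset.mul_sum, Finset.mul_sum, ← Finset.sum_add_distrib,
      ← Finset.sum_add_distrib, ← Finset.sum_add_distrib]
    refine Finset.sum_congr rfl fun x _ => ?_
    linear_combination (s * e x) * hr2 + (2 * Real.sqrt N * g x * e x + s * g x ^ 2 * e x) * hss
  have h1 : ∑ x ∈ S, κ x * (Real.sqrt N + s * g x) ^ 2 ≤ ∑ x ∈ S, κ x * (2 * N + 2 * g x ^ 2) := by
    have h2 : ∀ x ∈ S, (Real.sqrt N + s * g x) ^ 2 ≤ 2 * N + 2 * g x ^ 2 := by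
      intro x _
      nlinarith [sq_nonneg (Real.sqrt N - s * g x), hr2, hss, mul_self_nonneg (g x)]
    exact Finset.sum_le_sum fun x hx => mul_le_mul_of_nonneg_left (h2 x hx) (hκ x hx)
  have h2 : s * N * ∑ x ∈ S, e x ≤ N * ∑ x ∈ S, |e x| := by
    have h3 : s * ∑ x ∈ S, e x ≤ ∑ x ∈ S, |e x| := by
      refine (le_abs_self _).trans ?_
      rw [abs_mul, hsa, one_mul]
      exact Finset.abs_sum_le_sum_abs _ _
    calc s * N * ∑ x ∈ S, e x = N * (s * ∑ x ∈ S, e x) := by ring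
      _ ≤ N * ∑ x ∈ S, |e x| := mul_le_mul_of_nonneg_left h3 hN0.le
  have h3 : s * ∑ x ∈ S, g x ^ 2 * e x ≤ N * ∑ x ∈ S, |e x| + 2 * D := by
    refine ((le_abs_self _).trans ?_)
    rw [abs_mul, hsa, one_mul]
    exact hS2
  rw [hexp] at hmain
  nlinarith [hmain, h2, h3, h1]

private lemma fin_card (R : ℕ) : (QQ R).card ≤ R := by
  unfold QQ
  refine (card_filter_le _ _).trans ?_
  rw [Nat.card_Ioc]
  omega

private lemma fin_pl (R : ℕ) : ∑ n ∈ Ioc R (2 * R), pl n ≤ ((QQ R).card : ℝ) * Real.log (2 * R) := by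
  have h : ∑ n ∈ Ioc R (2 * R), pl n = ∑ q ∈ QQ R, Real.log q := by
    unfold QQ pl
    rw [Finset.sum_filter]
  rw [h, ← nsmul_eq_mul]
  refine Finset.sum_le_card_nsmul _ _ _ fun q hq => ?_
  unfold QQ at hq
  rw [mem_filter, mem_Ioc] at hq
  have h1 : (0 : ℝ) < q := by exact_mod_cast hq.2.pos
  have h2 : (q : ℝ) ≤ 2 * R := by exact_mod_cast hq.1.2
  exact Real.log_le_log h1 h2

private lemma fin_log (X : ℕ) (hX : 1 ≤ X) : 1 ≤ Real.log (3 * X) := by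
  have hX1r : (1 : ℝ) ≤ X := by exact_mod_cast hX
  rw [Real.le_log_iff_exp_le (by linarith)]
  have := Real.exp_one_lt_d9
  linarith

private lemma fin_ev (ρ d C : ℝ) (hρ : 0 < ρ) (hd : 0 < d) (hd1 : d ≤ 1) (X1 : ℕ) :
    ∀ᶠ X : ℕ in atTop, X1 ≤ X ∧ 3 ≤ X ∧ (1 - 1 / 2) * (X : ℝ) ≤ ∑ n ∈ Ioc X (2 * X), pl n ∧
      (1 - 1 / 2) * ((⌊(X : ℝ) ^ ρ⌋₊ : ℕ) : ℝ) ≤
        ∑ n ∈ Ioc ⌊(X : ℝ) ^ ρ⌋₊ (2 * ⌊(X : ℝ) ^ ρ⌋₊), pl n ∧
      Real.log (3 * X) ≤ (X : ℝ) ^ d ∧ C ≤ (X : ℝ) ^ d := by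
  have hcast : Tendsto (fun X : ℕ => (X : ℝ)) atTop atTop := tendsto_natCast_atTop_atTop
  have h1 := Pool.Agent.H67.VU.pntA (1 / 2) (by norm_num)
  have hR : Tendsto (fun X : ℕ => ⌊(X : ℝ) ^ ρ⌋₊) atTop atTop :=
    tendsto_nat_floor_atTop.comp ((tendsto_rpow_atTop hρ).comp hcast)
  have h2 := hR.eventually h1
  have h3 : ∀ᶠ X : ℕ in atTop, C ≤ (X : ℝ) ^ d :=
    ((tendsto_rpow_atTop hd).comp hcast).eventually_ge_atTop C
  have h4 : ∀ᶠ y : ℝ in atTop, ‖Real.log y‖ ≤ (1 / 3 : ℝ) * ‖y ^ d‖ :=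
    (isLittleO_log_rpow_atTop hd).bound (by norm_num)
  have h5 : Tendsto (fun X : ℕ => 3 * (X : ℝ)) atTop atTop :=
    hcast.const_mul_atTop (by norm_num)
  have h6 := h5.eventually h4
  filter_upwards [h1, h2, h3, h6, eventually_ge_atTop X1, eventually_ge_atTop 3] with X g1 g2 g3 g6 g7 g8
  refine ⟨g7, g8, g1, g2, ?_, g3⟩
  have hX0 : (0 : ℝ) ≤ X := Nat.cast_nonneg _
  have g9 : ‖(3 * (X : ℝ)) ^ d‖ = (3 * (X : ℝ)) ^ d := Real.norm_of_nonneg (by positivity)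
  rw [g9, Real.mul_rpow (by norm_num) hX0] at g6
  have g10 : (3 : ℝ) ^ d ≤ 3 := by
    have := Real.rpow_le_rpow_of_exponent_le (by norm_num : (1 : ℝ) ≤ 3) hd1
    rwa [Real.rpow_one] at this
  have g11 : (0 : ℝ) ≤ (X : ℝ) ^ d := by positivity
  have g12 := (Real.le_norm_self (Real.log (3 * X))).trans g6
  nlinarith

private lemma fin_T (X H R : ℕ) (y K Θ M T W : ℝ) (hH1 : 1 ≤ H) (hHX : H ≤ X) (hRy : (R : ℝ) ≤ y)
    (h2R : 2 * R ≤ X) (hy0 : 0 < y) (hK1 : 1 ≤ K) (hlog : Real.log (3 * X) ≤ K)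
    (hΘ : Θ = ∑ m ∈ Ioc X (2 * X), pl m) (hM : M = ∑ q ∈ QQ R, cq H q / ((q : ℝ) - 1))
    (hT : T = ∑ i ∈ Ioc X (2 * X), G (QQ R) H i * ET i H)
    (hW : ∑ q ∈ QQ R, SC X q ≤ W) :
    |T + M * Θ| ≤ Real.sqrt (2 * y) * W + 20 * H * y ^ 2 * K := by
  have h1 : T + M * Θ = ∑ q ∈ QQ R, (∑ i ∈ Ioc X (2 * X), ph H q i * ET i H +
      cq H q / ((q : ℝ) - 1) * Θ) := by
    rw [Finset.sum_add_distrib, ← Finset.sum_mul, ← hM, Finset.sum_comm, hT]
    congr 1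
    refine Finset.sum_congr rfl fun i _ => ?_
    unfold G
    rw [Finset.sum_mul]
  have h2 : ∀ q ∈ QQ R, |∑ i ∈ Ioc X (2 * X), ph H q i * ET i H + cq H q / ((q : ℝ) - 1) * Θ| ≤
      Real.sqrt (2 * y) * SC X q + 20 * H * y * K := by
    intro q hqq
    have h3 := hqq
    unfold QQ at h3
    rw [mem_filter, mem_Ioc] at h3
    have hq2 : (q : ℝ) ≤ 2 * y := by
      have : (q : ℝ) ≤ 2 * R := by exact_mod_cast h3.1.2
      linarith
    have hqX : q ≤ X := by omega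
    have h4 := cov X H q h3.2 hqX hH1 hHX
    rw [← hΘ] at h4
    refine h4.trans ?_
    have hSC : 0 ≤ SC X q := by
      unfold SC
      exact Finset.sum_nonneg fun _ _ => norm_nonneg _
    have h5 : Real.sqrt q * SC X q ≤ Real.sqrt (2 * y) * SC X q :=
      mul_le_mul_of_nonneg_right (Real.sqrt_le_sqrt hq2) hSC
    have hl0 : 0 ≤ Real.log (3 * X) := by
      have := fin_log X (hH1.trans hHX)
      linarith
    have h6 : 10 * (H : ℝ) * q * Real.log (3 * X) ≤ 10 * H * (2 * y) * K := by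
      have h7 : 10 * (H : ℝ) * q ≤ 10 * H * (2 * y) :=
        mul_le_mul_of_nonneg_left hq2 (by positivity)
      exact mul_le_mul h7 hlog hl0 (by positivity)
    linarith
  rw [h1]
  refine (Finset.abs_sum_le_sum_abs _ _).trans ((Finset.sum_le_sum h2).trans ?_)
  rw [Finset.sum_add_distrib, Finset.sum_const, nsmul_eq_mul, ← Finset.mul_sum]
  have hQy : ((QQ R).card : ℝ) ≤ y := by
    have : ((QQ R).card : ℝ) ≤ R := by exact_mod_cast fin_card R
    linarith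
  have h9 : ((QQ R).card : ℝ) * (20 * H * y * K) ≤ y * (20 * H * y * K) :=
    mul_le_mul_of_nonneg_right hQy (by positivity)
  have h10 : Real.sqrt (2 * y) * ∑ q ∈ QQ R, SC X q ≤ Real.sqrt (2 * y) * W :=
    mul_le_mul_of_nonneg_left hW (Real.sqrt_nonneg _)
  have h11 : y * (20 * H * y * K) = 20 * H * y ^ 2 * K := by ring
  linarith

private lemma fin_Q (X R : ℕ) (y K : ℝ) (hR1 : 1 ≤ R) (h2R : 2 * R ≤ X) (hRy2 : y / 2 ≤ R) (hK1 : 1 ≤ K)
    (hlog : Real.log (3 * X) ≤ K)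
    (hThR : (1 - 1 / 2) * (R : ℝ) ≤ ∑ n ∈ Ioc R (2 * R), pl n) : y / (4 * K) ≤ ((QQ R).card : ℝ) := by
  have h1 := fin_pl R
  have h2 : Real.log (2 * R) ≤ K := by
    refine le_trans (Real.log_le_log ?_ ?_) hlog
    · have : (1 : ℝ) ≤ R := by exact_mod_cast hR1
      linarith
    · have : 2 * R ≤ 3 * X := by omega
      exact_mod_cast this
  have h3 : ((QQ R).card : ℝ) * Real.log (2 * R) ≤ ((QQ R).card : ℝ) * K :=
    mul_le_mul_of_nonneg_left h2 (Nat.cast_nonneg _)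
  rw [div_le_iff₀ (by positivity)]
  have h4 : ((QQ R).card : ℝ) * (4 * K) = 4 * (((QQ R).card : ℝ) * K) := by ring
  linarith

private lemma fin_a (x y z K H : ℝ) (hx0 : 0 < x) (hy0 : 0 < y) (hz0 : 0 < z) (hK6 : (10 : ℝ) ^ 6 ≤ K)
    (hHzK : H ≤ z * K) (h1 : z * y * K ^ 8 ≤ x) :
    20 * H * y ^ 2 * K ≤ (y * x) / K ^ 4 / 1000 := by
  have hK1 : (1 : ℝ) ≤ K := by linarith
  have hK0 : (0 : ℝ) < K := by linarith
  rw [le_div_iff₀ (by norm_num), le_div_iff₀ (by positivity)]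
  have h2 : 20 * H * y ^ 2 * K * 1000 * K ^ 4 ≤ 20 * (z * K) * y ^ 2 * K * 1000 * K ^ 4 := by
    have h3 : 0 ≤ 20 * y ^ 2 * K * 1000 * K ^ 4 := by positivity
    have h4 := mul_le_mul_of_nonneg_right hHzK h3
    linarith
  refine h2.trans ?_
  have h4 : 20 * (z * K) * y ^ 2 * K * 1000 * K ^ 4 = y * (z * y * K ^ 6 * 20000) := by ring
  rw [h4]
  refine mul_le_mul_of_nonneg_left ?_ hy0.le
  refine le_trans ?_ h1
  have h6 : (20000 : ℝ) ≤ K ^ 2 := by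
    have : K ≤ K ^ 2 := le_self_pow₀ hK1 (by norm_num)
    linarith
  have h7 : z * y * K ^ 8 = z * y * K ^ 6 * K ^ 2 := by ring
  rw [h7]
  exact mul_le_mul_of_nonneg_left h6 (by positivity)

private lemma fin_d (X H : ℕ) (K S E : ℝ) (hX3 : 3 ≤ X) (hH2 : H ^ 2 ≤ X) (hlog : Real.log (3 * X) ≤ K)
    (hS : S = ∑ i ∈ Ioc X (2 * X), |ET i H|) (hE : E = ∑ n ∈ Ioc X (2 * X), |EI n H|) :
    S ≤ K * E + 2 * X := by
  rw [hS, hE, Finset.mul_sum]
  have h1 : ∀ n ∈ Ioc X (2 * X), |ET n H| ≤ K * |EI n H| + 2 := by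
    intro n hn
    rw [mem_Ioc] at hn
    have h2 := trf n H (by omega) (by omega)
    have h3 : |ET n H| ≤ |ET n H - Real.log n * EI n H| + |Real.log n * EI n H| := by
      have h4 := abs_add_le (ET n H - Real.log n * EI n H) (Real.log n * EI n H)
      rwa [sub_add_cancel] at h4
    have h5 : |Real.log n * EI n H| ≤ K * |EI n H| := by
      rw [abs_mul, abs_of_nonneg (Real.log_natCast_nonneg n)]
      refine mul_le_mul_of_nonneg_right ?_ (abs_nonneg _)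
      refine le_trans (Real.log_le_log ?_ ?_) hlog
      · have : 0 < n := by omega
        exact_mod_cast this
      · have : n ≤ 3 * X := by omega
        exact_mod_cast this
    linarith
  refine (Finset.sum_le_sum h1).trans ?_
  rw [Finset.sum_add_distrib, Finset.sum_const, Nat.card_Ioc, nsmul_eq_mul]
  have h2 : 2 * X - X = X := by omega
  rw [h2]
  linarith

private lemma fin_ph (H q x : ℕ) (hq : 0 < q) : |ph H q x| ≤ 1 := by
  unfold ph
  have hq0 : (0 : ℝ) < q := by exact_mod_cast hq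
  rw [abs_div, abs_of_pos hq0, div_le_one hq0, abs_le]
  have h1 : ((x % q : ℕ) : ℝ) < q := by exact_mod_cast Nat.mod_lt x hq
  have h2 : (((x + H) % q : ℕ) : ℝ) < q := by exact_mod_cast Nat.mod_lt (x + H) hq
  have h3 : (0 : ℝ) ≤ ((x % q : ℕ) : ℝ) := Nat.cast_nonneg _
  have h4 : (0 : ℝ) ≤ (((x + H) % q : ℕ) : ℝ) := Nat.cast_nonneg _
  constructor <;> linarith

private lemma fin_b2 (x y K N M Θ T E2 : ℝ) (hx0 : 0 < x) (hy0 : 0 < y) (hK6 : (10 : ℝ) ^ 6 ≤ K)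
    (hQ : y / (4 * K) ≤ N) (hM : 1 / K ^ 2 / 4 * N ≤ M) (hΘ : (1 - 1 / 2) * x ≤ Θ)
    (hT : |T + M * Θ| ≤ 2 * (y * x) / K ^ 4 + E2) (hE2 : E2 ≤ (y * x) / K ^ 4 / 1000) :
    N * x / (10 * K ^ 2) ≤ -T := by
  have hK0 : (0 : ℝ) < K := by linarith
  have hN0 : 0 < N := lt_of_lt_of_le (by positivity) hQ
  obtain ⟨g, hg⟩ : ∃ g : ℝ, g = N * x / K ^ 2 := ⟨_, rfl⟩
  have hg0 : 0 < g := by rw [hg]; positivity
  have h2 : g / 8 ≤ M * Θ := by
    have e1 : (1 / K ^ 2 / 4 * N) * (x / 2) ≤ M * Θ :=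
      mul_le_mul hM (by linarith) (by positivity) (le_trans (by positivity) hM)
    have e2 : (1 / K ^ 2 / 4 * N) * (x / 2) = g / 8 := by
      rw [hg]
      field_simp
      norm_num
    linarith
  rw [div_le_iff₀ (by positivity)] at hQ
  have h3 : y * x / K ^ 4 ≤ g * (4 / 10 ^ 6) := by
    have e1 : y * x ≤ N * (4 * K) * x := mul_le_mul_of_nonneg_right hQ hx0.le
    have e2 : y * x / K ^ 4 ≤ N * (4 * K) * x / K ^ 4 := div_le_div_of_nonneg_right e1 (by positivity)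
    have e3 : N * (4 * K) * x / K ^ 4 = g * (4 / K) := by
      rw [hg]
      field_simp
    have e4 : g * (4 / K) ≤ g * (4 / 10 ^ 6) := by gcongr
    linarith
  have h8 : 2 * (y * x) / K ^ 4 = 2 * (y * x / K ^ 4) := by ring
  rw [h8] at hT
  have h10 : N * x / (10 * K ^ 2) = g / 10 := by
    rw [hg]
    field_simp
  have h12 := (abs_le.mp hT).1
  have h13 := (abs_le.mp hT).2
  rw [h10]
  linarith

private lemma fin_g2 (X H R : ℕ) (x y : ℝ) (hX1 : 1 ≤ X) (hR1 : 1 ≤ R) (hx : x = X) (hRy : (R : ℝ) ≤ y)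
    (hy4 : y ^ 4 ≤ x) (hx0 : 0 < x) :
    ∑ i ∈ Ioc X (2 * X), G (QQ R) H i ^ 2 ≤ 42 * x * ((QQ R).card : ℝ) := by
  have hfour := four X H R hX1 hR1
  rw [← hx] at hfour
  have h1 : (R : ℝ) ^ 4 ≤ x := (pow_le_pow_left₀ (Nat.cast_nonneg _) hRy 4).trans hy4
  have h3 : 100 * (x + 16 * (R : ℝ) ^ 4) ≤ 1700 * x := by linarith
  have h4 : 100 * (x + 16 * (R : ℝ) ^ 4) * ((QQ R).card : ℝ) ^ 2 ≤ 1700 * x * ((QQ R).card : ℝ) ^ 2 :=
    mul_le_mul_of_nonneg_right h3 (by positivity)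
  have h5 := sq_sum_le_card_mul_sum_sq (s := Ioc X (2 * X)) (f := fun i => G (QQ R) H i ^ 2)
  have h6 : 2 * X - X = X := by omega
  rw [Nat.card_Ioc, h6, ← hx] at h5
  have h7 : ∑ i ∈ Ioc X (2 * X), (G (QQ R) H i ^ 2) ^ 2 = ∑ i ∈ Ioc X (2 * X), G (QQ R) H i ^ 4 :=
    Finset.sum_congr rfl fun i _ => by ring
  rw [h7] at h5
  have h8 : x * ∑ i ∈ Ioc X (2 * X), G (QQ R) H i ^ 4 ≤ x * (1700 * x * ((QQ R).card : ℝ) ^ 2) :=
    mul_le_mul_of_nonneg_left (hfour.trans h4) hx0.le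
  refine le_of_sq_le_sq ?_ (by positivity)
  refine h5.trans (h8.trans ?_)
  have h9 : (42 * x * ((QQ R).card : ℝ)) ^ 2 = 1764 * (x * x * ((QQ R).card : ℝ) ^ 2) := by ring
  have h10 : x * (1700 * x * ((QQ R).card : ℝ) ^ 2) = 1700 * (x * x * ((QQ R).card : ℝ) ^ 2) := by ring
  rw [h9, h10]
  have h11 : 0 ≤ x * x * ((QQ R).card : ℝ) ^ 2 := by positivity
  linarith

private lemma fin_ex (X H R : ℕ) (x y D b : ℝ) (Ex : Finset ℕ) (hEx : Ex ⊆ Ioc X (2 * X)) (hX1 : 1 ≤ X) (hR1 : 1 ≤ R)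
    (hx : x = X) (hRy : (R : ℝ) ≤ y) (hy4 : y ^ 4 ≤ x) (hD : 0 ≤ D) (hb : 0 ≤ b)
    (hc : (Ex.card : ℝ) * x ≤ b ^ 2) :
    ∑ i ∈ Ex, D * (2 * ((QQ R).card : ℝ) + 2 * G (QQ R) H i ^ 2) ≤ 86 * D * ((QQ R).card : ℝ) * b := by
  have hfour := four X H R hX1 hR1
  rw [← hx] at hfour
  have h1 : (R : ℝ) ^ 4 ≤ x := (pow_le_pow_left₀ (Nat.cast_nonneg _) hRy 4).trans hy4
  have h3 : 100 * (x + 16 * (R : ℝ) ^ 4) ≤ 1700 * x := by linarith
  have h4 : 100 * (x + 16 * (R : ℝ) ^ 4) * ((QQ R).card : ℝ) ^ 2 ≤ 1700 * x * ((QQ R).card : ℝ) ^ 2 :=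
    mul_le_mul_of_nonneg_right h3 (by positivity)
  have h5 := sq_sum_le_card_mul_sum_sq (s := Ex) (f := fun i => G (QQ R) H i ^ 2)
  have h7 : ∑ i ∈ Ex, (G (QQ R) H i ^ 2) ^ 2 ≤ ∑ i ∈ Ioc X (2 * X), G (QQ R) H i ^ 4 := by
    have e : ∀ i, (G (QQ R) H i ^ 2) ^ 2 = G (QQ R) H i ^ 4 := fun i => by ring
    simp only [e]
    exact Finset.sum_le_sum_of_subset_of_nonneg hEx fun i _ _ => by positivity
  have h8 : ∑ i ∈ Ex, G (QQ R) H i ^ 2 ≤ 42 * ((QQ R).card : ℝ) * b := by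
    refine le_of_sq_le_sq ?_ (by positivity)
    refine h5.trans ?_
    have e1 : (Ex.card : ℝ) * ∑ i ∈ Ex, (G (QQ R) H i ^ 2) ^ 2 ≤ (Ex.card : ℝ) * (1700 * x * ((QQ R).card : ℝ) ^ 2) :=
      mul_le_mul_of_nonneg_left (h7.trans (hfour.trans h4)) (Nat.cast_nonneg _)
    have e2 : (Ex.card : ℝ) * (1700 * x * ((QQ R).card : ℝ) ^ 2) = 1700 * ((QQ R).card : ℝ) ^ 2 * ((Ex.card : ℝ) * x) := by ring
    have e3 : 1700 * ((QQ R).card : ℝ) ^ 2 * ((Ex.card : ℝ) * x) ≤ 1700 * ((QQ R).card : ℝ) ^ 2 * b ^ 2 :=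
      mul_le_mul_of_nonneg_left hc (by positivity)
    have e4 : (42 * ((QQ R).card : ℝ) * b) ^ 2 = 1764 * (((QQ R).card : ℝ) ^ 2 * b ^ 2) := by ring
    have e5 : 0 ≤ ((QQ R).card : ℝ) ^ 2 * b ^ 2 := by positivity
    linarith
  have h9 : (Ex.card : ℝ) ≤ b := by
    have e1 : (Ex.card : ℝ) ≤ x := by
      have := Finset.card_le_card hEx
      rw [Nat.card_Ioc] at this
      rw [hx]
      have e2 : Ex.card ≤ X := by omega
      exact_mod_cast e2
    have e3 : (Ex.card : ℝ) ^ 2 ≤ b ^ 2 := by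
      refine le_trans ?_ hc
      rw [sq]
      exact mul_le_mul_of_nonneg_left e1 (Nat.cast_nonneg _)
    exact le_of_sq_le_sq e3 hb
  rw [← Finset.mul_sum, Finset.sum_add_distrib, Finset.sum_const, nsmul_eq_mul, ← Finset.mul_sum]
  have h10 : (Ex.card : ℝ) * (2 * ((QQ R).card : ℝ)) ≤ b * (2 * ((QQ R).card : ℝ)) :=
    mul_le_mul_of_nonneg_right h9 (by positivity)
  have h11 : (Ex.card : ℝ) * (2 * ((QQ R).card : ℝ)) + 2 * ∑ i ∈ Ex, G (QQ R) H i ^ 2 ≤ 86 * ((QQ R).card : ℝ) * b := by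
    linarith
  have h12 := mul_le_mul_of_nonneg_left h11 hD
  linarith

private lemma fin_et (X n H : ℕ) (hn : n ∈ Ioc X (2 * X)) (hH : H ≤ X) : |ET n H| ≤ 2 * H * Real.log (3 * X) := by
  rw [mem_Ioc] at hn
  have hX1 : 1 ≤ X := by omega
  have hl := fin_log X hX1
  have h1 : ∀ m ∈ Ioc n (n + H), pl m ≤ Real.log (3 * X) := by
    intro m hm
    rw [mem_Ioc] at hm
    unfold pl
    split_ifs with h
    · refine Real.log_le_log ?_ ?_
      · exact_mod_cast h.pos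
      · have : m ≤ 3 * X := by omega
        exact_mod_cast this
    · linarith
  have h2 : ∀ m, 0 ≤ pl m := by
    intro m
    unfold pl
    split_ifs
    · exact Real.log_natCast_nonneg m
    · exact le_rfl
  have h3 : ∑ m ∈ Ioc n (n + H), pl m ≤ H * Real.log (3 * X) := by
    have := Finset.sum_le_card_nsmul _ _ _ h1
    rwa [Nat.card_Ioc, show n + H - n = H by omega, nsmul_eq_mul] at this
  have h4 : 0 ≤ ∑ m ∈ Ioc n (n + H), pl m := Finset.sum_nonneg fun m _ => h2 m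
  have h5 : (H : ℝ) * 1 ≤ H * Real.log (3 * X) := mul_le_mul_of_nonneg_left hl (Nat.cast_nonneg _)
  unfold ET
  rw [abs_le]
  constructor <;> linarith [(Nat.cast_nonneg H : (0 : ℝ) ≤ H)]

private lemma fin_f2 (x y w K N T κ κ' L S2 SE E P W : ℝ) (hx0 : 0 < x) (hw0 : 0 < w)
    (hwy : w ^ 2 = y) (hy0 : 0 < y) (hK6 : (10 : ℝ) ^ 6 ≤ K) (hQ : y / (4 * K) ≤ N) (hT : N * x / (10 * K ^ 2) ≤ -T)
    (hκ0 : 0 ≤ κ) (hκ' : κ' = κ * L + 2) (hL : L ≤ K) (hL0 : 0 ≤ L) (hS2 : S2 ≤ 42 * x * N)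
    (hSE : SE ≤ K * E + 2 * x) (hE0 : 0 ≤ E) (hP : P * K ^ 6 ≤ x * (y * w)) (hwK : K ^ 5 ≤ w)
    (hW : W * K ^ 5 ≤ N * (x * w))
    (h : 2 * Real.sqrt N * (-T) ≤ κ' * (2 * N * x + 2 * S2) + W + 2 * N * SE + 2 * P) :
    w * x / K ^ 5 ≤ κ * x + E := by
  have hK0 : (0 : ℝ) < K := by linarith
  have hN0 : 0 < N := lt_of_lt_of_le (by positivity) hQ
  have hQ2 : y ≤ N * (4 * K) := by rwa [div_le_iff₀ (by positivity)] at hQ
  -- lower bound of the left side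
  have hsq : w / K ≤ Real.sqrt N := by
    apply Real.le_sqrt_of_sq_le
    rw [div_pow, hwy, div_le_iff₀ (by positivity)]
    have h1 : N * (4 * K) ≤ N * (K * K) :=
      mul_le_mul_of_nonneg_left (mul_le_mul_of_nonneg_right (by linarith) hK0.le) hN0.le
    have h2 : N * (K * K) = N * K ^ 2 := by ring
    linarith
  have hleft : 2 * (w / K) * (N * x / (10 * K ^ 2)) ≤ 2 * Real.sqrt N * (-T) := by
    refine mul_le_mul ?_ hT (by positivity) (by positivity)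
    linarith
  -- upper bound of the right side
  have hκK : κ' ≤ κ * K + 2 := by
    rw [hκ']
    have := mul_le_mul_of_nonneg_left hL hκ0
    linarith
  have hκ'0 : 0 ≤ κ' := by rw [hκ']; positivity
  have h1 : κ' * (2 * N * x + 2 * S2) ≤ (κ * K + 2) * (86 * (N * x)) := by
    have h2 : 2 * N * x + 2 * S2 ≤ 86 * (N * x) := by linarith
    have h3 : κ' * (2 * N * x + 2 * S2) ≤ κ' * (86 * (N * x)) := mul_le_mul_of_nonneg_left h2 hκ'0
    have h4 : κ' * (86 * (N * x)) ≤ (κ * K + 2) * (86 * (N * x)) :=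
      mul_le_mul_of_nonneg_right hκK (by positivity)
    linarith
  have h2 : 2 * N * SE ≤ 2 * N * (K * E + 2 * x) := mul_le_mul_of_nonneg_left hSE (by positivity)
  obtain ⟨a, ha⟩ : ∃ a : ℝ, a = w * x / K ^ 3 := ⟨_, rfl⟩
  have ha0 : 0 < a := by rw [ha]; positivity
  have e4 : a / K ≤ a / 10 ^ 6 := div_le_div_of_nonneg_left ha0.le (by norm_num) hK6
  have hP2 : 2 * P ≤ N * (8 * (a / K ^ 2)) := by
    have h3 : P ≤ x * (y * w) / K ^ 6 := by
      rw [le_div_iff₀ (by positivity)]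
      exact hP
    have h4 : x * (y * w) / K ^ 6 ≤ x * (N * (4 * K) * w) / K ^ 6 := by
      refine div_le_div_of_nonneg_right ?_ (by positivity)
      exact mul_le_mul_of_nonneg_left (mul_le_mul_of_nonneg_right hQ2 hw0.le) hx0.le
    have h5 : x * (N * (4 * K) * w) / K ^ 6 = N * (4 * (a / K ^ 2)) := by
      rw [ha]
      field_simp
    linarith
  have hW2 : W ≤ N * (a / K ^ 2) := by
    have h3 : W ≤ N * (x * w) / K ^ 5 := by
      rw [le_div_iff₀ (by positivity)]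
      exact hW
    have h4 : N * (x * w) / K ^ 5 = N * (a / K ^ 2) := by
      rw [ha]
      field_simp
    linarith
  have h3 : N * (a / 5) ≤ N * ((κ * K + 2) * (86 * x) + 2 * (K * E + 2 * x) + 9 * (a / K ^ 2)) := by
    have e1 : N * (a / 5) = 2 * (w / K) * (N * x / (10 * K ^ 2)) := by
      rw [ha]
      field_simp
      norm_num
    have e2 : N * ((κ * K + 2) * (86 * x) + 2 * (K * E + 2 * x) + 9 * (a / K ^ 2)) =
        (κ * K + 2) * (86 * (N * x)) + 2 * N * (K * E + 2 * x) + N * (9 * (a / K ^ 2)) := by ring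
    rw [e1, e2]
    linarith
  have h4 := le_of_mul_le_mul_left h3 hN0
  have e3 : x ≤ a / K := by
    rw [ha, div_div, le_div_iff₀ (by positivity)]
    have h5 : x * K ^ 5 ≤ x * w := mul_le_mul_of_nonneg_left hwK hx0.le
    have h6 : x * (K ^ 3 * K) * 1 ≤ x * (K ^ 3 * K) * K := mul_le_mul_of_nonneg_left (by linarith) (by positivity)
    have h7 : x * (K ^ 3 * K) * K = x * K ^ 5 := by ring
    linarith
  have e5 : a / K ^ 2 ≤ a / K := by
    refine div_le_div_of_nonneg_left ha0.le hK0 ?_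
    nlinarith
  obtain ⟨V, hV⟩ : ∃ V : ℝ, V = κ * x + E := ⟨_, rfl⟩
  have hV0 : 0 ≤ V := by rw [hV]; positivity
  have h5 : a / 6 ≤ 86 * (K * V) := by
    have h6 : (κ * K + 2) * (86 * x) + 2 * (K * E + 2 * x) = 86 * (K * V) - 84 * (K * E) + 176 * x := by
      rw [hV]
      ring
    have h7 : 0 ≤ K * E := by positivity
    rw [h6] at h4
    linarith
  rw [← hV]
  have e6 : w * x / K ^ 5 = a / K ^ 2 := by rw [ha]; field_simp
  rw [e6, div_le_iff₀ (by positivity)]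
  have h6 : 516 * (K * V) ≤ K * (K * V) := mul_le_mul_of_nonneg_right (by linarith) (by positivity)
  have h7 : V * K ^ 2 = K * (K * V) := by ring
  linarith

/-- theorem GC for every length, with exceptions -/
theorem gev (θ ρ ε : ℝ) (hρp : 0 < ρ) (hρθ' : ρ < θ) (hρ1 : θ < 3 * ρ / 2) (hρ2 : θ + 3 * ρ / 2 < 1 / 2) (hε : 0 < ε) :
    ∃ (δ : ℝ) (X0 : ℕ), 0 < δ ∧ ∀ X : ℕ, X0 ≤ X → ∀ H : ℕ, (X : ℝ) ^ (θ - δ) ≤ H → (H : ℝ) ≤ (X : ℝ) ^ (θ + δ) →
      ∀ s κ : ℝ, s = 1 ∨ s = -1 → 0 ≤ κ →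
        ((((Ioc X (2 * X)).filter fun n => s * EI n H < -κ).card : ℕ) : ℝ) ≤ (X : ℝ) ^ (1 + ρ - 2 * θ - 4 * ε) →
        (X : ℝ) ^ (1 + ρ / 2 - ε) ≤ κ * X + ∑ n ∈ Ioc X (2 * X), |EI n H| := by
  obtain ⟨g, hg⟩ : ∃ g : ℝ, g = min (θ - ρ) (min (3 * ρ / 2 - θ) (1 / 2 - θ - 3 * ρ / 2)) := ⟨_, rfl⟩
  have hg0 : 0 < g := by
    rw [hg]
    exact lt_min (by linarith) (lt_min (by linarith) (by linarith))
  have hg1 : g ≤ θ - ρ := by rw [hg]; exact min_le_left _ _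
  have hg2 : g ≤ 3 * ρ / 2 - θ := by rw [hg]; exact (min_le_right _ _).trans (min_le_left _ _)
  have hg3 : g ≤ 1 / 2 - θ - 3 * ρ / 2 := by rw [hg]; exact (min_le_right _ _).trans (min_le_right _ _)
  have hρ4 : ρ < 1 / 4 := by linarith
  obtain ⟨η, hη, X1, hmv⟩ := mv ρ hρp hρ4
  obtain ⟨η2, hη2, X2, hptw⟩ := ptw (θ + g / 2) ρ 1 hρp (by linarith) (by linarith) (by linarith) (by norm_num)
  obtain ⟨d, hd⟩ : ∃ d : ℝ, d = min (min (g / 4) (min (η / 4) (1 / 32))) (min (η2 / 6) (min (ρ / 10) (ε / 5))) :=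
    ⟨_, rfl⟩
  have hd0 : 0 < d := by
    rw [hd]
    exact lt_min (lt_min (by linarith) (lt_min (by linarith) (by norm_num)))
      (lt_min (by linarith) (lt_min (by linarith) (by linarith)))
  have hd1 : d ≤ g / 4 := by rw [hd]; exact (min_le_left _ _).trans (min_le_left _ _)
  have hd2 : d ≤ η / 4 := by
    rw [hd]; exact (min_le_left _ _).trans ((min_le_right _ _).trans (min_le_left _ _))
  have hd3 : d ≤ 1 / 32 := by
    rw [hd]; exact (min_le_left _ _).trans ((min_le_right _ _).trans (min_le_right _ _))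
  have hd4 : d ≤ η2 / 6 := by rw [hd]; exact (min_le_right _ _).trans (min_le_left _ _)
  have hd5 : d ≤ ρ / 10 := by
    rw [hd]; exact (min_le_right _ _).trans ((min_le_right _ _).trans (min_le_left _ _))
  have hd6 : d ≤ ε / 5 := by
    rw [hd]; exact (min_le_right _ _).trans ((min_le_right _ _).trans (min_le_right _ _))
  clear hd hg
  obtain ⟨X0, hX0⟩ := (fin_ev ρ d (10 ^ 6) hρp hd0 (by linarith) (max X1 X2)).exists_forall_of_atTop
  refine ⟨d, X0, hd0, fun X hX H hHl hHu s κ hs hκ0 hκ => ?_⟩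
  obtain ⟨hXX, hX3, hTh, hThR, hlog, hK6⟩ := hX0 X hX
  have hXX1 : X1 ≤ X := (le_max_left _ _).trans hXX
  have hXX2 : X2 ≤ X := (le_max_right _ _).trans hXX
  clear hX0
  obtain ⟨x, hx⟩ : ∃ x : ℝ, x = (X : ℝ) := ⟨_, rfl⟩
  obtain ⟨K, hK⟩ : ∃ K : ℝ, K = (X : ℝ) ^ d := ⟨_, rfl⟩
  obtain ⟨R, hR⟩ : ∃ R : ℕ, R = ⌊(X : ℝ) ^ ρ⌋₊ := ⟨_, rfl⟩
  obtain ⟨y, hy⟩ : ∃ y : ℝ, y = (X : ℝ) ^ ρ := ⟨_, rfl⟩
  obtain ⟨w, hw⟩ : ∃ w : ℝ, w = (X : ℝ) ^ (ρ / 2) := ⟨_, rfl⟩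
  obtain ⟨z, hz⟩ : ∃ z : ℝ, z = (X : ℝ) ^ θ := ⟨_, rfl⟩
  rw [← hK] at hlog hK6
  rw [← hR] at hThR
  have hX1 : 1 ≤ X := by omega
  have hx3 : (3 : ℝ) ≤ x := by rw [hx]; exact_mod_cast hX3
  have hx1 : (1 : ℝ) ≤ x := by linarith
  have hx0 : (0 : ℝ) < x := by linarith
  have hK1 : (1 : ℝ) ≤ K := by linarith
  have hK0 : (0 : ℝ) < K := by linarith
  -- powers
  have hKd : ∀ n : ℕ, K ^ n = x ^ (n * d) := by
    intro n
    rw [hK, ← Real.rpow_natCast, ← Real.rpow_mul (by rw [← hx]; exact hx0.le), ← hx, mul_comm]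
  have hy0 : 0 < y := by rw [hy, ← hx]; positivity
  have hz0 : 0 < z := by rw [hz, ← hx]; positivity
  have hw0 : 0 < w := by rw [hw, ← hx]; positivity
  have hwy : w ^ 2 = y := by
    rw [hw, hy, ← hx, ← Real.rpow_natCast, ← Real.rpow_mul hx0.le]
    congr 1
    push_cast
    ring
  have hwK : K ^ 5 ≤ w := by
    rw [hKd, hw, ← hx]
    refine Real.rpow_le_rpow_of_exponent_le hx1 ?_
    push_cast
    linarith
  have hyK : K ≤ y := by
    rw [hK, hy, ← hx]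
    exact Real.rpow_le_rpow_of_exponent_le hx1 (by linarith)
  have hyz : y * K ≤ z := by
    rw [hK, hy, hz, ← hx, ← Real.rpow_add hx0]
    exact Real.rpow_le_rpow_of_exponent_le hx1 (by linarith)
  have hzx : z * K ≤ x := by
    rw [hK, hz, ← hx, ← Real.rpow_add hx0]
    refine (Real.rpow_le_rpow_of_exponent_le hx1 (by linarith : θ + d ≤ 1)).trans ?_
    rw [Real.rpow_one]
  have hzx2 : (z * K) ^ 2 ≤ x := by
    rw [hK, hz, ← hx, ← Real.rpow_add hx0, ← Real.rpow_natCast, ← Real.rpow_mul hx0.le]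
    refine (Real.rpow_le_rpow_of_exponent_le hx1
      (by push_cast; linarith : (θ + d) * ((2 : ℕ) : ℝ) ≤ 1)).trans ?_
    rw [Real.rpow_one]
  have hy4 : y ^ 4 ≤ x := by
    rw [hy, ← hx, ← Real.rpow_natCast, ← Real.rpow_mul hx0.le]
    refine (Real.rpow_le_rpow_of_exponent_le hx1
      (by push_cast; linarith : ρ * ((4 : ℕ) : ℝ) ≤ 1)).trans ?_
    rw [Real.rpow_one]
  have hzK : z ≤ z * K := le_mul_of_one_le_right hz0.le hK1
  have hyx : y * K ≤ x := hyz.trans (hzK.trans hzx)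
  -- the length R
  have hRy : (R : ℝ) ≤ y := by
    rw [hR, hy]
    exact Nat.floor_le (by rw [← hx]; positivity)
  have hRy2 : y / 2 ≤ R := by
    have h1 : y < R + 1 := by
      rw [hR, hy]
      exact Nat.lt_floor_add_one _
    linarith
  have hR1 : 1 ≤ R := by
    have h1 : (1 : ℝ) ≤ R := by linarith
    exact_mod_cast h1
  have h2y : y * 2 ≤ y * K := mul_le_mul_of_nonneg_left (by linarith) hy0.le
  have h2R : 2 * R ≤ X := by
    have h1 : 2 * (R : ℝ) ≤ X := by rw [← hx]; linarith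
    exact_mod_cast h1
  have hQl := fin_Q X R y K hR1 h2R hRy2 hK1 hlog hThR
  -- the length
  have hHzK : (H : ℝ) ≤ z * K := by
    refine hHu.trans (le_of_eq ?_)
    rw [hz, hK, ← hx, ← Real.rpow_add hx0]
  have hyKH : y * K ≤ H := by
    refine le_trans ?_ hHl
    rw [hy, hK, ← hx, ← Real.rpow_add hx0]
    exact Real.rpow_le_rpow_of_exponent_le hx1 (by linarith)
  have h4RH : 4 * R ≤ H := by
    have h1 : 4 * (R : ℝ) ≤ H := by
      have h2 : y * 4 ≤ y * K := mul_le_mul_of_nonneg_left (by linarith) hy0.le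
      linarith
    exact_mod_cast h1
  have hHq : 1 / K ^ 2 / 4 * ((QQ R).card : ℝ) ≤ ∑ q ∈ QQ R, cq H q / ((q : ℝ) - 1) := by
    have hK2 : K * K = K ^ 2 := by ring
    have hK1000 : 1000 * K ≤ K ^ 2 := by
      rw [← hK2]
      exact mul_le_mul_of_nonneg_right (by linarith) hK0.le
    refine hev_aux R H (1 / K ^ 2) hR1 h4RH (by positivity) ?_ ?_
    · rw [div_le_div_iff₀ (by positivity) (by norm_num)]
      linarith
    · have e1 : 32 * (1 / K ^ 2) * R ≤ y / (16 * K) := by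
        have e2 : 32 * (1 / K ^ 2) * R = 32 * R / K ^ 2 := by ring
        rw [e2, div_le_div_iff₀ (by positivity) (by positivity)]
        have e3 : 32 * (R : ℝ) * (16 * K) ≤ 32 * y * (16 * K) := by gcongr
        have e4 : 32 * y * (16 * K) ≤ y * (1000 * K) := by
          have : 0 ≤ y * K := by positivity
          linarith
        have e5 : y * (1000 * K) ≤ y * K ^ 2 := mul_le_mul_of_nonneg_left hK1000 hy0.le
        linarith
      have e2 : 2 * (H : ℝ) / R ≤ y / (16 * K) := by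
        rw [div_le_div_iff₀ (by linarith) (by positivity)]
        have e3 : z * K ^ 3 ≤ y ^ 2 := by
          rw [hKd, hz, hy, ← hx, ← Real.rpow_add hx0, ← Real.rpow_natCast, ← Real.rpow_mul hx0.le]
          refine Real.rpow_le_rpow_of_exponent_le hx1 ?_
          push_cast
          linarith
        have e4 : 2 * (H : ℝ) * (16 * K) ≤ 32 * (z * K) * K := by
          have := mul_le_mul_of_nonneg_right hHzK hK0.le
          linarith
        have e5 : 32 * (z * K) * K ≤ z * K ^ 3 / 2 := by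
          have e6 : 0 ≤ z * K ^ 2 := by positivity
          have e7 : z * K ^ 2 * 64 ≤ z * K ^ 2 * K := mul_le_mul_of_nonneg_left (by linarith) e6
          have e8 : z * K ^ 2 * K = z * K ^ 3 := by ring
          have e9 : 32 * (z * K) * K = z * K ^ 2 * 32 := by ring
          linarith
        have e6 : y ^ 2 / 2 ≤ y * R := by
          have := mul_le_mul_of_nonneg_left hRy2 hy0.le
          have e7 : y * (y / 2) = y ^ 2 / 2 := by ring
          linarith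
        linarith
      have e3 : y / (16 * K) + y / (16 * K) = y / (4 * K) / 2 := by
        field_simp
        norm_num
      linarith
  obtain ⟨Ex, hEx⟩ : ∃ Ex : Finset ℕ, Ex = (Ioc X (2 * X)).filter fun n => s * EI n H < -κ := ⟨_, rfl⟩
  rw [← hEx] at hκ
  have hExs : Ex ⊆ Ioc X (2 * X) := by rw [hEx]; exact Finset.filter_subset _ _
  have hy1 : 1 ≤ y := by
    rw [hy, ← hx]
    exact Real.one_le_rpow hx1 hρp.le
  have hH1r : (1 : ℝ) ≤ H := by
    have h1 : y * 1 ≤ y * K := mul_le_mul_of_nonneg_left hK1 hy0.le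
    linarith
  have hH1 : 1 ≤ H := by exact_mod_cast hH1r
  have hHX : H ≤ X := by
    have h1 : (H : ℝ) ≤ X := by rw [← hx]; linarith
    exact_mod_cast h1
  have hH2 : H ^ 2 ≤ X := by
    have h1 : (H : ℝ) ^ 2 ≤ X := by
      rw [← hx]
      exact (pow_le_pow_left₀ (by linarith) hHzK 2).trans hzx2
    exact_mod_cast h1
  -- the covariance
  obtain ⟨Θ, hΘ⟩ : ∃ Θ : ℝ, Θ = ∑ m ∈ Ioc X (2 * X), pl m := ⟨_, rfl⟩
  obtain ⟨M, hM⟩ : ∃ M : ℝ, M = ∑ q ∈ QQ R, cq H q / ((q : ℝ) - 1) := ⟨_, rfl⟩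
  obtain ⟨T, hT⟩ : ∃ T : ℝ, T = ∑ i ∈ Ioc X (2 * X), G (QQ R) H i * ET i H := ⟨_, rfl⟩
  rw [← hΘ, ← hx] at hTh
  rw [← hM] at hHq
  have hmvX := hmv X hXX1
  rw [← hR] at hmvX
  have hT1 := fin_T X H R y K Θ M T _ hH1 hHX hRy h2R hy0 hK1 hlog hΘ hM hT hmvX
  have h4 : Real.sqrt (2 * y) ≤ 2 * Real.sqrt y := by
    rw [Real.sqrt_mul (by norm_num)]
    have h5 : Real.sqrt 2 ≤ 2 := by
      rw [Real.sqrt_le_left (by norm_num)]
      norm_num
    exact mul_le_mul_of_nonneg_right h5 (Real.sqrt_nonneg _)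
  have h5 : Real.sqrt y = x ^ (ρ / 2) := by
    rw [hy, ← hx, Real.sqrt_eq_rpow, ← Real.rpow_mul hx0.le]
    congr 1
    ring
  have h6 : Real.sqrt (2 * y) * (X : ℝ) ^ (1 + ρ / 2 - η) ≤ 2 * (y * x) / K ^ 4 := by
    have h7 : Real.sqrt (2 * y) * (X : ℝ) ^ (1 + ρ / 2 - η) ≤
        (2 * x ^ (ρ / 2)) * x ^ (1 + ρ / 2 - η) := by
      rw [← h5, ← hx]
      exact mul_le_mul_of_nonneg_right h4 (by positivity)
    refine h7.trans ?_
    have h8 : x ^ ρ * x = x ^ (ρ + 1) := by rw [Real.rpow_add hx0, Real.rpow_one]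
    rw [le_div_iff₀ (by positivity), hKd, hy, ← hx, mul_assoc, mul_assoc, ← Real.rpow_add hx0,
      ← Real.rpow_add hx0, h8]
    refine mul_le_mul_of_nonneg_left (Real.rpow_le_rpow_of_exponent_le hx1 ?_) (by norm_num)
    push_cast
    linarith
  have hTM : |T + M * Θ| ≤ 2 * (y * x) / K ^ 4 + 20 * H * y ^ 2 * K := by linarith
  have h8K : z * y * K ^ 8 ≤ x := by
    rw [hKd, hy, hz, ← hx, ← Real.rpow_add hx0, ← Real.rpow_add hx0]
    refine (Real.rpow_le_rpow_of_exponent_le hx1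
      (by push_cast; linarith : θ + ρ + ((8 : ℕ) : ℝ) * d ≤ 1)).trans ?_
    rw [Real.rpow_one]
  have hE2' := fin_a x y z K H hx0 hy0 hz0 hK6 hHzK h8K
  have hTl := fin_b2 x y K _ M Θ T _ hx0 hy0 hK6 hQl hHq hTh hTM hE2'
  -- second moment, second order term
  have hG2 := fin_g2 X H R x y hX1 hR1 hx hRy hy4 hx0
  have hP := hptw X hXX2 H hH1 (by
    rw [one_mul]
    refine hHu.trans ?_
    rw [← hx]
    exact Real.rpow_le_rpow_of_exponent_le hx1 (by linarith))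
  rw [← hR] at hP
  have hP3 : P2 X H R * K ^ 6 ≤ x * (y * w) := by
    have h1 : P2 X H R * K ^ 6 ≤ (X : ℝ) ^ (1 + 3 * ρ / 2 - η2) * K ^ 6 :=
      mul_le_mul_of_nonneg_right hP (by positivity)
    refine h1.trans ?_
    have h2 : x * (y * w) = x ^ (1 + (ρ + ρ / 2)) := by
      rw [hy, hw, ← hx, Real.rpow_add hx0, Real.rpow_add hx0, Real.rpow_one]
    rw [h2, hKd, ← hx, ← Real.rpow_add hx0]
    refine Real.rpow_le_rpow_of_exponent_le hx1 ?_
    push_cast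
    linarith
  -- logarithmic weights
  obtain ⟨S, hS⟩ : ∃ S : ℝ, S = ∑ i ∈ Ioc X (2 * X), |ET i H| := ⟨_, rfl⟩
  obtain ⟨E, hE⟩ : ∃ E : ℝ, E = ∑ n ∈ Ioc X (2 * X), |EI n H| := ⟨_, rfl⟩
  have hSE := fin_d X H K S E hX3 hH2 hlog hS hE
  have hE0 : 0 ≤ E := by rw [hE]; exact Finset.sum_nonneg fun _ _ => abs_nonneg _
  obtain ⟨L, hLL⟩ : ∃ L : ℝ, L = Real.log (3 * X) := ⟨_, rfl⟩
  have hL0 : 0 ≤ L := by
    rw [hLL]
    have := fin_log X hX1
    linarith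
  have hLK : L ≤ K := by rw [hLL]; exact hlog
  obtain ⟨D, hD⟩ : ∃ D : ℝ, D = 2 * H * L := ⟨_, rfl⟩
  have hD0 : 0 ≤ D := by rw [hD]; positivity
  obtain ⟨kf, hkf⟩ : ∃ kf : ℕ → ℝ, ∀ n, kf n = (κ * L + 2) + (if n ∈ Ex then D else 0) := ⟨_, fun n => rfl⟩
  have he : ∀ n ∈ Ioc X (2 * X), -(kf n) ≤ s * ET n H := by
    intro n hn
    rw [hkf]
    by_cases hnE : n ∈ Ex
    · rw [if_pos hnE]
      have h1 := fin_et X n H hn hHX
      rw [← hLL, ← hD] at h1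
      have h2 := abs_le.mp h1
      have h3 : -D ≤ s * ET n H := by
        rcases hs with h | h <;> rw [h] <;> linarith [h2.1, h2.2]
      have h4 : 0 ≤ κ * L + 2 := by positivity
      linarith
    rw [if_neg hnE, add_zero]
    have hn2 : -κ ≤ s * EI n H := by
      by_contra hcon
      apply hnE
      rw [hEx, mem_filter]
      exact ⟨hn, lt_of_not_ge hcon⟩
    rw [mem_Ioc] at hn
    have h2 := trf n H (by omega) (by omega)
    have h3 : Real.log n ≤ L := by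
      rw [hLL]
      refine Real.log_le_log ?_ ?_
      · have : 0 < n := by omega
        exact_mod_cast this
      · have : n ≤ 3 * X := by omega
        exact_mod_cast this
    have h4 : 0 ≤ Real.log n := Real.log_natCast_nonneg n
    have h5 : -(κ * L) ≤ Real.log n * (s * EI n H) := by
      have h6 : Real.log n * (-κ) ≤ Real.log n * (s * EI n H) := mul_le_mul_of_nonneg_left hn2 h4
      have h7 : κ * Real.log n ≤ κ * L := mul_le_mul_of_nonneg_left h3 hκ0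
      linarith
    have h6 : -2 ≤ s * (ET n H - Real.log n * EI n H) := by
      have h7 := abs_le.mp h2
      rcases hs with h | h <;> rw [h] <;> linarith [h7.1, h7.2]
    have h7 : s * ET n H = s * (ET n H - Real.log n * EI n H) + Real.log n * (s * EI n H) := by ring
    rw [h7]
    linarith
  have hkap := kape (Ioc X (2 * X)) (QQ R) (fun q i => ph H q i) (fun i => ET i H) kf s hs
    (fun n _ => by
      rw [hkf]
      have h1 : 0 ≤ κ * L + 2 := by positivity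
      split_ifs <;> linarith) (fun q hq i _ => by
      unfold QQ at hq
      rw [mem_filter] at hq
      exact fin_ph H q i hq.2.pos) he
  have h2X : 2 * X - X = X := by omega
  obtain ⟨W, hW⟩ : ∃ W : ℝ, W = ∑ i ∈ Ex, D * (2 * ((QQ R).card : ℝ) + 2 * G (QQ R) H i ^ 2) := ⟨_, rfl⟩
  have hsplit : ∑ i ∈ Ioc X (2 * X), kf i * (2 * ((QQ R).card : ℝ) + 2 * G (QQ R) H i ^ 2) =
      (κ * L + 2) * (2 * ((QQ R).card : ℝ) * x + 2 * ∑ i ∈ Ioc X (2 * X), G (QQ R) H i ^ 2) + W := by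
    have e1 : ∀ i, kf i * (2 * ((QQ R).card : ℝ) + 2 * G (QQ R) H i ^ 2) =
        (κ * L + 2) * (2 * ((QQ R).card : ℝ) + 2 * G (QQ R) H i ^ 2) +
          (if i ∈ Ex then D * (2 * ((QQ R).card : ℝ) + 2 * G (QQ R) H i ^ 2) else 0) := by
      intro i
      rw [hkf]
      split_ifs <;> ring
    rw [Finset.sum_congr rfl fun i _ => e1 i, Finset.sum_add_distrib, ← Finset.sum_filter,
      Finset.filter_mem_eq_inter, Finset.inter_eq_right.mpr hExs, ← hW, ← Finset.mul_sum, Finset.sum_add_distrib,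
      Finset.sum_const, Nat.card_Ioc, h2X, nsmul_eq_mul, ← Finset.mul_sum, ← hx]
    ring
  have hkap2 : 2 * Real.sqrt ((QQ R).card : ℝ) * (-T) ≤
      (κ * L + 2) * (2 * ((QQ R).card : ℝ) * x + 2 * ∑ i ∈ Ioc X (2 * X), G (QQ R) H i ^ 2) + W +
        2 * ((QQ R).card : ℝ) * S + 2 * P2 X H R := by
    rw [hT, hS, ← hsplit]
    exact hkap
  -- the exceptions
  obtain ⟨b, hb⟩ : ∃ b : ℝ, b = x ^ (1 + ρ / 2 - θ - 2 * ε) := ⟨_, rfl⟩
  have hb0 : 0 < b := by rw [hb]; positivity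
  have hcb : (Ex.card : ℝ) * x ≤ b ^ 2 := by
    rw [← hx] at hκ
    have e1 : (Ex.card : ℝ) * x ≤ x ^ (1 + ρ - 2 * θ - 4 * ε) * x := mul_le_mul_of_nonneg_right hκ hx0.le
    refine e1.trans (le_of_eq ?_)
    rw [hb, ← Real.rpow_natCast, ← Real.rpow_mul hx0.le, ← Real.rpow_add_one hx0.ne']
    congr 1
    push_cast
    ring
  have hWb : W * K ^ 5 ≤ ((QQ R).card : ℝ) * (x * w) := by
    have e1 := fin_ex X H R x y D b Ex hExs hX1 hR1 hx hRy hy4 hD0 hb0.le hcb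
    rw [← hW] at e1
    have e2 : D ≤ 2 * (z * K) * K := by
      rw [hD]
      exact mul_le_mul (mul_le_mul_of_nonneg_left hHzK (by norm_num)) hLK hL0 (by positivity)
    have e3 : 86 * D ≤ z * K ^ 3 := by
      have e4 : z * K ^ 2 * 172 ≤ z * K ^ 2 * K := mul_le_mul_of_nonneg_left (by linarith) (by positivity)
      have e5 : 86 * (2 * (z * K) * K) = z * K ^ 2 * 172 := by ring
      have e6 : z * K ^ 2 * K = z * K ^ 3 := by ring
      linarith
    have e4 : z * K ^ 3 * b * K ^ 5 ≤ x * w := by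
      have e5 : z * K ^ 3 * b * K ^ 5 = z * b * K ^ 8 := by ring
      have e6 : x * w = x ^ (1 + ρ / 2) := by rw [hw, ← hx, Real.rpow_add hx0, Real.rpow_one]
      rw [e5, e6, hKd, hz, hb, ← hx, ← Real.rpow_add hx0, ← Real.rpow_add hx0]
      refine Real.rpow_le_rpow_of_exponent_le hx1 ?_
      push_cast
      linarith
    have e5 : W * K ^ 5 ≤ (86 * D) * ((QQ R).card : ℝ) * b * K ^ 5 := by
      refine mul_le_mul_of_nonneg_right ?_ (by positivity)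
      linarith
    have e6 : (86 * D) * ((QQ R).card : ℝ) * b * K ^ 5 ≤ (z * K ^ 3) * ((QQ R).card : ℝ) * b * K ^ 5 := by
      gcongr
    have e7 : (z * K ^ 3) * ((QQ R).card : ℝ) * b * K ^ 5 = ((QQ R).card : ℝ) * (z * K ^ 3 * b * K ^ 5) := by ring
    have e8 := mul_le_mul_of_nonneg_left e4 (Nat.cast_nonneg (QQ R).card : (0 : ℝ) ≤ ((QQ R).card : ℝ))
    linarith
  rw [← hE]
  rw [← hx] at hSE ⊢
  refine le_trans ?_ (fin_f2 x y w K _ T κ (κ * L + 2) L _ S E _ W hx0 hw0 hwy hy0 hK6 hQl hTl hκ0 rfl hLK hL0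
    hG2 hSE hE0 hP3 hwK hWb hkap2)
  rw [le_div_iff₀ (by positivity), hKd, hw, ← hx, ← Real.rpow_add hx0]
  have h9 : x ^ (ρ / 2) * x = x ^ (ρ / 2 + 1) := by rw [Real.rpow_add hx0, Real.rpow_one]
  rw [h9]
  refine Real.rpow_le_rpow_of_exponent_le hx1 ?_
  push_cast
  linarith

end Pool.Agent.H24.TL
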