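import Pool.Agent.H24.TL.Gev
import Pool.Agent.H24.TL.Gcr

/-!
# [H24 TL CTE] the common form of `gev` and `gcr`
-/

set_option autoImplicit false

namespace Pool.Agent.H24.TL

open Finset Pool.Agent.H48.WN

/-- every length near `X^θ`: the mean of `|EI|` on `(X, 2X]` is `≥ X^(m-ε)`, unless `s EI < -κ` for many `n` or `κ` is large -/
def CtE (θ m μ : ℝ) : Prop := ∀ ε : ℝ, 0 < ε → ∃ (δ : ℝ) (X0 : ℕ), 0 < δ ∧ ∀ X : ℕ, X0 ≤ X → ∀ H : ℕ,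
  (X : ℝ) ^ (θ - δ) ≤ H → (H : ℝ) ≤ (X : ℝ) ^ (θ + δ) → ∀ s κ : ℝ, s = 1 ∨ s = -1 → 0 ≤ κ →
    ((((Ioc X (2 * X)).filter fun n => s * EI n H < -κ).card : ℕ) : ℝ) ≤ (X : ℝ) ^ (μ - 4 * ε) →
    (X : ℝ) ^ (1 + m - ε) ≤ κ * X + ∑ n ∈ Ioc X (2 * X), |EI n H|

theorem cte_gev (θ : ℝ) (h0 : 0 < θ) (h1 : θ < 1 / 4) :
    CtE θ (min (θ / 2) (1 / 6 - θ / 3)) (1 + 2 * min (θ / 2) (1 / 6 - θ / 3) - 2 * θ) := by
  intro ε hε
  obtain ⟨m, hm⟩ : ∃ m : ℝ, m = min (θ / 2) (1 / 6 - θ / 3) := ⟨_, rfl⟩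
  rw [← hm]
  have hm1 : m ≤ θ / 2 := by rw [hm]; exact min_le_left _ _
  have hm2 : m ≤ 1 / 6 - θ / 3 := by rw [hm]; exact min_le_right _ _
  have hm3 : θ / 3 < m := by
    rw [hm]
    exact lt_min (by linarith) (by linarith)
  obtain ⟨e, he0, he1, he2⟩ : ∃ e : ℝ, 0 < e ∧ e ≤ ε ∧ e ≤ m - θ / 3 :=
    ⟨min ε (m - θ / 3), lt_min hε (by linarith), min_le_left _ _, min_le_right _ _⟩
  obtain ⟨δ, X0, hδ, h⟩ := gev θ (2 * m - e) (ε / 2) (by linarith) (by linarith) (by linarith) (by linarith) (by linarith)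
  refine ⟨δ, max X0 1, hδ, fun X hX H hH1 hH2 s κ hs hκ hc => ?_⟩
  have hX1 : (1 : ℝ) ≤ X := by exact_mod_cast (le_max_right X0 1).trans hX
  refine le_trans ?_ (h X ((le_max_left _ _).trans hX) H hH1 hH2 s κ hs hκ (hc.trans ?_))
  · exact Real.rpow_le_rpow_of_exponent_le hX1 (by linarith)
  · exact Real.rpow_le_rpow_of_exponent_le hX1 (by linarith)

theorem cte_gcr (r θ μ : ℝ) (hr : 1 / 4 ≤ r) (hr3 : r ≤ 1 / 3) (hF : ∀ ρ, 0 < ρ → ρ < r → Fm ρ) (h0 : 0 < θ)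
    (h1 : θ < 1 / 2) : CtE θ ((2 * min θ r - θ) / 3) μ := by
  intro ε hε
  obtain ⟨m, hm⟩ : ∃ m : ℝ, m = min θ r := ⟨_, rfl⟩
  rw [← hm]
  have hm1 : m ≤ θ := by rw [hm]; exact min_le_left _ _
  have hm2 : m ≤ r := by rw [hm]; exact min_le_right _ _
  have hm3 : θ / 2 < m := by
    rw [hm]
    exact lt_min (by linarith) (by linarith)
  obtain ⟨e, he0, he1, he2⟩ : ∃ e : ℝ, 0 < e ∧ e ≤ ε / 2 ∧ e ≤ (m - θ / 2) / 2 :=
    ⟨min (ε / 2) ((m - θ / 2) / 2), lt_min (by linarith) (by linarith), min_le_left _ _, min_le_right _ _⟩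
  obtain ⟨δ, X0, hδ, h⟩ := gcr θ (m - e) (ε / 2) (hF _ (by linarith) (by linarith)) (by linarith) (by linarith)
    (by linarith) (by linarith) h1 (by linarith)
  refine ⟨δ, max X0 1, hδ, fun X hX H hH1 hH2 s κ hs hκ hc => ?_⟩
  have hX1 : (1 : ℝ) ≤ X := by exact_mod_cast (le_max_right X0 1).trans hX
  have h2 := h X ((le_max_left _ _).trans hX) H hH1 hH2
  have h3 : (X : ℝ) ^ (1 + (2 * m - θ) / 3 - ε) ≤ (X : ℝ) ^ (1 + (2 * (m - e) - θ) / 3 - ε / 2) :=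
    Real.rpow_le_rpow_of_exponent_le hX1 (by linarith)
  have h4 : 0 ≤ κ * (X : ℝ) := by positivity
  linarith

end Pool.Agent.H24.TL
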