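import Pool.Agent.H99.GB.Defs

/-!
# [H24 TL] MP_31d0eb_nt: errors of both signs in every interval `[Y, Y log Y]` (the theta kernel): definitions

`gk t = e^(-π t²/2) - (1+√2) e^(-π t²) + √2 e^(-2π t²)`, `Gk t = ∑_{m ≥ 1} gk (m t)`. `gk 0 = 0`, `∫ gk = 0`, and by
the functional equation of the theta function `Gk t = Gk (1/t) / t`; every term is positive for `t ≥ 1`, so `Gk > 0`.
`Gk` decays like `e^(-π t²/2)` for `t → ∞` and like `e^(-π/(2t²))` for `t → 0`, and (`Λ * 1 = log`, `1 * 1 = d`)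
`∑_n (Λ(n) - 1) Gk (n/X) = ∑_k (log k - d(k)) gk (k/X) = O(√X)`.
So a one sided bound for the error of primes in short intervals in the window `[X/L, L X]`, `L² = (1/3) log X`, bounds
the mean of its absolute value on `(X, 2X]`.
-/

set_option autoImplicit false

namespace Pool.Agent.H24.TL

open Finset Pool.Agent.H48.WN

/-- the function whose dilates make up the kernel -/
noncomputable def gk (t : ℝ) : ℝ :=
  Real.exp (-(Real.pi * t ^ 2 / 2)) - (1 + √2) * Real.exp (-(Real.pi * t ^ 2)) +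
    √2 * Real.exp (-(2 * Real.pi * t ^ 2))

/-- the theta kernel -/
noncomputable def Gk (t : ℝ) : ℝ := ∑' m : ℕ, gk (((m : ℝ) + 1) * t)

/-- the one sided hypothesis for start points in `[A, B]` -/
def OneW (s θ δ A B : ℝ) : Prop := ∀ n H : ℕ, A ≤ n → (n : ℝ) ≤ B → (n : ℝ) ^ θ ≤ H →
  (H : ℝ) ≤ 2 * (n : ℝ) ^ θ → -((n : ℝ) ^ δ) ≤ s * EI n H

/-- half of the window -/
noncomputable def Lw (X : ℝ) : ℝ := √(Real.log X / 3)

/-- weight of a prime minus one -/
noncomputable def bb (n : ℕ) : ℝ := Pool.Agent.H67.VS.pl n - 1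

end Pool.Agent.H24.TL
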