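import Pool.Agent.H24.TL.Cnt

/-!
# [H24 TL EVH] both signs for every length `X^ε ≤ H ≤ X^(1/2-ε)`, many `n`, near every `X`

PROOF. `loc`: `cnt` with `cte_gev` or `cte_gcr`, near one exponent. `uni`: compactness. The exponent `mm r t`, `H = X^t`, has Lipschitz constant `1`.
-/

set_option autoImplicit false

namespace Pool.Agent.H24.TL

open Finset Pool.Agent.H48.WN Filter Topology

/-- the exponent of the size, `H = X^t` -/
noncomputable def mm (r t : ℝ) : ℝ := max (min (t / 2) (1 / 6 - t / 3)) ((2 * min t r - t) / 3)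

theorem mm_lip (r t u : ℝ) : mm r t ≤ mm r u + |t - u| := by
  have h1 := le_abs_self (t - u)
  have h2 := neg_abs_le (t - u)
  have h3 : min t r ≤ min u r + |t - u| := by
    rcases le_total u r with h | h
    · rw [min_eq_left h]
      exact (min_le_left _ _).trans (by linarith)
    · rw [min_eq_right h]
      exact (min_le_right _ _).trans (by linarith [abs_nonneg (t - u)])
  have h4 : min (t / 2) (1 / 6 - t / 3) ≤ min (u / 2) (1 / 6 - u / 3) + |t - u| := by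
    rcases le_total (u / 2) (1 / 6 - u / 3) with h | h
    · rw [min_eq_left h]
      exact (min_le_left _ _).trans (by linarith [abs_nonneg (t - u)])
    · rw [min_eq_right h]
      exact (min_le_right _ _).trans (by linarith [abs_nonneg (t - u)])
  unfold mm
  refine max_le ?_ ?_
  · exact h4.trans (by linarith [le_max_left (min (u / 2) (1 / 6 - u / 3)) ((2 * min u r - u) / 3)])
  · have h5 := le_max_right (min (u / 2) (1 / 6 - u / 3)) ((2 * min u r - u) / 3)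
    linarith

/-- near one exponent -/
theorem loc (r θ ε : ℝ) (hr : 1 / 4 ≤ r) (hr3 : r ≤ 1 / 3) (hF : ∀ ρ, 0 < ρ → ρ < r → Fm ρ) (h0 : 0 < θ)
    (h1 : θ < 1 / 2) (hε : 0 < ε) : ∃ (δ : ℝ) (X0 : ℕ), 0 < δ ∧ ∀ X : ℕ, X0 ≤ X → ∀ H : ℕ,
      (X : ℝ) ^ (θ - δ) ≤ H → (H : ℝ) ≤ (X : ℝ) ^ (θ + δ) → ∀ s : ℝ, s = 1 ∨ s = -1 →
        (X : ℝ) ^ (1 + 2 * mm r θ - 2 * θ - ε) ≤ ((((Ioc ⌊X / Lw X⌋₊ ⌈Lw X * X⌉₊).filter fun n =>
          (X : ℝ) ^ (mm r θ - ε) ≤ s * EI n H).card : ℕ) : ℝ) := by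
  rcases lt_or_ge θ (1 / 4) with h4 | h4
  · rcases le_total ((2 * min θ r - θ) / 3) (min (θ / 2) (1 / 6 - θ / 3)) with h | h
    · have e : mm r θ = min (θ / 2) (1 / 6 - θ / 3) := by
        unfold mm
        exact max_eq_left h
      rw [e]
      have e1 : min (θ / 2) (1 / 6 - θ / 3) ≤ θ / 2 := min_le_left _ _
      exact cnt θ _ _ (cte_gev θ h0 h4) h0 h1 (lt_min (by linarith) (by linarith)) (by linarith) ε hε
    · have e : mm r θ = (2 * min θ r - θ) / 3 := by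
        unfold mm
        exact max_eq_right h
      rw [e]
      have e1 : min θ r ≤ θ := min_le_left _ _
      have e2 : θ / 2 < min θ r := lt_min (by linarith) (by linarith)
      exact cnt θ _ _ (cte_gcr r θ _ hr hr3 hF h0 h1) h0 h1 (by linarith) (by linarith) ε hε
  · have e0 : 1 / 4 ≤ min θ r := le_min h4 hr
    have e : mm r θ = (2 * min θ r - θ) / 3 := by
      unfold mm
      refine max_eq_right ((min_le_right _ _).trans ?_)
      linarith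
    rw [e]
    have e1 : min θ r ≤ θ := min_le_left _ _
    have e2 : θ / 2 < min θ r := lt_min (by linarith) (by linarith)
    exact cnt θ _ _ (cte_gcr r θ _ hr hr3 hF h0 h1) h0 h1 (by linarith) (by linarith) ε hε

/-- all exponents -/
theorem uni (r ε a b : ℝ) (hr : 1 / 4 ≤ r) (hr3 : r ≤ 1 / 3) (hF : ∀ ρ, 0 < ρ → ρ < r → Fm ρ) (ha : 0 < a)
    (hb : b < 1 / 2) (hε : 0 < ε) : ∃ X0 : ℕ, ∀ X : ℕ, X0 ≤ X → ∀ H : ℕ, ∀ s : ℝ, s = 1 ∨ s = -1 →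
      ∀ t ∈ Set.Icc a b, (H : ℝ) = (X : ℝ) ^ t →
        (X : ℝ) ^ (1 + 2 * mm r t - 2 * t - ε) ≤ ((((Ioc ⌊X / Lw X⌋₊ ⌈Lw X * X⌉₊).filter fun n =>
          (X : ℝ) ^ (mm r t - ε) ≤ s * EI n H).card : ℕ) : ℝ) := by
  refine IsCompact.induction_on (p := fun S : Set ℝ => ∃ X0 : ℕ, ∀ X : ℕ, X0 ≤ X → ∀ H : ℕ, ∀ s : ℝ, s = 1 ∨ s = -1 →
      ∀ t ∈ S, (H : ℝ) = (X : ℝ) ^ t →
        (X : ℝ) ^ (1 + 2 * mm r t - 2 * t - ε) ≤ ((((Ioc ⌊X / Lw X⌋₊ ⌈Lw X * X⌉₊).filter fun n =>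
          (X : ℝ) ^ (mm r t - ε) ≤ s * EI n H).card : ℕ) : ℝ)) isCompact_Icc ?_ ?_ ?_ ?_
  · exact ⟨0, fun X _ H s _ t ht => absurd ht (Set.notMem_empty t)⟩
  · rintro S T hST ⟨X0, h⟩
    exact ⟨X0, fun X hX H s hs t ht => h X hX H s hs t (hST ht)⟩
  · rintro S T ⟨X0, h⟩ ⟨X1, h'⟩
    refine ⟨max X0 X1, fun X hX H s hs t ht => ?_⟩
    rcases ht with ht | ht
    · exact h X ((le_max_left _ _).trans hX) H s hs t ht
    · exact h' X ((le_max_right _ _).trans hX) H s hs t ht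
  · intro θ hθ
    obtain ⟨δ, X0, hδ, h⟩ := loc r θ (ε / 2) hr hr3 hF (by linarith [hθ.1]) (by linarith [hθ.2]) (by linarith)
    obtain ⟨δ', hδ', d1, d2⟩ : ∃ δ' : ℝ, 0 < δ' ∧ δ' ≤ δ ∧ 8 * δ' ≤ ε := by
      refine ⟨min δ (ε / 8), lt_min hδ (by linarith), min_le_left _ _, ?_⟩
      have := min_le_right δ (ε / 8)
      linarith
    refine ⟨Set.Ioo (θ - δ') (θ + δ'), mem_nhdsWithin_of_mem_nhds (Ioo_mem_nhds (by linarith) (by linarith)),
      max X0 1, fun X hX H s hs t ht hHt => ?_⟩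
    have hX1 : (1 : ℝ) ≤ X := by exact_mod_cast (le_max_right X0 1).trans hX
    have hle : ∀ a b : ℝ, a ≤ b → (X : ℝ) ^ a ≤ (X : ℝ) ^ b := fun a b h => Real.rpow_le_rpow_of_exponent_le hX1 h
    have hab : |t - θ| ≤ δ' := abs_le.mpr ⟨by linarith [ht.1], by linarith [ht.2]⟩
    have hab2 := abs_le.mp hab
    have hl := mm_lip r t θ
    have h1 := h X ((le_max_left _ _).trans hX) H (by rw [hHt]; exact hle _ _ (by linarith [hab2.1]))
      (by rw [hHt]; exact hle _ _ (by linarith [hab2.2])) s hs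
    refine (hle _ _ ?_).trans (h1.trans ?_)
    · linarith [hab2.1, hab2.2]
    · have h2 : ((Ioc ⌊X / Lw X⌋₊ ⌈Lw X * X⌉₊).filter fun n => (X : ℝ) ^ (mm r θ - ε / 2) ≤ s * EI n H) ⊆
          ((Ioc ⌊X / Lw X⌋₊ ⌈Lw X * X⌉₊).filter fun n => (X : ℝ) ^ (mm r t - ε) ≤ s * EI n H) := by
        intro n hn
        rw [mem_filter] at hn ⊢
        exact ⟨hn.1, (hle (mm r t - ε) (mm r θ - ε / 2) (by linarith)).trans hn.2⟩
      exact_mod_cast card_le_card h2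

/-- the size -/
noncomputable def Ms (r X H : ℝ) : ℝ :=
  max (min (H ^ (1 / 2 : ℝ)) (X ^ (1 / 6 : ℝ) / H ^ (1 / 3 : ℝ))) ((min H (X ^ r)) ^ (2 / 3 : ℝ) / H ^ (1 / 3 : ℝ))

theorem ms_eq (r X t : ℝ) (hX : 1 ≤ X) : Ms r X (X ^ t) = X ^ mm r t := by
  have hX0 : 0 < X := by linarith
  have hmono := Real.monotone_rpow_of_base_ge_one hX
  have hp : ∀ a b : ℝ, (X ^ a) ^ b = X ^ (a * b) := fun a b => (Real.rpow_mul hX0.le a b).symm
  have hmin : ∀ a b : ℝ, min (X ^ a) (X ^ b) = X ^ min a b := fun a b => (hmono.map_min).symm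
  have hmax : ∀ a b : ℝ, max (X ^ a) (X ^ b) = X ^ max a b := fun a b => (hmono.map_max).symm
  unfold Ms mm
  rw [hmin t r, hp, hp, hp, ← Real.rpow_sub hX0, ← Real.rpow_sub hX0, hmin, hmax]
  congr 1
  rw [show t * (1 / 2) = t / 2 by ring, show 1 / 6 - t * (1 / 3) = 1 / 6 - t / 3 by ring,
    show min t r * (2 / 3) - t * (1 / 3) = (2 * min t r - t) / 3 by ring]

/-- **Every length.** -/
theorem evh (r ε : ℝ) (hr : 1 / 4 ≤ r) (hr3 : r ≤ 1 / 3) (hF : ∀ ρ, 0 < ρ → ρ < r → Fm ρ) (hε : 0 < ε) :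
    ∃ X0 : ℕ, ∀ X : ℕ, X0 ≤ X → ∀ H : ℕ, (X : ℝ) ^ ε ≤ H → (H : ℝ) ≤ (X : ℝ) ^ (1 / 2 - ε) → ∀ s : ℝ, s = 1 ∨ s = -1 →
      (X : ℝ) ^ (1 - ε) * (Ms r X H / H) ^ 2 ≤ ((((Ioc ⌊X / Lw X⌋₊ ⌈Lw X * X⌉₊).filter fun n =>
          Ms r X H * (X : ℝ) ^ (-ε) ≤ s * EI n H).card : ℕ) : ℝ) := by
  obtain ⟨X0, h⟩ := uni r ε ε (1 / 2 - ε) hr hr3 hF hε (by linarith) hε
  refine ⟨max X0 2, fun X hX H hHl hHu s hs => ?_⟩
  have hX2 : (2 : ℝ) ≤ X := by exact_mod_cast (le_max_right X0 2).trans hX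
  have hX0 : (0 : ℝ) < X := by linarith
  have hX1 : (1 : ℝ) < X := by linarith
  have hH0 : (0 : ℝ) < H := lt_of_lt_of_le (by positivity) hHl
  obtain ⟨t, ht⟩ : ∃ t : ℝ, t = Real.logb X H := ⟨_, rfl⟩
  have hHt : (H : ℝ) = (X : ℝ) ^ t := by
    rw [ht, Real.rpow_logb hX0 hX1.ne' hH0]
  have ht1 : ε ≤ t := by
    rw [hHt] at hHl
    exact (Real.rpow_le_rpow_left_iff hX1).mp hHl
  have ht2 : t ≤ 1 / 2 - ε := by
    rw [hHt] at hHu
    exact (Real.rpow_le_rpow_left_iff hX1).mp hHu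
  have h1 := h X ((le_max_left _ _).trans hX) H s hs t ⟨ht1, ht2⟩ hHt
  have hM : Ms r X H = (X : ℝ) ^ mm r t := by rw [hHt, ms_eq r X t hX1.le]
  rw [hM]
  have e1 : (X : ℝ) ^ (1 - ε) * ((X : ℝ) ^ mm r t / H) ^ 2 = (X : ℝ) ^ (1 + 2 * mm r t - 2 * t - ε) := by
    rw [hHt, ← Real.rpow_sub hX0, ← Real.rpow_natCast, ← Real.rpow_mul hX0.le, ← Real.rpow_add hX0]
    congr 1
    push_cast
    ring
  have e2 : (X : ℝ) ^ mm r t * (X : ℝ) ^ (-ε) = (X : ℝ) ^ (mm r t - ε) := by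
    rw [← Real.rpow_add hX0]
    rfl
  rw [e1, e2]
  exact h1

end Pool.Agent.H24.TL
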