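import Pool.Agent.H24.TL.Mdl
import Pool.Agent.H99.GB.Fin

/-!
# [H24 TL FGL] local version of `H24/TS/Fgb`: `1/12` for `θ ≥ 1/4`

PROOF. As `fgb`, with `mal`.
-/

set_option autoImplicit false

namespace Pool.Agent.H24.TL

open Finset Pool.Agent.H48.WN Pool.Agent.H67.TS

theorem fgl (s θ δ : ℝ) (hs : s = 1 ∨ s = -1) (hθ : 1 / 4 ≤ θ) (hθ1 : θ ≤ 1 / 2) (hδ0 : 0 ≤ δ) (hδ : δ < 1 / 12) :
    ∃ X0 : ℕ, ∀ X : ℕ, X0 ≤ X → ¬ OneX s θ δ X := by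
  obtain ⟨e, he, he4⟩ : ∃ e : ℝ, 0 < e ∧ 1 / 12 = δ + 4 * e := ⟨(1 / 12 - δ) / 4, by linarith, by ring⟩
  obtain ⟨x0, hmda⟩ := mal s θ δ hs (by linarith) (by linarith) hδ0 (by linarith) (by linarith) (by linarith) e he
  obtain ⟨X1, hX1⟩ := Pool.Agent.H99.GB.gb (1 / 4 - e) e 1 (by linarith) (by linarith) he (by norm_num)
  have hev : ∀ᶠ X : ℕ in Filter.atTop, X1 ≤ X ∧ x0 ≤ (X : ℝ) ∧ 2 ≤ (X : ℝ) ∧ 2 ≤ (X : ℝ) ^ e := by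
    have h1 : ∀ᶠ x : ℝ in Filter.atTop, 2 ≤ x ^ e := (tendsto_rpow_atTop he).eventually_ge_atTop 2
    have h2 : ∀ᶠ n : ℕ in Filter.atTop, (2 : ℝ) ≤ (n : ℝ) ^ e := tendsto_natCast_atTop_atTop.eventually h1
    have h3 : ∀ x : ℝ, ∀ᶠ n : ℕ in Filter.atTop, x ≤ (n : ℝ) := fun x =>
      tendsto_natCast_atTop_atTop.eventually_ge_atTop x
    filter_upwards [h2, h3 x0, h3 2, Filter.eventually_ge_atTop X1] with X a1 a2 a3 a4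
    exact ⟨a4, a2, a3, a1⟩
  obtain ⟨X0, hev0⟩ := hev.exists_forall_of_atTop
  refine ⟨X0, fun X hXX hone => ?_⟩
  obtain ⟨hXa, hXb, hXc, hXd⟩ := hev0 X hXX
  have hX0 : (0 : ℝ) < X := by linarith
  have hX1' : (1 : ℝ) ≤ X := by linarith
  have hA0 : 0 < (X : ℝ) ^ (1 / 4 - e) := by positivity
  obtain ⟨H, _, hH2, hH3⟩ := hX1 X hXa ((X : ℝ) ^ (1 / 4 - e)) le_rfl (by linarith)
  have hHθ : (H : ℝ) ≤ (X : ℝ) ^ θ := by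
    have e1 : (X : ℝ) ^ (1 / 4 : ℝ) = (X : ℝ) ^ e * (X : ℝ) ^ (1 / 4 - e) := by
      rw [← Real.rpow_add hX0]
      congr 1
      ring
    have e2 : (X : ℝ) ^ (1 / 4 : ℝ) ≤ (X : ℝ) ^ θ :=
      Real.rpow_le_rpow_of_exponent_le hX1' (by linarith)
    have e3 : 2 * (X : ℝ) ^ (1 / 4 - e) ≤ (X : ℝ) ^ e * (X : ℝ) ^ (1 / 4 - e) :=
      mul_le_mul_of_nonneg_right hXd hA0.le
    have e4 : (H : ℝ) ≤ 2 * (X : ℝ) ^ (1 / 4 - e) := by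
      refine hH2.trans (le_of_eq ?_)
      norm_num
    linarith
  have hup := hmda X H hXb hone hHθ
  have hmin : min (1 / 4 - e) (1 / 2 - (1 / 4 - e)) = 1 / 4 - e := min_eq_left (by linarith)
  rw [hmin] at hH3
  have hlt : (X : ℝ) ^ (1 + δ + e) < (X : ℝ) ^ (1 + (1 / 4 - e) / 3 - e) :=
    Real.rpow_lt_rpow_of_exponent_lt (by linarith) (by linarith)
  linarith

end Pool.Agent.H24.TL
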