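import Pool.Agent.H24.TL.Mdl
import Pool.Agent.H24.TL.Lwf
import Pool.Agent.H67.TS.Trd

/-!
# [H24 TL GCL] local version of `H67/TS/Gcm`: `θ < 1/4`

PROOF. As `gcm`, with `lll` (window `⊆` that of `OneX`) in place of `l1_core`, at one `X`.
-/

set_option autoImplicit false

namespace Pool.Agent.H24.TL

open Finset Pool.Agent.H48.WN Pool.Agent.H67.TS

/-- the window of `lll` -/
theorem oneX_lll : ∃ X0 : ℝ, ∀ (s θ δ X : ℝ), X0 ≤ X → OneX s θ δ X → OneW s θ δ (X / Lw X - 1) (Lw X * X) := by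
  obtain ⟨X0, h⟩ := lw_ev
  refine ⟨max X0 1, fun s θ δ X hX hone n H h1 h2 h3 h4 => ?_⟩
  obtain ⟨a, b⟩ := h X ((le_max_left _ _).trans hX)
  have hX0 : 1 ≤ X := (le_max_right _ _).trans hX
  refine hone n H ?_ ?_ h3 h4
  · refine le_trans ?_ h1
    have e1 : 100 ≤ X / Lw X := by
      rw [le_div_iff₀ (by linarith)]
      exact b
    linarith
  · have e1 : 0 ≤ Lw X * X := by
      have := lw_nonneg X
      positivity
    linarith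

/-- the middle of the window -/
theorem oneX_mid : ∃ X0 : ℝ, ∀ (s θ δ X : ℝ), X0 ≤ X → OneX s θ δ X → OneW s θ δ (X / 10) (20 * X) := by
  obtain ⟨X0, h⟩ := lw_ev
  refine ⟨max X0 1, fun s θ δ X hX hone n H h1 h2 h3 h4 => ?_⟩
  obtain ⟨a, b⟩ := h X ((le_max_left _ _).trans hX)
  have hX0 : 1 ≤ X := (le_max_right _ _).trans hX
  refine hone n H ?_ ?_ h3 h4
  · refine le_trans ?_ h1
    have e1 : X / Lw X ≤ X / 10 := by
      gcongr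
    have e2 : 0 ≤ X / Lw X := by
      have := lw_nonneg X
      positivity
    linarith
  · have e1 : 10 * X ≤ Lw X * X := by gcongr
    linarith

theorem gcl (s θ m δ : ℝ) (hgb : GcAt θ m) (hs : s = 1 ∨ s = -1) (hθ0 : 0 < θ) (hθ : θ < 1 / 2)
    (hm1 : m ≤ θ) (hm2 : m ≤ 1 / 4) (hδ0 : 0 ≤ δ) (hδ : δ < m) : ∃ X0 : ℕ, ∀ X : ℕ, X0 ≤ X → ¬ OneX s θ δ X := by
  have hδθ : δ < θ := by linarith
  obtain ⟨e, he, he4⟩ : ∃ e : ℝ, 0 < e ∧ m = δ + 4 * e := ⟨(m - δ) / 4, by linarith, by ring⟩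
  obtain ⟨u, hu⟩ : ∃ u : ℝ, u = 1 - θ := ⟨_, rfl⟩
  obtain ⟨x0, hcore⟩ := lll s θ δ hs hθ0 (by linarith) hδ0 (by linarith) (by linarith) hδθ e he
  obtain ⟨x1, hw1⟩ := oneX_lll
  obtain ⟨x2, hw2⟩ := oneX_mid
  obtain ⟨X1, hX1⟩ := hgb e (1 / 12) he (by norm_num)
  -- all large `X`
  have hev : ∀ᶠ X : ℕ in Filter.atTop, X1 ≤ X ∧ x0 ≤ (X : ℝ) ∧ x1 ≤ (X : ℝ) ∧ x2 ≤ (X : ℝ) ∧
      20 ≤ (X : ℝ) ∧ 18 ≤ (X : ℝ) ^ (2 * e) := by
    have h1 : ∀ᶠ x : ℝ in Filter.atTop, 18 ≤ x ^ (2 * e) :=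
      (tendsto_rpow_atTop (by linarith)).eventually_ge_atTop 18
    have h2 : ∀ᶠ n : ℕ in Filter.atTop, (18 : ℝ) ≤ (n : ℝ) ^ (2 * e) :=
      tendsto_natCast_atTop_atTop.eventually h1
    have h3 : ∀ x : ℝ, ∀ᶠ n : ℕ in Filter.atTop, x ≤ (n : ℝ) := fun x =>
      tendsto_natCast_atTop_atTop.eventually_ge_atTop x
    filter_upwards [h2, h3 x0, h3 x1, h3 x2, h3 20, Filter.eventually_ge_atTop X1] with X a1 a2 a3 a4 a5 a6
    exact ⟨a6, a2, a3, a4, a5, a1⟩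
  obtain ⟨X0, hev0⟩ := hev.exists_forall_of_atTop
  refine ⟨X0, fun X hXX hone => ?_⟩
  obtain ⟨hXa, hXb, hXc1, hXc2, hXd, hXe⟩ := hev0 X hXX
  have hwa := hw1 s θ δ X hXc1 hone
  have hwb := hw2 s θ δ X hXc2 hone
  have hX0 : (0 : ℝ) < X := by linarith
  have hX1' : (1 : ℝ) ≤ X := by linarith
  obtain ⟨A, hA⟩ : ∃ A : ℝ, A = (5 / 2 * (X : ℝ)) ^ θ := ⟨_, rfl⟩
  have hA1 : (X : ℝ) ^ θ ≤ A := by
    rw [hA]
    exact Real.rpow_le_rpow hX0.le (by linarith) hθ0.le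
  have hA2 : A ≤ 5 / 2 * (X : ℝ) ^ θ := by
    rw [hA, Real.mul_rpow (by norm_num) hX0.le]
    refine mul_le_mul_of_nonneg_right ?_ (by positivity)
    calc (5 / 2 : ℝ) ^ θ ≤ (5 / 2 : ℝ) ^ (1 : ℝ) :=
          Real.rpow_le_rpow_of_exponent_le (by norm_num) (by linarith)
      _ = 5 / 2 := Real.rpow_one _
  have hXθ : 0 < (X : ℝ) ^ θ := by positivity
  obtain ⟨H, hH1, hH2, hH3⟩ := hX1 X hXa A hA1 (by linarith)
  have hH4 : (H : ℝ) ≤ 3 * (X : ℝ) ^ θ := by linarith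
  have hA3 : (1 + 1 / 12) * A ≤ 2 * (3 / 4 * (X : ℝ)) ^ θ := by
    have e1 : (5 / 2 * (X : ℝ)) = 10 / 3 * (3 / 4 * X) := by ring
    rw [hA, e1, Real.mul_rpow (by norm_num) (by positivity)]
    have e2 : (10 / 3 : ℝ) ^ θ ≤ 183 / 100 := by
      calc (10 / 3 : ℝ) ^ θ ≤ (10 / 3 : ℝ) ^ (1 / 2 : ℝ) :=
            Real.rpow_le_rpow_of_exponent_le (by norm_num) hθ.le
        _ = Real.sqrt (10 / 3) := (Real.sqrt_eq_rpow _).symm
        _ ≤ 183 / 100 := by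
            rw [Real.sqrt_le_left (by norm_num)]
            norm_num
    have e3 : 0 < (3 / 4 * (X : ℝ)) ^ θ := by positivity
    have e4 : (1 + 1 / 12) * ((10 / 3 : ℝ) ^ θ * (3 / 4 * (X : ℝ)) ^ θ) ≤
        (1 + 1 / 12) * (183 / 100 * (3 / 4 * (X : ℝ)) ^ θ) :=
      mul_le_mul_of_nonneg_left (mul_le_mul_of_nonneg_right e2 e3.le) (by norm_num)
    linarith
  obtain ⟨κ, hκ⟩ : ∃ κ : ℝ, κ = (5 / 2 * (X : ℝ)) ^ δ := ⟨_, rfl⟩
  have hκ0 : 0 ≤ κ := by rw [hκ]; positivity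
  have hκ1 : κ ≤ 5 / 2 * (X : ℝ) ^ δ := by
    rw [hκ, Real.mul_rpow (by norm_num) hX0.le]
    refine mul_le_mul_of_nonneg_right ?_ (by positivity)
    calc (5 / 2 : ℝ) ^ δ ≤ (5 / 2 : ℝ) ^ (1 : ℝ) :=
          Real.rpow_le_rpow_of_exponent_le (by norm_num) (by linarith)
      _ = 5 / 2 := Real.rpow_one _
  have hkey : ∀ n : ℕ, 3 * X ≤ 4 * n → 2 * n ≤ 5 * X → -κ ≤ s * EI n H := by
    intro n hn1 hn2
    have hn1' : 3 * (X : ℝ) ≤ 4 * n := by exact_mod_cast hn1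
    have hn2' : 2 * (n : ℝ) ≤ 5 * X := by exact_mod_cast hn2
    have hn0 : (0 : ℝ) < n := by linarith
    have h1 := hwb n H (by linarith) (by linarith) ?_ ?_
    · refine le_trans (neg_le_neg ?_) h1
      rw [hκ]
      exact Real.rpow_le_rpow hn0.le (by linarith) hδ0
    · refine le_trans ?_ hH1
      rw [hA]
      exact Real.rpow_le_rpow hn0.le (by linarith) hθ0.le
    · refine hH2.trans (hA3.trans ?_)
      refine mul_le_mul_of_nonneg_left ?_ (by norm_num)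
      exact Real.rpow_le_rpow (by positivity) (by linarith) hθ0.le
  have hL := hcore X H hXb (hA1.trans hH1) (by linarith) hwa κ hκ0 hkey
  have hH5 := hH3 s κ hs hκ0 (fun n hn => by
    rw [mem_Ioc] at hn
    exact hkey n (by omega) (by omega))
  rw [← hu] at hL
  have h1 : (X : ℝ) ^ (δ + u + e) * H ≤ 3 * (X : ℝ) ^ (1 + δ + e) := by
    have e1 : (X : ℝ) ^ (1 + δ + e) = (X : ℝ) ^ (δ + u + e) * (X : ℝ) ^ θ := by
      rw [← Real.rpow_add hX0]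
      congr 1
      rw [hu]
      ring
    rw [e1]
    have := mul_le_mul_of_nonneg_left hH4 (by positivity : 0 ≤ (X : ℝ) ^ (δ + u + e))
    linarith
  have h2' : κ * X ≤ 5 / 2 * (X : ℝ) ^ (1 + δ + e) := by
    have e1 : (X : ℝ) ^ δ * X ≤ (X : ℝ) ^ (1 + δ + e) := by
      rw [← Real.rpow_add_one hX0.ne']
      exact Real.rpow_le_rpow_of_exponent_le hX1' (by linarith)
    have e2 : κ * X ≤ 5 / 2 * (X : ℝ) ^ δ * X := mul_le_mul_of_nonneg_right hκ1 hX0.le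
    linarith
  have h3 : (X : ℝ) ^ (1 + m - e) = (X : ℝ) ^ (2 * e) * (X : ℝ) ^ (1 + δ + e) := by
    rw [← Real.rpow_add hX0]
    congr 1
    rw [he4]
    ring
  rw [h3] at hH5
  have h5 : 0 < (X : ℝ) ^ (1 + δ + e) := by positivity
  have h4 : 18 * (X : ℝ) ^ (1 + δ + e) ≤ (X : ℝ) ^ (2 * e) * (X : ℝ) ^ (1 + δ + e) :=
    mul_le_mul_of_nonneg_right hXe h5.le
  linarith

end Pool.Agent.H24.TL
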