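import Pool.Agent.H24.TL.Ker
import Pool.Agent.H43.SI.Dirs

/-!
# [H24 TL IDN] the identity

PROOF. `conv` (induction on `N`): `∑_{n ≤ N} a n ∑_{m ≤ N/n} g (m n) = ∑_{k ≤ N} (∑_{d ∣ k} a d) g k`; with `a = Λ - 1`:
`∑_{d ∣ k} (Λ d - 1) = log k - d(k)` (`vonMangoldt_sum`). `tail`: `|Gk (n/X) - ∑_{m ≤ N/n} gk (m n/X)| ≤ ∑_{m > N/n} 6 X⁴/(m n)⁴ ≤ C X⁴/(n N³)`
(`gk_abs4`, `N/n ≥ 1`), so after summation `≤ C X⁴ (1 + log N)²/N³ ≤ C'` for `N ≥ X²`.
Abel: `c k = log k - d(k) - c₀`, `|∑_{k ≤ N} c k| ≤ C √N` (`dirs`), `∑ c k gk (k/X) = E(N) gk(N/X) + ∑_{k<N} E(k) (gk (k/X) - gk ((k+1)/X))`,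
`|gk (k/X) - gk ((k+1)/X)| ≤ 100 (1/X) ((k+1)/X)` for `k ≤ X` and `≤ 100 X²/k³` for `k > X` (`gk_lip'`, `gk_lip`): total `≤ C √X`.
`c₀ ∑_{k ≤ N} gk (k/X) = c₀ (Gk (1/X) - tail)`, `Gk (1/X) ≤ 3 X e^(-π X²/2) ≤ 3`.
-/

set_option autoImplicit false

namespace Pool.Agent.H24.TL

open Finset

theorem conv (a g : ℕ → ℝ) (N : ℕ) : ∑ n ∈ Icc 1 N, a n * ∑ m ∈ Icc 1 (N / n), g (m * n) =
    ∑ k ∈ Icc 1 N, (∑ d ∈ k.divisors, a d) * g k := by
  simp_rw [Finset.mul_sum, Finset.sum_mul]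
  rw [Finset.sum_sigma', Finset.sum_sigma']
  refine Finset.sum_nbij' (fun x => ⟨x.2 * x.1, x.1⟩) (fun x => ⟨x.2, x.1 / x.2⟩) ?_ ?_ ?_ ?_ ?_
  · rintro ⟨n, m⟩ h
    simp only [Finset.mem_sigma, Finset.mem_Icc, Nat.mem_divisors] at h ⊢
    obtain ⟨⟨h1, h2⟩, h3, h4⟩ := h
    have h5 : m * n ≤ N := (Nat.le_div_iff_mul_le (by omega)).1 h4
    have h6 : 0 < m * n := Nat.mul_pos (by omega) (by omega)
    exact ⟨⟨h6, h5⟩, Dvd.intro_left m rfl, h6.ne'⟩
  · rintro ⟨k, d⟩ h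
    simp only [Finset.mem_sigma, Finset.mem_Icc, Nat.mem_divisors] at h ⊢
    obtain ⟨⟨h1, h2⟩, h3, h4⟩ := h
    have hd : 0 < d := Nat.pos_of_dvd_of_pos h3 (by omega)
    have hdk : d ≤ k := Nat.le_of_dvd (by omega) h3
    exact ⟨⟨hd, by omega⟩, Nat.div_pos hdk hd, Nat.div_le_div_right h2⟩
  · rintro ⟨n, m⟩ h
    simp only [Finset.mem_sigma, Finset.mem_Icc] at h
    have hn : 0 < n := by omega
    have : m * n / n = m := Nat.mul_div_cancel m hn
    simp only [this]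
  · rintro ⟨k, d⟩ h
    simp only [Finset.mem_sigma, Finset.mem_Icc, Nat.mem_divisors] at h
    have : k / d * d = k := Nat.div_mul_cancel h.2.1
    simp only [this]
  · rintro ⟨n, m⟩ h
    rfl

private theorem pw4 (M K : ℕ) (hM : 1 ≤ M) :
    ∑ m ∈ range K, 1 / ((m : ℝ) + M + 1) ^ 4 ≤ 1 / (M : ℝ) ^ 3 - 1 / ((M : ℝ) + K) ^ 3 := by
  have hM' : (1 : ℝ) ≤ M := by exact_mod_cast hM
  induction K with
  | zero => simp
  | succ K ih =>
    rw [Finset.sum_range_succ]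
    have hj : (1 : ℝ) ≤ (M : ℝ) + K := by
      have : (0 : ℝ) ≤ K := Nat.cast_nonneg K
      linarith
    have key : 1 / ((K : ℝ) + M + 1) ^ 4 ≤ 1 / ((M : ℝ) + K) ^ 3 - 1 / ((M : ℝ) + (K + 1 : ℕ)) ^ 3 := by
      have e1 : (K : ℝ) + M + 1 = ((M : ℝ) + K) + 1 := by ring
      have e2 : (M : ℝ) + (K + 1 : ℕ) = ((M : ℝ) + K) + 1 := by
        push_cast
        ring
      rw [e1, e2]
      generalize ((M : ℝ) + K) = j at hj
      have hj0 : 0 < j := by linarith
      have hj1 : 0 < j + 1 := by linarith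
      have e3 : 1 / j ^ 3 - 1 / (j + 1) ^ 3 = (3 * j ^ 2 + 3 * j + 1) / (j ^ 3 * (j + 1) ^ 3) := by
        field_simp
        ring
      rw [e3, div_le_div_iff₀ (by positivity) (by positivity)]
      have h0 : j ^ 3 ≤ (3 * j ^ 2 + 3 * j + 1) * (j + 1) := by nlinarith [sq_nonneg j, pow_pos hj0 3]
      calc 1 * (j ^ 3 * (j + 1) ^ 3) = j ^ 3 * (j + 1) ^ 3 := by ring
        _ ≤ ((3 * j ^ 2 + 3 * j + 1) * (j + 1)) * (j + 1) ^ 3 :=
            mul_le_mul_of_nonneg_right h0 (by positivity)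
        _ = (3 * j ^ 2 + 3 * j + 1) * (j + 1) ^ 4 := by ring
    linarith

private theorem shift1 (f : ℕ → ℝ) (M : ℕ) : ∑ m ∈ Icc 1 M, f m = ∑ m ∈ range M, f (m + 1) := by
  induction M with
  | zero => simp
  | succ M ih => rw [Finset.sum_Icc_succ_top (by omega), Finset.sum_range_succ, ih]

theorem tail : ∃ C : ℝ, 0 < C ∧ ∀ (X : ℝ) (N n : ℕ), 1 ≤ X → 1 ≤ n → n ≤ N →
    |Gk ((n : ℝ) / X) - ∑ m ∈ Icc 1 (N / n), gk (((m * n : ℕ) : ℝ) / X)| ≤ C * X ^ 4 / (n * (N : ℝ) ^ 3) := by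
  refine ⟨48, by norm_num, fun X N n hX hn hnN => ?_⟩
  have hX0 : 0 < X := by linarith
  have hn' : (1 : ℝ) ≤ n := by exact_mod_cast hn
  have hn0 : (0 : ℝ) < n := by linarith
  have hN' : (1 : ℝ) ≤ N := by exact_mod_cast (hn.trans hnN)
  have hN0 : (0 : ℝ) < N := by linarith
  set t : ℝ := (n : ℝ) / X with ht
  have ht0 : 0 < t := div_pos hn0 hX0
  set M : ℕ := N / n with hM
  have hM1 : 1 ≤ M := Nat.div_pos hnN (by omega)
  have hM' : (1 : ℝ) ≤ M := by exact_mod_cast hM1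
  have hM0 : (0 : ℝ) < M := by linarith
  -- M ≥ N / (2 n)
  have hMN : (N : ℝ) ≤ 2 * M * n := by
    have h1 : N < n * (M + 1) := Nat.lt_mul_div_succ N (by omega)
    have h2 : (N : ℝ) ≤ n * (M + 1) := by exact_mod_cast h1.le
    nlinarith
  have e1 : ∑ m ∈ Icc 1 M, gk (((m * n : ℕ) : ℝ) / X) = ∑ m ∈ range M, gk (((m : ℝ) + 1) * t) := by
    rw [shift1 (fun m : ℕ => gk (((m * n : ℕ) : ℝ) / X)) M]
    refine Finset.sum_congr rfl fun m _ => ?_
    congr 1
    rw [ht]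
    push_cast
    ring
  have hs := gk_sum ht0
  have h1 := hs.sum_add_tsum_nat_add M
  have e2 : Gk t - ∑ m ∈ range M, gk (((m : ℝ) + 1) * t) = ∑' i : ℕ, gk ((((i + M : ℕ) : ℝ) + 1) * t) := by
    unfold Gk
    linarith
  rw [e1, e2]
  have hb : ∀ i : ℕ, |gk ((((i + M : ℕ) : ℝ) + 1) * t)| ≤ 6 / t ^ 4 * (1 / ((i : ℝ) + M + 1) ^ 4) := by
    intro i
    have h3 := gk_abs4 ((((i + M : ℕ) : ℝ) + 1) * t) (by positivity)
    refine h3.trans (le_of_eq ?_)
    push_cast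
    field_simp
  have hsum : ∀ K : ℕ, ∑ i ∈ range K, |gk ((((i + M : ℕ) : ℝ) + 1) * t)| ≤ 6 / t ^ 4 * (1 / (M : ℝ) ^ 3) := by
    intro K
    calc ∑ i ∈ range K, |gk ((((i + M : ℕ) : ℝ) + 1) * t)|
        ≤ ∑ i ∈ range K, 6 / t ^ 4 * (1 / ((i : ℝ) + M + 1) ^ 4) := Finset.sum_le_sum fun i _ => hb i
      _ = 6 / t ^ 4 * ∑ i ∈ range K, (1 / ((i : ℝ) + M + 1) ^ 4) := by rw [Finset.mul_sum]
      _ ≤ 6 / t ^ 4 * (1 / (M : ℝ) ^ 3) := by
        refine mul_le_mul_of_nonneg_left ?_ (by positivity)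
        have h4 := pw4 M K hM1
        have h5 : 0 ≤ 1 / ((M : ℝ) + K) ^ 3 := by positivity
        linarith
  have hsm : Summable fun i : ℕ => |gk ((((i + M : ℕ) : ℝ) + 1) * t)| :=
    summable_of_sum_range_le (fun i => abs_nonneg _) hsum
  have h6 : |∑' i : ℕ, gk ((((i + M : ℕ) : ℝ) + 1) * t)| ≤ ∑' i : ℕ, |gk ((((i + M : ℕ) : ℝ) + 1) * t)| := by
    have := norm_tsum_le_tsum_norm (f := fun i : ℕ => gk ((((i + M : ℕ) : ℝ) + 1) * t)) hsm
    simpa [Real.norm_eq_abs] using this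
  refine h6.trans ((Real.tsum_le_of_sum_range_le (fun i => abs_nonneg _) hsum).trans ?_)
  rw [ht]
  have h7 : (N : ℝ) ^ 3 ≤ 8 * (M : ℝ) ^ 3 * n ^ 3 := by
    calc (N : ℝ) ^ 3 ≤ (2 * M * n) ^ 3 := pow_le_pow_left₀ hN0.le hMN 3
      _ = 8 * (M : ℝ) ^ 3 * n ^ 3 := by ring
  have e3 : 6 / ((n : ℝ) / X) ^ 4 * (1 / (M : ℝ) ^ 3) = 6 * X ^ 4 / (n ^ 4 * M ^ 3) := by
    field_simp
  rw [e3, div_le_div_iff₀ (by positivity) (by positivity)]
  calc 6 * X ^ 4 * (n * (N : ℝ) ^ 3) ≤ 6 * X ^ 4 * (n * (8 * (M : ℝ) ^ 3 * n ^ 3)) := by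
        refine mul_le_mul_of_nonneg_left ?_ (by positivity)
        exact mul_le_mul_of_nonneg_left h7 hn0.le
    _ = 48 * X ^ 4 * (n ^ 4 * M ^ 3) := by ring

private theorem abel_id (E g : ℕ → ℝ) (hE : E 0 = 0) (N : ℕ) :
    ∑ k ∈ Icc 1 N, (E k - E (k - 1)) * g k = ∑ k ∈ Icc 1 N, E k * (g k - g (k + 1)) + E N * g (N + 1) := by
  induction N with
  | zero => simp [hE]
  | succ N ih =>
    rw [Finset.sum_Icc_succ_top (by omega), Finset.sum_Icc_succ_top (by omega), ih]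
    simp only [Nat.add_sub_cancel]
    ring

private theorem sq_tail (K N : ℕ) (hK : 1 ≤ K) : ∑ k ∈ Ioc K N, 1 / (k : ℝ) ^ 2 ≤ 1 / (K : ℝ) := by
  have hK' : (1 : ℝ) ≤ K := by exact_mod_cast hK
  by_cases h : K ≤ N
  · have : ∑ k ∈ Ioc K N, 1 / (k : ℝ) ^ 2 ≤ 1 / (K : ℝ) - 1 / (N : ℝ) := by
      induction N, h using Nat.le_induction with
      | base => simp
      | succ N hN ih =>
        rw [Finset.sum_Ioc_succ_top (by omega)]
        have hN1 : (1 : ℝ) ≤ N := by exact_mod_cast (hK.trans hN)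
        have key : 1 / ((N + 1 : ℕ) : ℝ) ^ 2 ≤ 1 / N - 1 / ((N + 1 : ℕ) : ℝ) := by
          push_cast
          have hj0 : (0 : ℝ) < N := by linarith
          have e : (1 : ℝ) / N - 1 / (N + 1) = 1 / (N * (N + 1)) := by
            field_simp
            ring
          rw [e]
          apply one_div_le_one_div_of_le (by positivity)
          nlinarith
        linarith
    have h1 : (0 : ℝ) ≤ 1 / N := by positivity
    linarith
  · rw [Finset.Ioc_eq_empty (by omega)]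
    simp

theorem abel : ∃ C : ℝ, 0 < C ∧ ∀ (X : ℝ) (N : ℕ), 2 ≤ X → X ^ 2 ≤ N →
    |∑ k ∈ Icc 1 N, (Real.log k - (k.divisors.card : ℝ)) * gk ((k : ℝ) / X)| ≤ C * √X := by
  obtain ⟨c, C, hC, hd⟩ := Pool.Agent.H43.SI.dirs
  obtain ⟨Ct, hCt, ht⟩ := tail
  refine ⟨400 * C + 6 * C + |c| * (Ct + 3), by positivity, fun X N hX hN => ?_⟩
  have hX0 : 0 < X := by linarith
  have hN4 : (4 : ℝ) ≤ N := by nlinarith
  have hN1 : 1 ≤ N := by
    have : (1 : ℝ) ≤ N := by linarith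
    exact_mod_cast this
  have hN0 : (0 : ℝ) < N := by linarith
  have hXN : X ≤ N := by nlinarith
  have hX4 : X ^ 4 ≤ (N : ℝ) ^ 2 := by
    calc X ^ 4 = (X ^ 2) ^ 2 := by ring
      _ ≤ (N : ℝ) ^ 2 := pow_le_pow_left₀ (by positivity) hN 2
  set s := √X with hs
  have hs0 : 0 < s := Real.sqrt_pos.2 hX0
  have hs1 : 1 ≤ s := Real.one_le_sqrt.2 (by linarith)
  have hss : s * s = X := Real.mul_self_sqrt hX0.le
  set g : ℕ → ℝ := fun k => gk ((k : ℝ) / X) with hg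
  set E : ℕ → ℝ := fun K => ∑ n ∈ Icc 1 K, (Real.log n - (n.divisors.card : ℝ)) - c * K with hE
  have hE0 : E 0 = 0 := by simp [hE]
  have hEb : ∀ k : ℕ, 1 ≤ k → |E k| ≤ C * √(k : ℝ) := fun k hk => hd k hk
  have hEd : ∀ k : ℕ, 1 ≤ k → E k - E (k - 1) = Real.log k - (k.divisors.card : ℝ) - c := by
    intro k hk
    obtain ⟨j, rfl⟩ : ∃ j, k = j + 1 := ⟨k - 1, by omega⟩
    simp only [hE, Nat.add_sub_cancel]
    rw [Finset.sum_Icc_succ_top (by omega)]
    push_cast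
    ring
  have e0 : ∑ k ∈ Icc 1 N, (Real.log k - (k.divisors.card : ℝ)) * gk ((k : ℝ) / X) =
      ∑ k ∈ Icc 1 N, (E k - E (k - 1)) * g k + c * ∑ k ∈ Icc 1 N, g k := by
    rw [Finset.mul_sum, ← Finset.sum_add_distrib]
    refine Finset.sum_congr rfl fun k hk => ?_
    rw [Finset.mem_Icc] at hk
    rw [hEd k hk.1]
    simp only [hg]
    ring
  rw [e0, abel_id E g hE0 N]
  -- the differences
  have hsmall : ∀ k : ℕ, 1 ≤ k → (k : ℝ) ≤ X → |E k * (g k - g (k + 1))| ≤ 200 * C * s / X := by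
    intro k hk hkX
    have hk' : (1 : ℝ) ≤ k := by exact_mod_cast hk
    have hk0 : (0 : ℝ) < k := by linarith
    have h1 : |g k - g (k + 1)| ≤ 200 / X := by
      have h2 := gk_lip' ((k : ℝ) / X) (((k + 1 : ℕ) : ℝ) / X) (by positivity) (by
        push_cast
        gcongr
        linarith)
      rw [abs_sub_comm]
      refine h2.trans ?_
      push_cast
      have e : 100 * (((k : ℝ) + 1) / X - k / X) * ((k + 1) / X) = (100 * (k + 1) / X) / X := by
        field_simp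
        ring
      rw [e]
      apply div_le_div_of_nonneg_right _ hX0.le
      rw [div_le_iff₀ hX0]
      linarith
    have h3 : √(k : ℝ) ≤ s := Real.sqrt_le_sqrt hkX
    rw [abs_mul]
    calc |E k| * |g k - g (k + 1)| ≤ (C * s) * (200 / X) := by
          refine mul_le_mul ((hEb k hk).trans (mul_le_mul_of_nonneg_left h3 hC.le)) h1 (abs_nonneg _) (by positivity)
      _ = 200 * C * s / X := by ring
  have hlarge : ∀ k : ℕ, 1 ≤ k → X ≤ (k : ℝ) → |E k * (g k - g (k + 1))| ≤ 100 * C * s * X * (1 / (k : ℝ) ^ 2) := by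
    intro k hk hkX
    have hk' : (1 : ℝ) ≤ k := by exact_mod_cast hk
    have hk0 : (0 : ℝ) < k := by linarith
    have h1 : |g k - g (k + 1)| ≤ 100 * X ^ 2 / k ^ 3 := by
      have h2 := gk_lip ((k : ℝ) / X) (((k + 1 : ℕ) : ℝ) / X) (by positivity) (by
        push_cast
        gcongr
        linarith)
      rw [abs_sub_comm]
      refine h2.trans (le_of_eq ?_)
      push_cast
      field_simp
      ring
    have h3 : √(k : ℝ) * s ≤ k := by
      have h4 : s ≤ √(k : ℝ) := Real.sqrt_le_sqrt hkX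
      have h5 : √(k : ℝ) * √(k : ℝ) = k := Real.mul_self_sqrt hk0.le
      calc √(k : ℝ) * s ≤ √(k : ℝ) * √(k : ℝ) := mul_le_mul_of_nonneg_left h4 (Real.sqrt_nonneg _)
        _ = k := h5
    have h6 : √(k : ℝ) ≤ k / s := by rwa [le_div_iff₀ hs0]
    rw [abs_mul]
    calc |E k| * |g k - g (k + 1)| ≤ (C * (k / s)) * (100 * X ^ 2 / k ^ 3) := by
          refine mul_le_mul ((hEb k hk).trans (mul_le_mul_of_nonneg_left h6 hC.le)) h1 (abs_nonneg _) (by positivity)
      _ = 100 * C * s * X * (1 / (k : ℝ) ^ 2) := by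
        rw [← hss]
        field_simp
  set K := ⌊X⌋₊ with hK
  have hK1 : 1 ≤ K := by
    rw [hK]
    exact Nat.one_le_iff_ne_zero.2 (by
      intro h0
      rw [Nat.floor_eq_zero] at h0
      linarith)
  have hKX : (K : ℝ) ≤ X := Nat.floor_le hX0.le
  have hKX' : X ≤ 2 * K := by
    have h1 : X < K + 1 := Nat.lt_floor_add_one X
    have h2 : (1 : ℝ) ≤ K := by exact_mod_cast hK1
    linarith
  have hKN : K ≤ N := by
    have : (K : ℝ) ≤ N := hKX.trans hXN
    exact_mod_cast this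
  have hA : |∑ k ∈ Icc 1 N, E k * (g k - g (k + 1))| ≤ 400 * C * s := by
    refine (Finset.abs_sum_le_sum_abs _ _).trans ?_
    have esplit : Icc 1 N = Icc 1 K ∪ Ioc K N := by
      ext x
      simp only [Finset.mem_union, Finset.mem_Icc, Finset.mem_Ioc]
      omega
    have hdis : Disjoint (Icc 1 K) (Ioc K N) := by
      rw [Finset.disjoint_left]
      intro x hx hx'
      rw [Finset.mem_Icc] at hx
      rw [Finset.mem_Ioc] at hx'
      omega
    rw [esplit, Finset.sum_union hdis]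
    have h1 : ∑ k ∈ Icc 1 K, |E k * (g k - g (k + 1))| ≤ 200 * C * s := by
      calc ∑ k ∈ Icc 1 K, |E k * (g k - g (k + 1))| ≤ ∑ k ∈ Icc 1 K, 200 * C * s / X := by
            refine Finset.sum_le_sum fun k hk => ?_
            rw [Finset.mem_Icc] at hk
            have : (k : ℝ) ≤ K := by exact_mod_cast hk.2
            exact hsmall k hk.1 (this.trans hKX)
        _ = K * (200 * C * s / X) := by
            rw [Finset.sum_const, Nat.card_Icc, nsmul_eq_mul]
            simp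
        _ ≤ X * (200 * C * s / X) := mul_le_mul_of_nonneg_right hKX (by positivity)
        _ = 200 * C * s := by field_simp
    have h2 : ∑ k ∈ Ioc K N, |E k * (g k - g (k + 1))| ≤ 200 * C * s := by
      calc ∑ k ∈ Ioc K N, |E k * (g k - g (k + 1))|
          ≤ ∑ k ∈ Ioc K N, 100 * C * s * X * (1 / (k : ℝ) ^ 2) := by
            refine Finset.sum_le_sum fun k hk => ?_
            rw [Finset.mem_Ioc] at hk
            have h3 : X ≤ (k : ℝ) := by
              have h4 : X < K + 1 := Nat.lt_floor_add_one X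
              have h5 : ((K + 1 : ℕ) : ℝ) ≤ k := by exact_mod_cast hk.1
              push_cast at h5
              linarith
            exact hlarge k (by omega) h3
        _ = 100 * C * s * X * ∑ k ∈ Ioc K N, 1 / (k : ℝ) ^ 2 := by rw [Finset.mul_sum]
        _ ≤ 100 * C * s * X * (1 / K) := mul_le_mul_of_nonneg_left (sq_tail K N hK1) (by positivity)
        _ ≤ 100 * C * s * X * (2 / X) := by
            refine mul_le_mul_of_nonneg_left ?_ (by positivity)
            have h2 : (0 : ℝ) < K := by exact_mod_cast hK1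
            rw [div_le_div_iff₀ h2 hX0]
            linarith
        _ = 200 * C * s := by
            field_simp
            ring
    linarith
  have hB : |E N * g (N + 1)| ≤ 6 * C := by
    rw [abs_mul]
    have h1 : |g (N + 1)| ≤ 6 * X ^ 4 / (N : ℝ) ^ 4 := by
      have h2 := gk_abs4 (((N + 1 : ℕ) : ℝ) / X) (by positivity)
      refine h2.trans ?_
      rw [div_pow, div_div_eq_mul_div]
      apply div_le_div_of_nonneg_left (by positivity) (by positivity)
      apply pow_le_pow_left₀ hN0.le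
      push_cast
      linarith
    have h3 : √(N : ℝ) ≤ N := by
      rw [Real.sqrt_le_left hN0.le]
      nlinarith
    calc |E N| * |g (N + 1)| ≤ (C * N) * (6 * X ^ 4 / (N : ℝ) ^ 4) := by
          refine mul_le_mul ((hEb N hN1).trans (mul_le_mul_of_nonneg_left h3 hC.le)) h1 (abs_nonneg _) (by positivity)
      _ = 6 * C * (X ^ 4 / (N : ℝ) ^ 3) := by
          field_simp
      _ ≤ 6 * C * 1 := by
          refine mul_le_mul_of_nonneg_left ?_ (by positivity)
          rw [div_le_one (by positivity)]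
          refine hX4.trans ?_
          exact pow_le_pow_right₀ (by linarith) (by norm_num)
      _ = 6 * C := by ring
  have hD : |∑ k ∈ Icc 1 N, g k| ≤ Ct + 3 := by
    have h1 := ht X N 1 (by linarith) le_rfl hN1
    have e1 : ∑ m ∈ Icc 1 (N / 1), gk (((m * 1 : ℕ) : ℝ) / X) = ∑ k ∈ Icc 1 N, g k := by
      rw [Nat.div_one]
      simp only [mul_one, hg]
    rw [e1] at h1
    have h2 : Ct * X ^ 4 / (((1 : ℕ) : ℝ) * (N : ℝ) ^ 3) ≤ Ct := by
      rw [Nat.cast_one, one_mul, div_le_iff₀ (by positivity)]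
      refine mul_le_mul_of_nonneg_left ?_ hCt.le
      refine hX4.trans ?_
      exact pow_le_pow_right₀ (by linarith) (by norm_num)
    have hp : 0 < Gk (((1 : ℕ) : ℝ) / X) := Gk_pos (by positivity)
    have hq : Gk (((1 : ℕ) : ℝ) / X) ≤ 3 := Gk_bd (by positivity)
    have h3 := abs_le.1 (h1.trans h2)
    rw [abs_le]
    constructor
    · linarith [h3.2]
    · linarith [h3.1]
  have hfin : |∑ k ∈ Icc 1 N, E k * (g k - g (k + 1)) + E N * g (N + 1) + c * ∑ k ∈ Icc 1 N, g k| ≤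
      400 * C * s + 6 * C + |c| * (Ct + 3) := by
    refine (abs_add_le _ _).trans ?_
    have h1 := abs_add_le (∑ k ∈ Icc 1 N, E k * (g k - g (k + 1))) (E N * g (N + 1))
    have h2 : |c * ∑ k ∈ Icc 1 N, g k| ≤ |c| * (Ct + 3) := by
      rw [abs_mul]
      exact mul_le_mul_of_nonneg_left hD (abs_nonneg _)
    linarith
  refine hfin.trans ?_
  have h9 : 0 ≤ |c| * (Ct + 3) := by positivity
  nlinarith

/-- **the identity** -/
theorem idn : ∃ C : ℝ, 0 < C ∧ ∀ (X : ℝ) (N : ℕ), 2 ≤ X → X ^ 2 ≤ N →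
    |∑ n ∈ Icc 1 N, (ArithmeticFunction.vonMangoldt n - 1) * Gk ((n : ℝ) / X)| ≤ C * √X := by
  obtain ⟨Ca, hCa, ha⟩ := abel
  obtain ⟨Ct, hCt, ht⟩ := tail
  refine ⟨Ca + 2 * Ct, by positivity, fun X N hX hN => ?_⟩
  have hX0 : 0 < X := by linarith
  have hN4 : (4 : ℝ) ≤ N := by nlinarith
  have hN1 : 1 ≤ N := by
    have : (1 : ℝ) ≤ N := by linarith
    exact_mod_cast this
  have hN0 : (0 : ℝ) < N := by linarith
  have hX4 : X ^ 4 ≤ (N : ℝ) ^ 2 := by
    calc X ^ 4 = (X ^ 2) ^ 2 := by ring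
      _ ≤ (N : ℝ) ^ 2 := pow_le_pow_left₀ (by positivity) hN 2
  set a : ℕ → ℝ := fun n => ArithmeticFunction.vonMangoldt n - 1 with hadef
  set g : ℕ → ℝ := fun k => gk ((k : ℝ) / X) with hg
  have h1 := conv a g N
  have e1 : ∑ k ∈ Icc 1 N, (∑ d ∈ k.divisors, a d) * g k =
      ∑ k ∈ Icc 1 N, (Real.log k - (k.divisors.card : ℝ)) * gk ((k : ℝ) / X) := by
    refine Finset.sum_congr rfl fun k _ => ?_
    simp only [hadef, hg]
    rw [Finset.sum_sub_distrib, ArithmeticFunction.vonMangoldt_sum]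
    simp
  have e2 : ∑ n ∈ Icc 1 N, a n * Gk ((n : ℝ) / X) =
      ∑ k ∈ Icc 1 N, (Real.log k - (k.divisors.card : ℝ)) * gk ((k : ℝ) / X) +
        ∑ n ∈ Icc 1 N, a n * (Gk ((n : ℝ) / X) - ∑ m ∈ Icc 1 (N / n), g (m * n)) := by
    rw [← e1, ← h1, ← Finset.sum_add_distrib]
    refine Finset.sum_congr rfl fun n _ => ?_
    ring
  rw [e2]
  have h2 : |∑ n ∈ Icc 1 N, a n * (Gk ((n : ℝ) / X) - ∑ m ∈ Icc 1 (N / n), g (m * n))| ≤ 2 * Ct := by
    refine (Finset.abs_sum_le_sum_abs _ _).trans ?_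
    calc ∑ n ∈ Icc 1 N, |a n * (Gk ((n : ℝ) / X) - ∑ m ∈ Icc 1 (N / n), g (m * n))|
        ≤ ∑ n ∈ Icc 1 N, 2 * Ct / N := by
          refine Finset.sum_le_sum fun n hn => ?_
          rw [Finset.mem_Icc] at hn
          have hn' : (1 : ℝ) ≤ n := by exact_mod_cast hn.1
          have hn0 : (0 : ℝ) < n := by linarith
          have h3 := ht X N n (by linarith) hn.1 hn.2
          have h4 : |a n| ≤ 2 * n := by
            simp only [hadef]
            have h5 : 0 ≤ ArithmeticFunction.vonMangoldt n := ArithmeticFunction.vonMangoldt_nonneg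
            have h6 : ArithmeticFunction.vonMangoldt n ≤ Real.log n := ArithmeticFunction.vonMangoldt_le_log
            have h7 : Real.log n ≤ n := (Real.log_le_sub_one_of_pos hn0).trans (by linarith)
            rw [abs_le]
            constructor <;> linarith
          rw [abs_mul]
          calc |a n| * |Gk ((n : ℝ) / X) - ∑ m ∈ Icc 1 (N / n), g (m * n)|
              ≤ (2 * n) * (Ct * X ^ 4 / (n * (N : ℝ) ^ 3)) :=
                mul_le_mul h4 h3 (abs_nonneg _) (by positivity)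
            _ = 2 * Ct * X ^ 4 / (N : ℝ) ^ 3 := by
                field_simp
            _ ≤ 2 * Ct * (N : ℝ) ^ 2 / (N : ℝ) ^ 3 := by
                apply div_le_div_of_nonneg_right _ (by positivity)
                exact mul_le_mul_of_nonneg_left hX4 (by positivity)
            _ = 2 * Ct / N := by
                field_simp
      _ = 2 * Ct := by
          rw [Finset.sum_const, Nat.card_Icc, nsmul_eq_mul]
          simp only [Nat.add_sub_cancel]
          field_simp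
  have h3 := ha X N hX hN
  have hs1 : 1 ≤ √X := Real.one_le_sqrt.2 (by linarith)
  refine (abs_add_le _ _).trans ?_
  nlinarith

end Pool.Agent.H24.TL
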