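import Pool.Agent.H24.TL.Defs

/-!
# [H24 TL KER] the kernel

PROOF. `gk_abs`: `|gk t| ≤ 4 e^(-π t²/2) ≤ 4 · 8/(π t²)²` (`e^(-z) ≤ 2/z²`). `gk_lip`: `|gk' y| ≤ 20 y e^(-π y²/2) ≤ 20/y³`, mean value.
`gk_ge`: `z = e^(-π t²/2) ≤ e^(-π/2) ≤ 1/4` for `t ≥ 1`: `gk t = z (1 - (1+√2) z + √2 z³) ≥ z/4`.
`Gk_inv`: `Real.tsum_exp_neg_mul_int_sq` (`1 + 2 ψ(t) = (1 + 2 ψ(1/t))/t`, `ψ(t) = ∑_{m ≥ 1} e^(-π m² t²)`,
`Gk t = ψ(t/√2) - (1+√2) ψ(t) + √2 ψ(√2 t)`).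
`Gk_le`: `gk (m t) ≤ (3/2) e^(-π m² t²/2) ≤ (3/2) e^(-π t²/2) e^(-π (m²-1)/2)`, sum.
-/

set_option autoImplicit false

namespace Pool.Agent.H24.TL

private theorem s2l : (1.414 : ℝ) ≤ √2 := Real.le_sqrt_of_sq_le (by norm_num)

private theorem s2u : √2 ≤ (1.415 : ℝ) := Real.sqrt_le_iff.mpr ⟨by norm_num, by norm_num⟩

private theorem gk_z (t : ℝ) : gk t = Real.exp (-(Real.pi * t ^ 2 / 2)) -
    (1 + √2) * Real.exp (-(Real.pi * t ^ 2 / 2)) ^ 2 +
    √2 * Real.exp (-(Real.pi * t ^ 2 / 2)) ^ 4 := by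
  unfold gk
  rw [← Real.exp_nat_mul, ← Real.exp_nat_mul]
  have h1 : ((2 : ℕ) : ℝ) * -(Real.pi * t ^ 2 / 2) = -(Real.pi * t ^ 2) := by push_cast; ring
  have h2 : ((4 : ℕ) : ℝ) * -(Real.pi * t ^ 2 / 2) = -(2 * Real.pi * t ^ 2) := by push_cast; ring
  rw [h1, h2]

private theorem z_pos (t : ℝ) : 0 < Real.exp (-(Real.pi * t ^ 2 / 2)) := Real.exp_pos _

private theorem z_le (t : ℝ) : Real.exp (-(Real.pi * t ^ 2 / 2)) ≤ 1 := by
  rw [Real.exp_le_one_iff]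
  have := Real.pi_pos
  have : 0 ≤ Real.pi * t ^ 2 / 2 := by positivity
  linarith

theorem gk_abs (t : ℝ) : |gk t| ≤ 6 * Real.exp (-(Real.pi * t ^ 2 / 2)) := by
  rw [gk_z]
  obtain ⟨z, hz⟩ : ∃ z, z = Real.exp (-(Real.pi * t ^ 2 / 2)) := ⟨_, rfl⟩
  have h0 := z_pos t
  have h1 := z_le t
  rw [← hz] at h0 h1 ⊢
  have hl := s2l
  have hu := s2u
  have h2 : z ^ 2 ≤ z := by nlinarith
  have h4 : z ^ 4 ≤ z := by
    have : z ^ 4 = (z ^ 2) ^ 2 := by ring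
    nlinarith [sq_nonneg z]
  have h20 : 0 ≤ z ^ 2 := by positivity
  have h40 : 0 ≤ z ^ 4 := by positivity
  rw [abs_le]
  constructor
  · nlinarith
  · nlinarith

private theorem z_le4 (t : ℝ) (ht : 0 < t) : Real.exp (-(Real.pi * t ^ 2 / 2)) ≤ 1 / t ^ 4 := by
  have hpi := Real.pi_gt_three
  rw [Real.exp_neg, ← one_div]
  refine one_div_le_one_div_of_le (by positivity) ?_
  have h1 : (Real.pi * t ^ 2 / 2) ^ 2 / 2 ≤ Real.exp (Real.pi * t ^ 2 / 2) := by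
    have := Real.quadratic_le_exp_of_nonneg (show 0 ≤ Real.pi * t ^ 2 / 2 by positivity)
    have h0 : 0 ≤ Real.pi * t ^ 2 / 2 := by positivity
    linarith
  refine le_trans ?_ h1
  have h2 : (Real.pi * t ^ 2 / 2) ^ 2 / 2 = (Real.pi ^ 2 / 8) * t ^ 4 := by ring
  rw [h2]
  have h3 : (1 : ℝ) ≤ Real.pi ^ 2 / 8 := by nlinarith
  have h4 : 0 ≤ t ^ 4 := by positivity
  nlinarith

theorem gk_abs4 (t : ℝ) (ht : 0 < t) : |gk t| ≤ 6 / t ^ 4 := by
  refine le_trans (gk_abs t) ?_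
  have h := z_le4 t ht
  calc 6 * Real.exp (-(Real.pi * t ^ 2 / 2)) ≤ 6 * (1 / t ^ 4) := by linarith
    _ = 6 / t ^ 4 := by ring

/-- the derivative -/
private noncomputable def gd (t : ℝ) : ℝ :=
  Real.exp (-(Real.pi * t ^ 2 / 2)) * (-(Real.pi * t)) -
    (1 + √2) * (Real.exp (-(Real.pi * t ^ 2)) * (-(2 * Real.pi * t))) +
    √2 * (Real.exp (-(2 * Real.pi * t ^ 2)) * (-(4 * Real.pi * t)))

private theorem gk_der (t : ℝ) : HasDerivAt gk (gd t) t := by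
  have hp : HasDerivAt (fun t : ℝ => t ^ 2) (2 * t) t := by
    have := hasDerivAt_pow 2 t
    simpa using this
  have h1 : HasDerivAt (fun t : ℝ => Real.exp (-(Real.pi * t ^ 2 / 2)))
      (Real.exp (-(Real.pi * t ^ 2 / 2)) * (-(Real.pi * t))) t := by
    have h := ((hp.const_mul Real.pi).div_const 2).neg
    have h' : -(Real.pi * (2 * t) / 2) = -(Real.pi * t) := by ring
    rw [h'] at h
    exact h.exp
  have h2 : HasDerivAt (fun t : ℝ => Real.exp (-(Real.pi * t ^ 2)))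
      (Real.exp (-(Real.pi * t ^ 2)) * (-(2 * Real.pi * t))) t := by
    have h := (hp.const_mul Real.pi).neg
    have h' : -(Real.pi * (2 * t)) = -(2 * Real.pi * t) := by ring
    rw [h'] at h
    exact h.exp
  have h3 : HasDerivAt (fun t : ℝ => Real.exp (-(2 * Real.pi * t ^ 2)))
      (Real.exp (-(2 * Real.pi * t ^ 2)) * (-(4 * Real.pi * t))) t := by
    have h := (hp.const_mul (2 * Real.pi)).neg
    have h' : -(2 * Real.pi * (2 * t)) = -(4 * Real.pi * t) := by ring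
    rw [h'] at h
    exact h.exp
  exact (h1.sub (h2.const_mul (1 + √2))).add (h3.const_mul √2)

private theorem gd_abs (t : ℝ) (ht : 0 ≤ t) :
    |gd t| ≤ 100 * t * Real.exp (-(Real.pi * t ^ 2 / 2)) := by
  have h1 : Real.exp (-(Real.pi * t ^ 2)) = Real.exp (-(Real.pi * t ^ 2 / 2)) ^ 2 := by
    rw [← Real.exp_nat_mul]
    congr 1
    push_cast; ring
  have h2 : Real.exp (-(2 * Real.pi * t ^ 2)) = Real.exp (-(Real.pi * t ^ 2 / 2)) ^ 4 := by
    rw [← Real.exp_nat_mul]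
    congr 1
    push_cast; ring
  unfold gd
  rw [h1, h2]
  obtain ⟨z, hz⟩ : ∃ z, z = Real.exp (-(Real.pi * t ^ 2 / 2)) := ⟨_, rfl⟩
  have h0 := z_pos t
  have h1 := z_le t
  rw [← hz] at h0 h1 ⊢
  have hl := s2l
  have hu := s2u
  have hz2 : z ^ 2 ≤ z := by nlinarith
  have hz4 : z ^ 4 ≤ z := by
    have : z ^ 4 = (z ^ 2) ^ 2 := by ring
    nlinarith [sq_nonneg z]
  have h20 : 0 ≤ z ^ 2 := by positivity
  have h40 : 0 ≤ z ^ 4 := by positivity
  have he : z * -(Real.pi * t) - (1 + √2) * (z ^ 2 * -(2 * Real.pi * t)) +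
      √2 * (z ^ 4 * -(4 * Real.pi * t)) =
      (Real.pi * t) * (-z + 2 * (1 + √2) * z ^ 2 - 4 * √2 * z ^ 4) := by ring
  rw [he, abs_mul, abs_of_nonneg (by have := Real.pi_pos; positivity)]
  have hb : |-z + 2 * (1 + √2) * z ^ 2 - 4 * √2 * z ^ 4| ≤ 12 * z := by
    rw [abs_le]
    constructor
    · nlinarith
    · nlinarith
  have hpi : Real.pi ≤ 3.15 := Real.pi_lt_d2.le
  calc Real.pi * t * |-z + 2 * (1 + √2) * z ^ 2 - 4 * √2 * z ^ 4|
      ≤ Real.pi * t * (12 * z) := mul_le_mul_of_nonneg_left hb (by have := Real.pi_pos; positivity)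
    _ ≤ 3.15 * t * (12 * z) := by gcongr
    _ ≤ 100 * t * z := by nlinarith [mul_nonneg ht h0.le]

private theorem gk_mv (a b C : ℝ) (hab : a ≤ b) (hC : ∀ t, a ≤ t → t ≤ b → |gd t| ≤ C) :
    |gk b - gk a| ≤ C * (b - a) := by
  have h := (convex_Icc a b).norm_image_sub_le_of_norm_hasDerivWithin_le (f := gk) (f' := gd)
    (C := C) (fun t _ => (gk_der t).hasDerivWithinAt)
    (fun t ht => by rw [Real.norm_eq_abs]; exact hC t ht.1 ht.2)
    (Set.left_mem_Icc.mpr hab) (Set.right_mem_Icc.mpr hab)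
  rw [Real.norm_eq_abs, Real.norm_eq_abs, abs_of_nonneg (by linarith : 0 ≤ b - a)] at h
  exact h

theorem gk_lip (a b : ℝ) (ha : 0 < a) (hab : a ≤ b) : |gk b - gk a| ≤ 100 * (b - a) / a ^ 3 := by
  have h := gk_mv a b (100 / a ^ 3) hab (by
    intro t h1 h2
    have ht : 0 < t := lt_of_lt_of_le ha h1
    refine le_trans (gd_abs t ht.le) ?_
    have h3 := z_le4 t ht
    calc 100 * t * Real.exp (-(Real.pi * t ^ 2 / 2)) ≤ 100 * t * (1 / t ^ 4) :=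
          mul_le_mul_of_nonneg_left h3 (by positivity)
      _ = 100 / t ^ 3 := by field_simp
      _ ≤ 100 / a ^ 3 := by gcongr)
  calc |gk b - gk a| ≤ 100 / a ^ 3 * (b - a) := h
    _ = 100 * (b - a) / a ^ 3 := by ring

theorem gk_lip' (a b : ℝ) (ha : 0 < a) (hab : a ≤ b) : |gk b - gk a| ≤ 100 * (b - a) * b := by
  have h := gk_mv a b (100 * b) hab (by
    intro t h1 h2
    have ht : 0 < t := lt_of_lt_of_le ha h1
    refine le_trans (gd_abs t ht.le) ?_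
    have h3 := z_le t
    calc 100 * t * Real.exp (-(Real.pi * t ^ 2 / 2)) ≤ 100 * t * 1 :=
          mul_le_mul_of_nonneg_left h3 (by positivity)
      _ ≤ 100 * b := by linarith)
  calc |gk b - gk a| ≤ 100 * b * (b - a) := h
    _ = 100 * (b - a) * b := by ring

private theorem exp_pih : Real.exp (-(Real.pi / 2)) ≤ 1 / 4 := by
  rw [Real.exp_neg, ← one_div]
  refine one_div_le_one_div_of_le (by norm_num) ?_
  have h1 : (3 : ℝ) / 2 ≤ Real.pi / 2 := by linarith [Real.pi_gt_three]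
  refine le_trans ?_ (Real.exp_le_exp.mpr h1)
  have h2 : Real.exp (3 / 2) ^ 2 = Real.exp 1 ^ 3 := by
    rw [← Real.exp_nat_mul, ← Real.exp_nat_mul]
    norm_num
  have h3 : (2.7 : ℝ) ≤ Real.exp 1 := by linarith [Real.exp_one_gt_d9]
  have h4 : (2.7 : ℝ) ^ 3 ≤ Real.exp 1 ^ 3 := by gcongr
  have h5 : 0 < Real.exp (3 / 2) := Real.exp_pos _
  nlinarith

private theorem z_q {t : ℝ} (ht : 1 ≤ t) : Real.exp (-(Real.pi * t ^ 2 / 2)) ≤ 1 / 4 := by
  refine le_trans (Real.exp_le_exp.mpr ?_) exp_pih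
  have h1 : (1 : ℝ) ≤ t ^ 2 := by nlinarith
  have := Real.pi_pos
  nlinarith

theorem gk_ge {t : ℝ} (ht : 1 ≤ t) : Real.exp (-(Real.pi * t ^ 2 / 2)) / 4 ≤ gk t := by
  rw [gk_z]
  obtain ⟨z, hz⟩ : ∃ z, z = Real.exp (-(Real.pi * t ^ 2 / 2)) := ⟨_, rfl⟩
  have h0 := z_pos t
  have h1 := z_q ht
  rw [← hz] at h0 h1 ⊢
  have hl := s2l
  have hu := s2u
  have h40 : 0 ≤ √2 * z ^ 4 := by positivity
  have h2 : (1 + √2) * z ^ 2 ≤ 2.415 * z ^ 2 := by
    have : 0 ≤ z ^ 2 := by positivity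
    nlinarith
  nlinarith

private theorem gk_le {t : ℝ} (_ht : 1 ≤ t) : gk t ≤ Real.exp (-(Real.pi * t ^ 2 / 2)) := by
  rw [gk_z]
  obtain ⟨z, hz⟩ : ∃ z, z = Real.exp (-(Real.pi * t ^ 2 / 2)) := ⟨_, rfl⟩
  have h0 := z_pos t
  have h1 := z_le t
  rw [← hz] at h0 h1 ⊢
  have hl := s2l
  have h4 : z ^ 4 ≤ z ^ 2 := by
    have h5 : z ^ 4 = (z ^ 2) ^ 2 := by ring
    have h6 : z ^ 2 ≤ 1 := by nlinarith
    nlinarith [sq_nonneg z]
  have h20 : 0 ≤ z ^ 2 := by positivity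
  nlinarith

theorem gk_sum {t : ℝ} (ht : 0 < t) : Summable fun m : ℕ => gk (((m : ℝ) + 1) * t) := by
  have h0 : Summable fun m : ℕ => (6 / t ^ 4) * (1 / ((m : ℝ) + 1) ^ 4) := by
    refine Summable.mul_left _ ?_
    have h := (summable_nat_add_iff (f := fun m : ℕ => 1 / (m : ℝ) ^ 4) 1).mpr
      (Real.summable_one_div_nat_pow.mpr (by norm_num))
    refine h.congr fun m => ?_
    push_cast
    rfl
  refine Summable.of_norm_bounded h0 fun m => ?_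
  rw [Real.norm_eq_abs]
  refine le_trans (gk_abs4 _ (by positivity)) (le_of_eq ?_)
  have hm : ((m : ℝ) + 1) ≠ 0 := by positivity
  have ht' : t ≠ 0 := ht.ne'
  field_simp

private theorem th_sum {a : ℝ} (ha : 0 < a) :
    Summable fun m : ℕ => Real.exp (-Real.pi * a * ((m : ℝ) + 1) ^ 2) := by
  have h0 : Summable fun m : ℕ => Real.exp (-(Real.pi * a)) ^ m :=
    summable_geometric_of_lt_one (Real.exp_pos _).le (by
      rw [Real.exp_lt_one_iff]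
      have := Real.pi_pos
      have : 0 < Real.pi * a := by positivity
      linarith)
  refine Summable.of_nonneg_of_le (fun m => (Real.exp_pos _).le) (fun m => ?_) h0
  rw [← Real.exp_nat_mul]
  refine Real.exp_le_exp.mpr ?_
  have h1 : 0 < Real.pi * a := by have := Real.pi_pos; positivity
  have hm : (0 : ℝ) ≤ m := Nat.cast_nonneg m
  nlinarith [mul_nonneg h1.le hm, mul_nonneg h1.le (mul_nonneg hm hm)]

private noncomputable def S (a : ℝ) : ℝ := ∑' m : ℕ, Real.exp (-Real.pi * a * ((m : ℝ) + 1) ^ 2)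

private theorem th_int {a : ℝ} (ha : 0 < a) :
    ∑' n : ℤ, Real.exp (-Real.pi * a * (n : ℝ) ^ 2) = 1 + 2 * S a := by
  have h1 : Summable fun n : ℕ => Real.exp (-Real.pi * a * (((n : ℕ) : ℤ) : ℝ) ^ 2) := by
    have h := th_sum ha
    have h' := (summable_nat_add_iff (f := fun n : ℕ =>
      Real.exp (-Real.pi * a * (((n : ℕ) : ℤ) : ℝ) ^ 2)) 1).mp (by
        refine h.congr fun m => ?_
        push_cast
        rfl)
    exact h'
  have h2 : Summable fun n : ℕ => Real.exp (-Real.pi * a * ((-((n : ℤ) + 1) : ℤ) : ℝ) ^ 2) := by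
    refine (th_sum ha).congr fun m => ?_
    push_cast
    congr 1
    ring
  have h3 := tsum_of_nat_of_neg_add_one (f := fun n : ℤ => Real.exp (-Real.pi * a * (n : ℝ) ^ 2))
    h1 h2
  rw [h3]
  have h4 : ∑' n : ℕ, Real.exp (-Real.pi * a * (((n : ℕ) : ℤ) : ℝ) ^ 2) = 1 + S a := by
    rw [h1.tsum_eq_zero_add]
    unfold S
    congr 1
    · norm_num
    · refine tsum_congr fun m => ?_
      push_cast
      rfl
  have h5 : ∑' n : ℕ, Real.exp (-Real.pi * a * ((-((n : ℤ) + 1) : ℤ) : ℝ) ^ 2) = S a := by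
    unfold S
    refine tsum_congr fun m => ?_
    push_cast
    congr 1
    ring
  rw [h4, h5]
  ring

private theorem th_fe {a : ℝ} (ha : 0 < a) : 1 + 2 * S a = 1 / √a * (1 + 2 * S (1 / a)) := by
  have h := Real.tsum_exp_neg_mul_int_sq ha
  rw [th_int ha] at h
  rw [h, ← Real.sqrt_eq_rpow]
  congr 1
  rw [← th_int (by positivity : 0 < 1 / a)]
  refine tsum_congr fun n => ?_
  congr 1
  ring

private theorem Gk_S {t : ℝ} (ht : 0 < t) :
    Gk t = S (t ^ 2 / 2) - (1 + √2) * S (t ^ 2) + √2 * S (2 * t ^ 2) := by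
  unfold Gk S
  have h1 := th_sum (show 0 < t ^ 2 / 2 by positivity)
  have h2 := th_sum (show 0 < t ^ 2 by positivity)
  have h3 := th_sum (show 0 < 2 * t ^ 2 by positivity)
  rw [← tsum_mul_left, ← tsum_mul_left, ← h1.tsum_sub (h2.mul_left _),
    ← (h1.sub (h2.mul_left _)).tsum_add (h3.mul_left _)]
  refine tsum_congr fun m => ?_
  unfold gk
  have e1 : -(Real.pi * (((m : ℝ) + 1) * t) ^ 2 / 2) =
      -Real.pi * (t ^ 2 / 2) * ((m : ℝ) + 1) ^ 2 := by ring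
  have e2 : -(Real.pi * (((m : ℝ) + 1) * t) ^ 2) =
      -Real.pi * t ^ 2 * ((m : ℝ) + 1) ^ 2 := by ring
  have e3 : -(2 * Real.pi * (((m : ℝ) + 1) * t) ^ 2) =
      -Real.pi * (2 * t ^ 2) * ((m : ℝ) + 1) ^ 2 := by ring
  rw [e1, e2, e3]

theorem Gk_inv {t : ℝ} (ht : 0 < t) : Gk t = Gk (1 / t) / t := by
  rw [Gk_S ht, Gk_S (show 0 < 1 / t by positivity)]
  have h1 := th_fe (show 0 < t ^ 2 / 2 by positivity)
  have h2 := th_fe (show 0 < t ^ 2 by positivity)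
  have h3 := th_fe (show 0 < 2 * t ^ 2 by positivity)
  have ht0 : t ≠ 0 := ht.ne'
  have hs : √2 * √2 = 2 := Real.mul_self_sqrt (by norm_num)
  have hs0 : √2 ≠ 0 := by positivity
  have q1 : √(t ^ 2 / 2) = t / √2 := by
    rw [Real.sqrt_div (by positivity), Real.sqrt_sq ht.le]
  have q2 : √(t ^ 2) = t := Real.sqrt_sq ht.le
  have q3 : √(2 * t ^ 2) = √2 * t := by
    rw [Real.sqrt_mul (by norm_num), Real.sqrt_sq ht.le]
  have a1 : 1 / (t ^ 2 / 2) = 2 * (1 / t) ^ 2 := by field_simp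
  have a2 : 1 / t ^ 2 = (1 / t) ^ 2 := by field_simp
  have a3 : 1 / (2 * t ^ 2) = (1 / t) ^ 2 / 2 := by field_simp
  rw [q1, a1] at h1
  rw [q2, a2] at h2
  rw [q3, a3] at h3
  obtain ⟨A, hA⟩ : ∃ A, A = S (t ^ 2 / 2) := ⟨_, rfl⟩
  obtain ⟨B, hB⟩ : ∃ B, B = S (t ^ 2) := ⟨_, rfl⟩
  obtain ⟨C, hC⟩ : ∃ C, C = S (2 * t ^ 2) := ⟨_, rfl⟩
  obtain ⟨A', hA'⟩ : ∃ A', A' = S ((1 / t) ^ 2 / 2) := ⟨_, rfl⟩
  obtain ⟨B', hB'⟩ : ∃ B', B' = S ((1 / t) ^ 2) := ⟨_, rfl⟩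
  obtain ⟨C', hC'⟩ : ∃ C', C' = S (2 * (1 / t) ^ 2) := ⟨_, rfl⟩
  rw [← hA, ← hC'] at h1
  rw [← hB, ← hB'] at h2
  rw [← hC, ← hA'] at h3
  rw [← hA, ← hB, ← hC, ← hA', ← hB', ← hC']
  have k1 : 1 / (t / √2) = √2 / t := by field_simp
  have k3 : 1 / (√2 * t) = √2 / (2 * t) := by
    rw [div_eq_div_iff (by positivity) (by positivity)]
    nlinarith
  rw [k1] at h1
  rw [k3] at h3
  have e1 : A = (√2 / t * (1 + 2 * C') - 1) / 2 := by linarith
  have e2 : B = (1 / t * (1 + 2 * B') - 1) / 2 := by linarith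
  have e3 : C = (√2 / (2 * t) * (1 + 2 * A') - 1) / 2 := by linarith
  rw [e1, e2, e3]
  field_simp
  ring_nf
  have hs2 : √2 ^ 2 = 2 := by rw [pow_two]; exact hs
  rw [hs2]
  ring

theorem Gk_le {t : ℝ} (ht : 1 ≤ t) : Gk t ≤ 3 * Real.exp (-(Real.pi * t ^ 2 / 2)) := by
  have h0 : HasSum (fun m : ℕ => Real.exp (-(Real.pi * t ^ 2 / 2)) * (1 / 4 : ℝ) ^ m)
      (Real.exp (-(Real.pi * t ^ 2 / 2)) * (1 - 1 / 4)⁻¹) :=
    (hasSum_geometric_of_lt_one (by norm_num) (by norm_num)).mul_left _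
  have h1 : Gk t ≤ Real.exp (-(Real.pi * t ^ 2 / 2)) * (1 - 1 / 4)⁻¹ := by
    unfold Gk
    refine (gk_sum (by linarith)).tsum_le_of_sum_le ?_
    intro s
    refine le_trans (Finset.sum_le_sum fun m _ => ?_) (sum_le_hasSum s (fun m _ => by positivity) h0)
    have hm : (0 : ℝ) ≤ m := Nat.cast_nonneg m
    have h2 : 1 ≤ ((m : ℝ) + 1) * t := by nlinarith
    refine le_trans (gk_le h2) ?_
    have h3 : Real.exp (-(Real.pi * (((m : ℝ) + 1) * t) ^ 2 / 2)) ≤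
        Real.exp (-(Real.pi * t ^ 2 / 2)) * Real.exp (-(Real.pi / 2)) ^ m := by
      rw [← Real.exp_nat_mul, ← Real.exp_add]
      refine Real.exp_le_exp.mpr ?_
      have hp := Real.pi_pos
      have ht2 : 1 ≤ t ^ 2 := by nlinarith
      have h4 : Real.pi * (m : ℝ) ≤ Real.pi * (((m : ℝ) ^ 2 + 2 * m) * t ^ 2) := by
        refine mul_le_mul_of_nonneg_left ?_ hp.le
        nlinarith [mul_nonneg hm hm, mul_nonneg (mul_nonneg hm hm) (by linarith : 0 ≤ t ^ 2 - 1),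
          mul_nonneg hm (by linarith : 0 ≤ t ^ 2 - 1)]
      nlinarith
    refine le_trans h3 ?_
    refine mul_le_mul_of_nonneg_left ?_ (Real.exp_pos _).le
    exact pow_le_pow_left₀ (Real.exp_pos _).le exp_pih m
  refine le_trans h1 ?_
  have := z_pos t
  norm_num
  linarith

private theorem gk_nn {t : ℝ} (ht : 1 ≤ t) (m : ℕ) : 0 ≤ gk (((m : ℝ) + 1) * t) := by
  have hm : (0 : ℝ) ≤ m := Nat.cast_nonneg m
  have h2 : 1 ≤ ((m : ℝ) + 1) * t := by nlinarith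
  exact le_trans (by positivity) (gk_ge h2)

theorem Gk_ge {t : ℝ} (ht : 1 ≤ t) : Real.exp (-(Real.pi * t ^ 2 / 2)) / 4 ≤ Gk t := by
  refine le_trans (gk_ge ht) ?_
  unfold Gk
  have h := (gk_sum (show 0 < t by linarith)).le_tsum 0 (fun m _ => gk_nn ht m)
  simpa using h

theorem Gk_le' {t : ℝ} (h0 : 0 < t) (ht : t ≤ 1) : Gk t ≤ 3 * Real.exp (-(Real.pi / (2 * t ^ 2))) / t := by
  rw [Gk_inv h0]
  have h1 : 1 ≤ 1 / t := by rw [le_div_iff₀ h0]; linarith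
  have h2 := Gk_le h1
  have h3 : Real.pi * (1 / t) ^ 2 / 2 = Real.pi / (2 * t ^ 2) := by field_simp
  rw [h3] at h2
  exact div_le_div_of_nonneg_right h2 h0.le

theorem Gk_pos {t : ℝ} (ht : 0 < t) : 0 < Gk t := by
  rcases le_total 1 t with h | h
  · exact lt_of_lt_of_le (by positivity) (Gk_ge h)
  · rw [Gk_inv ht]
    have h1 : 1 ≤ 1 / t := by rw [le_div_iff₀ ht]; linarith
    exact div_pos (lt_of_lt_of_le (by positivity) (Gk_ge h1)) ht

/-- bounded -/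
theorem Gk_bd {t : ℝ} (ht : 0 < t) : Gk t ≤ 3 := by
  rcases le_total 1 t with h | h
  · have := Gk_le h
    have := z_le t
    linarith
  · refine le_trans (Gk_le' ht h) ?_
    rw [div_le_iff₀ ht]
    have h1 : Real.exp (-(Real.pi / (2 * t ^ 2))) ≤ t := by
      rw [Real.exp_neg, inv_le_comm₀ (Real.exp_pos _) ht]
      refine le_trans ?_ (Real.add_one_le_exp _)
      have h2 : t⁻¹ ≤ Real.pi / (2 * t ^ 2) := by
        rw [le_div_iff₀ (by positivity)]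
        have h3 : t⁻¹ * (2 * t ^ 2) = 2 * t := by field_simp
        rw [h3]
        linarith [Real.pi_gt_three]
      linarith
    linarith

private theorem Gk_mid1 {t : ℝ} (h1 : 1 ≤ t) (h2 : t ≤ 4) : 1 / 10 ^ 13 ≤ Gk t := by
  refine le_trans ?_ (Gk_ge h1)
  have h3 : Real.exp (-26) ≤ Real.exp (-(Real.pi * t ^ 2 / 2)) := by
    refine Real.exp_le_exp.mpr ?_
    have hpi : Real.pi ≤ 3.15 := Real.pi_lt_d2.le
    have hp := Real.pi_pos
    have h4 : t ^ 2 ≤ 16 := by nlinarith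
    nlinarith
  have h5 : (4 : ℝ) / 10 ^ 13 ≤ Real.exp (-26) := by
    rw [Real.exp_neg, ← one_div, le_div_iff₀ (Real.exp_pos _)]
    have h6 : Real.exp 26 = Real.exp 1 ^ 26 := by
      rw [← Real.exp_nat_mul]
      norm_num
    rw [h6]
    have h7 : Real.exp 1 ^ 26 ≤ (2.72 : ℝ) ^ 26 :=
      pow_le_pow_left₀ (Real.exp_pos _).le (by linarith [Real.exp_one_lt_d9]) 26
    have h8 : (2.72 : ℝ) ^ 26 ≤ 10 ^ 13 / 4 := by norm_num
    calc (4 : ℝ) / 10 ^ 13 * Real.exp 1 ^ 26 ≤ 4 / 10 ^ 13 * (10 ^ 13 / 4) :=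
          mul_le_mul_of_nonneg_left (h7.trans h8) (by norm_num)
      _ = 1 := by norm_num
  linarith

/-- lower bound in the middle -/
theorem Gk_mid {t : ℝ} (h1 : 1 / 2 ≤ t) (h2 : t ≤ 4) : 1 / 10 ^ 13 ≤ Gk t := by
  rcases le_total 1 t with h | h
  · exact Gk_mid1 h h2
  · have ht : 0 < t := by linarith
    rw [Gk_inv ht]
    have h3 : 1 ≤ 1 / t := by rw [le_div_iff₀ ht]; linarith
    have h4 : 1 / t ≤ 4 := by rw [div_le_iff₀ ht]; linarith
    refine le_trans (Gk_mid1 h3 h4) ?_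
    rw [le_div_iff₀ ht]
    have := (Gk_pos (show 0 < 1 / t by positivity)).le
    nlinarith

theorem Gk_lip (a b : ℝ) (ha : 0 < a) (hab : a ≤ b) : |Gk b - Gk a| ≤ 200 * (b - a) / a ^ 3 := by
  have hb : 0 < b := lt_of_lt_of_le ha hab
  have hz : HasSum (fun m : ℕ => 1 / ((m : ℝ) + 1) ^ 2) (Real.pi ^ 2 / 6) := by
    have h := (hasSum_nat_add_iff' (f := fun n : ℕ => (1 : ℝ) / (n : ℝ) ^ 2) 1).mpr hasSum_zeta_two
    simp only [Finset.range_one, Finset.sum_singleton, Nat.cast_zero] at h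
    norm_num at h
    have he : (fun m : ℕ => 1 / ((m : ℝ) + 1) ^ 2) = fun m : ℕ => (((m : ℝ) + 1) ^ 2)⁻¹ := by
      funext m
      rw [one_div]
    rw [he]
    exact h
  have hK : HasSum (fun m : ℕ => 100 * (b - a) / a ^ 3 * (1 / ((m : ℝ) + 1) ^ 2))
      (100 * (b - a) / a ^ 3 * (Real.pi ^ 2 / 6)) := hz.mul_left _
  have hd : Gk b - Gk a = ∑' m : ℕ, (gk (((m : ℝ) + 1) * b) - gk (((m : ℝ) + 1) * a)) := by
    unfold Gk
    exact ((gk_sum hb).tsum_sub (gk_sum ha)).symm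
  have hn : ∀ m : ℕ, ‖gk (((m : ℝ) + 1) * b) - gk (((m : ℝ) + 1) * a)‖ ≤
      100 * (b - a) / a ^ 3 * (1 / ((m : ℝ) + 1) ^ 2) := by
    intro m
    have hm : (0 : ℝ) < (m : ℝ) + 1 := by positivity
    rw [Real.norm_eq_abs]
    refine le_trans (gk_lip _ _ (by positivity) (mul_le_mul_of_nonneg_left hab hm.le))
      (le_of_eq ?_)
    have ha0 : a ≠ 0 := ha.ne'
    have hm0 : (m : ℝ) + 1 ≠ 0 := hm.ne'
    field_simp
  have h1 := tsum_of_norm_bounded hK hn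
  rw [hd, ← Real.norm_eq_abs]
  refine le_trans h1 ?_
  have h2 : Real.pi ^ 2 / 6 ≤ 2 := by
    have := Real.pi_lt_d2
    have := Real.pi_pos
    nlinarith
  have h3 : 0 ≤ 100 * (b - a) / a ^ 3 := by
    have : 0 ≤ b - a := by linarith
    positivity
  calc 100 * (b - a) / a ^ 3 * (Real.pi ^ 2 / 6) ≤ 100 * (b - a) / a ^ 3 * 2 :=
        mul_le_mul_of_nonneg_left h2 h3
    _ = 200 * (b - a) / a ^ 3 := by ring

end Pool.Agent.H24.TL
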