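import Pool.Agent.H24.TL.Trg

/-!
# [H24 TL PCL] the one sided hypothesis and a nonnegative Lipschitz weight

PROOF. `n_0 = A`, `n_(i+1) = n_i + ⌈n_i^θ⌉₊` as long as `n_i < B`. `s ET n H ≥ s log n EI n H - 2H²/n ≥ -(B^δ log B + 8 B^(2θ)/A)` (`trg`, `H ≤ 2 n^θ`),
`s ∑_{n<j≤n+H} bb j R j = R n · s ET n H + s ∑ bb j (R j - R n) ≥ -M (...) - D H · H (1 + log (3B))`. At most `2B/A^θ` pieces
(`H ≥ A^θ`; the last `n_i ≤ B + 2 B^θ ≤ 2B`). Induction on the number of pieces.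
-/

set_option autoImplicit false

namespace Pool.Agent.H24.TL

open Finset Pool.Agent.H48.WN Pool.Agent.H99.GB

private theorem bb_abs {j : ℕ} {b : ℝ} (hj : 1 ≤ j) (hb : (j : ℝ) ≤ b) : |bb j| ≤ 1 + Real.log b := by
  have hj1 : (1 : ℝ) ≤ j := by exact_mod_cast hj
  have h1 : 0 ≤ Real.log j := Real.log_nonneg hj1
  have h2 : Real.log j ≤ Real.log b := Real.log_le_log (by linarith) hb
  unfold bb Pool.Agent.H67.VS.pl
  split_ifs with h
  · rw [abs_le]
    constructor <;> linarith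
  · rw [abs_le]
    constructor <;> linarith

private theorem s_abs {s x : ℝ} (hs : s = 1 ∨ s = -1) : -|x| ≤ s * x := by
  rcases hs with h | h
  · rw [h, one_mul]
    exact neg_abs_le x
  · rw [h, neg_one_mul]
    exact neg_le_neg (le_abs_self x)

/-- one piece -/
private theorem piece (s θ δ : ℝ) (hs : s = 1 ∨ s = -1) (hθ0 : 0 < θ) (hδ0 : 0 ≤ δ) (n A H : ℕ)
    (B D M : ℝ) (R : ℕ → ℝ) (hn3 : 3 ≤ n) (hA1 : 1 ≤ A) (hAn : A ≤ n) (hnB : (n : ℝ) ≤ B)
    (hD : 0 ≤ D) (_hM : 0 ≤ M) (hone : -((n : ℝ) ^ δ) ≤ s * EI n H) (hR : 0 ≤ R n ∧ R n ≤ M)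
    (hL : ∀ j : ℕ, n ≤ j → |R j - R n| ≤ D * ((j : ℝ) - n)) (hH2 : (H : ℝ) ≤ 2 * (n : ℝ) ^ θ)
    (hH3 : (n : ℝ) + H ≤ 3 * B) :
    -(M * (B ^ δ * Real.log B + 8 * B ^ (2 * θ) / A) +
      4 * D * B ^ (2 * θ) * (1 + Real.log (3 * B))) ≤ s * ∑ j ∈ Ioc n (n + H), bb j * R j := by
  have hn3' : (3 : ℝ) ≤ n := by exact_mod_cast hn3
  have hn0 : (0 : ℝ) < n := by linarith
  have hB0 : 0 < B := by linarith
  have hA1' : (1 : ℝ) ≤ A := by exact_mod_cast hA1
  have hA0 : (0 : ℝ) < A := by linarith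
  have hAn' : (A : ℝ) ≤ n := by exact_mod_cast hAn
  have hH0 : (0 : ℝ) ≤ H := Nat.cast_nonneg _
  have hnt : 0 < (n : ℝ) ^ θ := Real.rpow_pos_of_pos hn0 θ
  have hHsq : (H : ℝ) ^ 2 ≤ 4 * B ^ (2 * θ) := by
    have h1 : (H : ℝ) ^ 2 ≤ (2 * (n : ℝ) ^ θ) ^ 2 := pow_le_pow_left₀ hH0 hH2 2
    have h2 : (2 * (n : ℝ) ^ θ) ^ 2 = 4 * (n : ℝ) ^ (2 * θ) := by
      rw [mul_pow, mul_comm 2 θ, Real.rpow_mul hn0.le, Real.rpow_two]
      norm_num
    have h3 : (n : ℝ) ^ (2 * θ) ≤ B ^ (2 * θ) := Real.rpow_le_rpow hn0.le hnB (by linarith)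
    linarith
  -- the sum
  have e1 : ∑ j ∈ Ioc n (n + H), bb j * R j = R n * ET n H + ∑ j ∈ Ioc n (n + H), bb j * (R j - R n) := by
    rw [et_bb, mul_sum, ← sum_add_distrib]
    refine sum_congr rfl fun j _ => ?_
    ring
  -- the first term
  have e2 := trg n H hn3
  have hlog : 0 ≤ Real.log n := Real.log_nonneg (by linarith)
  have e3 : -(B ^ δ * Real.log B + 8 * B ^ (2 * θ) / A) ≤ s * ET n H := by
    have h1 : -(2 * ((H : ℝ) ^ 2 / n)) ≤ s * (ET n H - Real.log n * EI n H) := by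
      have := s_abs (x := ET n H - Real.log n * EI n H) hs
      linarith
    have h2 : Real.log n * -((n : ℝ) ^ δ) ≤ Real.log n * (s * EI n H) :=
      mul_le_mul_of_nonneg_left hone hlog
    have h3 : (n : ℝ) ^ δ * Real.log n ≤ B ^ δ * Real.log B := by
      refine mul_le_mul (Real.rpow_le_rpow hn0.le hnB hδ0) (Real.log_le_log hn0 hnB) hlog ?_
      exact (Real.rpow_pos_of_pos hB0 δ).le
    have h4 : (H : ℝ) ^ 2 / n ≤ 4 * B ^ (2 * θ) / A :=
      div_le_div₀ (by positivity) hHsq hA0 hAn'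
    have h5 : 8 * B ^ (2 * θ) / A = 2 * (4 * B ^ (2 * θ) / A) := by ring
    rw [h5]
    nlinarith
  have e4 : -(M * (B ^ δ * Real.log B + 8 * B ^ (2 * θ) / A)) ≤ s * (R n * ET n H) := by
    have hE : 0 ≤ B ^ δ * Real.log B + 8 * B ^ (2 * θ) / A := by
      have : 0 ≤ Real.log B := Real.log_nonneg (by linarith)
      positivity
    have h1 : R n * -(B ^ δ * Real.log B + 8 * B ^ (2 * θ) / A) ≤ R n * (s * ET n H) :=
      mul_le_mul_of_nonneg_left e3 hR.1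
    have h2 : R n * (B ^ δ * Real.log B + 8 * B ^ (2 * θ) / A) ≤
        M * (B ^ δ * Real.log B + 8 * B ^ (2 * θ) / A) := mul_le_mul_of_nonneg_right hR.2 hE
    nlinarith
  -- the second term
  have hlB : 0 ≤ 1 + Real.log (3 * B) := by
    have : 0 ≤ Real.log (3 * B) := Real.log_nonneg (by linarith)
    linarith
  have e5 : |∑ j ∈ Ioc n (n + H), bb j * (R j - R n)| ≤ 4 * D * B ^ (2 * θ) * (1 + Real.log (3 * B)) := by
    refine (abs_sum_le_sum_abs _ _).trans ?_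
    calc ∑ j ∈ Ioc n (n + H), |bb j * (R j - R n)| ≤ ∑ j ∈ Ioc n (n + H), (1 + Real.log (3 * B)) * (D * H) := by
          refine sum_le_sum fun j hj => ?_
          rw [mem_Ioc] at hj
          have hj1 : (n : ℝ) < j := by exact_mod_cast hj.1
          have hj2 : (j : ℝ) ≤ n + H := by exact_mod_cast hj.2
          rw [abs_mul]
          refine mul_le_mul (bb_abs (by omega) (by linarith)) ?_ (abs_nonneg _) hlB
          refine (hL j hj.1.le).trans (mul_le_mul_of_nonneg_left (by linarith) hD)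
      _ = (D * (1 + Real.log (3 * B))) * (H : ℝ) ^ 2 := by
          rw [sum_const, Nat.card_Ioc, nsmul_eq_mul, Nat.add_sub_cancel_left]
          ring
      _ ≤ (D * (1 + Real.log (3 * B))) * (4 * B ^ (2 * θ)) :=
          mul_le_mul_of_nonneg_left hHsq (mul_nonneg hD hlB)
      _ = 4 * D * B ^ (2 * θ) * (1 + Real.log (3 * B)) := by ring
  rw [e1, mul_add]
  have e6 := s_abs (x := ∑ j ∈ Ioc n (n + H), bb j * (R j - R n)) hs
  linarith

theorem pcl (s θ δ : ℝ) (hs : s = 1 ∨ s = -1) (hθ0 : 0 < θ) (hθ1 : θ < 1) (hδ0 : 0 ≤ δ) : ∃ x0 : ℝ,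
    ∀ (A : ℕ) (B D M : ℝ) (R : ℕ → ℝ), x0 ≤ A → (A : ℝ) ≤ B → 0 ≤ D → 0 ≤ M → OneW s θ δ A B →
      (∀ j : ℕ, A ≤ j → 0 ≤ R j ∧ R j ≤ M) →
      (∀ i j : ℕ, A ≤ i → i ≤ j → |R j - R i| ≤ D * ((j : ℝ) - i)) →
      ∃ N : ℕ, B ≤ N ∧ (N : ℝ) ≤ 2 * B ∧
        -((2 * B / (A : ℝ) ^ θ) * (M * (B ^ δ * Real.log B + 8 * B ^ (2 * θ) / A) +
          4 * D * B ^ (2 * θ) * (1 + Real.log (3 * B)))) ≤ s * ∑ j ∈ Ioc A N, bb j * R j := by
  refine ⟨max 3 ((2 : ℝ) ^ (1 / (1 - θ))), ?_⟩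
  intro A B D M R hA hAB hD hM hone hR hL
  have hA3 : (3 : ℝ) ≤ A := (le_max_left _ _).trans hA
  have hA2 : (2 : ℝ) ^ (1 / (1 - θ)) ≤ A := (le_max_right _ _).trans hA
  have hA3' : 3 ≤ A := by exact_mod_cast hA3
  have hA0 : (0 : ℝ) < A := by linarith
  have hB0 : 0 < B := by linarith
  have hAt : 0 < (A : ℝ) ^ θ := Real.rpow_pos_of_pos hA0 θ
  obtain ⟨K, hK⟩ : ∃ K : ℝ, K = M * (B ^ δ * Real.log B + 8 * B ^ (2 * θ) / A) +
          4 * D * B ^ (2 * θ) * (1 + Real.log (3 * B)) := ⟨_, rfl⟩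
  have hK0 : 0 ≤ K := by
    rw [hK]
    have h1 : 0 ≤ Real.log B := Real.log_nonneg (by linarith)
    have h2 : 0 ≤ Real.log (3 * B) := Real.log_nonneg (by linarith)
    positivity
  have key : ∀ m n : ℕ, ⌈B⌉₊ - n ≤ m → A ≤ n → (n : ℝ) ≤ 2 * B →
      ∃ N : ℕ, n ≤ N ∧ B ≤ N ∧ (N : ℝ) ≤ 2 * B ∧
        -((((N : ℝ) - n) / (A : ℝ) ^ θ) * K) ≤ s * ∑ j ∈ Ioc n N, bb j * R j := by
    intro m
    induction m with
    | zero =>
      intro n hm hAn hn2
      refine ⟨n, le_rfl, ?_, hn2, ?_⟩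
      · have h1 : ⌈B⌉₊ ≤ n := by omega
        exact Nat.ceil_le.mp h1
      · simp
    | succ m ih =>
      intro n hm hAn hn2
      by_cases hBn : B ≤ n
      · refine ⟨n, le_rfl, hBn, hn2, ?_⟩
        simp
      · push Not at hBn
        have hnA : (A : ℝ) ≤ n := by exact_mod_cast hAn
        have hn0 : (0 : ℝ) < n := by linarith
        have hnt1 : 1 ≤ (n : ℝ) ^ θ := Real.one_le_rpow (by linarith) hθ0.le
        have hntn : 2 * (n : ℝ) ^ θ ≤ n := by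
          have h1 : (2 : ℝ) ≤ (n : ℝ) ^ (1 - θ) := by
            have h2 : (2 : ℝ) = ((2 : ℝ) ^ (1 / (1 - θ))) ^ (1 - θ) := by
              rw [← Real.rpow_mul (by norm_num), one_div_mul_cancel (by linarith), Real.rpow_one]
            rw [h2]
            exact Real.rpow_le_rpow (by positivity) (hA2.trans hnA) (by linarith)
          calc 2 * (n : ℝ) ^ θ ≤ (n : ℝ) ^ (1 - θ) * (n : ℝ) ^ θ :=
                mul_le_mul_of_nonneg_right h1 (by linarith)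
            _ = n := by
                rw [← Real.rpow_add hn0]
                have : 1 - θ + θ = 1 := by ring
                rw [this, Real.rpow_one]
        obtain ⟨H, hH⟩ : ∃ H : ℕ, H = ⌈(n : ℝ) ^ θ⌉₊ := ⟨_, rfl⟩
        have hH1 : (n : ℝ) ^ θ ≤ H := by rw [hH]; exact Nat.le_ceil _
        have hH2 : (H : ℝ) ≤ 2 * (n : ℝ) ^ θ := by
          have h1 : (H : ℝ) < (n : ℝ) ^ θ + 1 := by
            rw [hH]
            exact Nat.ceil_lt_add_one (by linarith)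
          linarith
        have hHpos : 1 ≤ H := by
          have h1 : (0 : ℝ) < H := by linarith
          exact_mod_cast h1
        have hn'2 : ((n + H : ℕ) : ℝ) ≤ 2 * B := by
          push_cast
          linarith
        have hcl : n < ⌈B⌉₊ := Nat.lt_ceil.mpr hBn
        obtain ⟨N, hN1, hN2, hN3, hN4⟩ := ih (n + H) (by omega) (by omega) hn'2
        refine ⟨N, by omega, hN2, hN3, ?_⟩
        have hp := piece s θ δ hs hθ0 hδ0 n A H B D M R (by omega) (by omega) hAn hBn.le hD hM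
          (hone n H hnA hBn.le hH1 hH2) (hR n hAn) (fun j hj => hL n j hAn hj) hH2 (by
            push_cast at hn'2
            linarith)
        rw [← hK] at hp
        have hsum : ∑ j ∈ Ioc n N, bb j * R j = ∑ j ∈ Ioc n (n + H), bb j * R j +
            ∑ j ∈ Ioc (n + H) N, bb j * R j := by
          rw [sum_Ioc_consecutive _ (by omega) hN1]
        rw [hsum, mul_add]
        have hc : 1 ≤ (H : ℝ) / (A : ℝ) ^ θ := by
          rw [le_div_iff₀ hAt, one_mul]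
          exact (Real.rpow_le_rpow hA0.le hnA hθ0.le).trans hH1
        have hd : (((N : ℝ) - n) / (A : ℝ) ^ θ) * K =
            (((N : ℝ) - ((n + H : ℕ) : ℝ)) / (A : ℝ) ^ θ) * K + ((H : ℝ) / (A : ℝ) ^ θ) * K := by
          push_cast
          ring
        rw [hd]
        have he : 1 * K ≤ ((H : ℝ) / (A : ℝ) ^ θ) * K := mul_le_mul_of_nonneg_right hc hK0
        linarith
  obtain ⟨N, _, hN2, hN3, hN4⟩ := key (⌈B⌉₊ - A) A le_rfl le_rfl (by linarith)
  refine ⟨N, hN2, hN3, ?_⟩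
  rw [← hK]
  refine le_trans ?_ hN4
  rw [neg_le_neg_iff]
  refine mul_le_mul_of_nonneg_right ?_ hK0
  exact div_le_div_of_nonneg_right (by linarith) hAt.le

end Pool.Agent.H24.TL
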