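import Pool.Agent.H24.TL.Win
import Pool.Agent.H24.TL.Pcl
import Pool.Agent.H67.TS.L1

/-!
# [H24 TL LLL] the local bound for the mean of `|EI|`

PROOF. `V j = ∑_{k=1}^H l1W X (j - k)` (`0 ≤ V ≤ H`, `V j = 0` unless `3X/4 < j < 5X/2 + H ≤ 3X`, `|V j - V i| ≤ 4H/X |j-i|`, `l1W_lip`),
`R j = 10^13 Gk (j/X) - V j/H ≥ 0` (`Gk_mid`), `R ≤ 3·10^13`, Lipschitz with `D = (2·10^16 L³ + 4)/X` on `j ≥ X/(2L)` (`Gk_lip`).
`pcl` with `A = ⌊X/L⌋₊`, `B = L X` gives `N`, `s ∑_{(A,N]} bb R ≥ -X^(δ+1-θ+ε/2)` (`θ ≤ δ+1-θ`); `win` with this `N`: `|∑_{(A,N]} bb j Gk (j/X)| ≤ C √X log X`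
(`1/2 ≤ δ+1-θ`). So `s ∑_{(A,N]} bb j V j ≤ H (10^13 C √X log X + X^(δ+1-θ+ε/2))`. Interchange: `∑_{j} bb j V j = ∑_n l1W X n ET n H` (`et_bb`).
`log X ∑_{X<n≤2X} |EI n H| ≤ ∑ l1W X n log n |EI n H| ≤ ∑ l1W X n (s log n EI n H + 2 κ log n)` on `[3X/4, 5X/2]`, `log n EI n H ≤ ET n H ± 2H²/n` (`trg`).
-/

set_option autoImplicit false

namespace Pool.Agent.H24.TL

open Finset Pool.Agent.H48.WN Pool.Agent.H67.TS Pool.Agent.H99.GB

/-- the weight of a prime -/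
noncomputable def lV (X : ℝ) (H j : ℕ) : ℝ := ∑ k ∈ Icc 1 H, l1W X ((j : ℝ) - k)

private theorem lV_nonneg (X : ℝ) (H j : ℕ) : 0 ≤ lV X H j := sum_nonneg fun _ _ => l1W_nonneg _ _

private theorem lV_le (X : ℝ) (H j : ℕ) : lV X H j ≤ H := by
  unfold lV
  calc ∑ k ∈ Icc 1 H, l1W X ((j : ℝ) - k) ≤ ∑ _k ∈ Icc 1 H, (1 : ℝ) := sum_le_sum fun _ _ => l1W_le _ _
    _ = H := by simp

private theorem lV_left {X : ℝ} (hX : 0 < X) (H j : ℕ) (h : (j : ℝ) ≤ 3 / 4 * X) : lV X H j = 0 := by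
  unfold lV
  refine sum_eq_zero fun k _ => l1W_left hX ?_
  have : (0 : ℝ) ≤ k := Nat.cast_nonneg _
  linarith

private theorem lV_right {X : ℝ} (hX : 0 < X) (H j : ℕ) (h : 5 / 2 * X + H ≤ j) : lV X H j = 0 := by
  unfold lV
  refine sum_eq_zero fun k hk => l1W_right hX ?_
  rw [mem_Icc] at hk
  have : (k : ℝ) ≤ H := by exact_mod_cast hk.2
  linarith

private theorem lV_lip {X : ℝ} (hX : 0 < X) (H i j : ℕ) (h : i ≤ j) :
    |lV X H j - lV X H i| ≤ 4 / X * H * ((j : ℝ) - i) := by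
  unfold lV
  rw [← sum_sub_distrib]
  have hij : (i : ℝ) ≤ j := by exact_mod_cast h
  calc |∑ k ∈ Icc 1 H, (l1W X ((j : ℝ) - k) - l1W X ((i : ℝ) - k))|
      ≤ ∑ k ∈ Icc 1 H, |l1W X ((j : ℝ) - k) - l1W X ((i : ℝ) - k)| := abs_sum_le_sum_abs _ _
    _ ≤ ∑ _k ∈ Icc 1 H, (4 / X * ((j : ℝ) - i)) := by
        refine sum_le_sum fun k _ => ?_
        have h1 := l1W_lip hX ((j : ℝ) - k) ((i : ℝ) - k)
        have e : ((j : ℝ) - k) - ((i : ℝ) - k) = (j : ℝ) - i := by ring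
        rw [e, abs_of_nonneg (by linarith : (0 : ℝ) ≤ (j : ℝ) - i)] at h1
        exact h1
    _ = 4 / X * H * ((j : ℝ) - i) := by
        rw [sum_const, Nat.card_Icc, nsmul_eq_mul, Nat.add_sub_cancel]
        ring

/-- the interchange -/
private theorem lV_swap (X H A N : ℕ) (hX : 0 < X) (hA : (A : ℝ) ≤ 3 / 4 * X) (hN : 5 / 2 * (X : ℝ) + H ≤ N) :
    ∑ j ∈ Ioc A N, bb j * lV X H j = ∑ n ∈ Ico 1 (3 * X), l1W X n * ET n H := by
  have hX0 : (0 : ℝ) < X := by exact_mod_cast hX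
  have h1 : ∀ n : ℕ, ET n H = ∑ k ∈ Icc 1 H, bb (n + k) := by
    intro n
    rw [et_bb]
    have e : Ioc n (n + H) = (Icc 1 H).image (fun k => n + k) := by
      ext m
      simp only [mem_Ioc, mem_image, mem_Icc]
      constructor
      · intro hm
        exact ⟨m - n, by omega, by omega⟩
      · rintro ⟨k, hk, rfl⟩
        omega
    rw [e, sum_image (fun a _ b _ h => by simpa using h)]
  have h2 : ∀ k ∈ Icc 1 H, ∑ n ∈ Ico 1 (3 * X), l1W X n * bb (n + k) =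
      ∑ j ∈ Ioc A N, bb j * l1W X ((j : ℝ) - k) := by
    intro k hk
    rw [mem_Icc] at hk
    have hkH : (k : ℝ) ≤ H := by exact_mod_cast hk.2
    have hk0 : (0 : ℝ) ≤ k := Nat.cast_nonneg _
    have e1 : ∑ n ∈ Ico 1 (3 * X), l1W X n * bb (n + k) =
        ∑ n ∈ Ico 1 (3 * X), (fun j : ℕ => bb j * l1W X ((j : ℝ) - k)) (n + k) := by
      refine sum_congr rfl fun n _ => ?_
      push_cast
      rw [add_sub_cancel_right, mul_comm]
    rw [e1, sum_Ico_add' (fun j : ℕ => bb j * l1W X ((j : ℝ) - k)) 1 (3 * X) k]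
    have e2 : ∑ j ∈ Ico (1 + k) (3 * X + k), bb j * l1W X ((j : ℝ) - k) =
        ∑ j ∈ range (N + 3 * X + k + 1), bb j * l1W X ((j : ℝ) - k) := by
      refine sum_subset ?_ ?_
      · intro j hj
        rw [mem_Ico] at hj
        rw [mem_range]
        omega
      · intro j _ hj2
        rw [mem_Ico] at hj2
        rcases Nat.lt_or_ge j (1 + k) with hj | hj
        · have h3 : (j : ℝ) ≤ k := by exact_mod_cast (by omega : j ≤ k)
          rw [l1W_left hX0 (by linarith), mul_zero]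
        · have h3 : ((3 * X + k : ℕ) : ℝ) ≤ j := by exact_mod_cast (by omega : 3 * X + k ≤ j)
          push_cast at h3
          rw [l1W_right hX0 (by linarith), mul_zero]
    have e3 : ∑ j ∈ Ioc A N, bb j * l1W X ((j : ℝ) - k) =
        ∑ j ∈ range (N + 3 * X + k + 1), bb j * l1W X ((j : ℝ) - k) := by
      refine sum_subset ?_ ?_
      · intro j hj
        rw [mem_Ioc] at hj
        rw [mem_range]
        omega
      · intro j _ hj2
        rw [mem_Ioc] at hj2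
        rcases Nat.lt_or_ge A j with hj | hj
        · have h3 : (N : ℝ) ≤ j := by exact_mod_cast (by omega : N ≤ j)
          rw [l1W_right hX0 (by linarith), mul_zero]
        · have h3 : (j : ℝ) ≤ A := by exact_mod_cast hj
          rw [l1W_left hX0 (by linarith), mul_zero]
    rw [e2, e3]
  calc ∑ j ∈ Ioc A N, bb j * lV X H j
      = ∑ j ∈ Ioc A N, ∑ k ∈ Icc 1 H, bb j * l1W X ((j : ℝ) - k) := by
        refine sum_congr rfl fun j _ => ?_
        unfold lV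
        rw [mul_sum]
    _ = ∑ k ∈ Icc 1 H, ∑ j ∈ Ioc A N, bb j * l1W X ((j : ℝ) - k) := sum_comm
    _ = ∑ k ∈ Icc 1 H, ∑ n ∈ Ico 1 (3 * X), l1W X n * bb (n + k) :=
        sum_congr rfl fun k hk => (h2 k hk).symm
    _ = ∑ n ∈ Ico 1 (3 * X), ∑ k ∈ Icc 1 H, l1W X n * bb (n + k) := sum_comm
    _ = ∑ n ∈ Ico 1 (3 * X), l1W X n * ET n H := by
        refine sum_congr rfl fun n _ => ?_
        rw [h1, mul_sum]

/-- from a bound for the weighted sum of `ET` to the mean of `|EI|` -/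
private theorem lfin (s : ℝ) (hs : s = 1 ∨ s = -1) (X H : ℕ) (hX : 100 ≤ X) (hl : 12 ≤ Real.log X)
    (κ T : ℝ) (hκ : 0 ≤ κ)
    (hone : ∀ n : ℕ, 3 * X ≤ 4 * n → 2 * n ≤ 5 * X → -κ ≤ s * EI n H)
    (hT : s * ∑ n ∈ Ico 1 (3 * X), l1W X n * ET n H ≤ T) :
    Real.log X * ∑ n ∈ Ioc X (2 * X), |EI n H| ≤ T + 6 * (H : ℝ) ^ 2 + 4 * κ * X * Real.log X := by
  have hX1 : (100 : ℝ) ≤ X := by exact_mod_cast hX
  have hX0 : (0 : ℝ) < X := by linarith
  have hH0 : (0 : ℝ) ≤ H := Nat.cast_nonneg _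
  have hsabs : ∀ x : ℝ, |x| = |s * x| := by
    intro x
    rcases hs with rfl | rfl
    · rw [one_mul]
    · rw [neg_one_mul, abs_neg]
  have hsle : ∀ x : ℝ, |s * x| = |x| := fun x => (hsabs x).symm
  have h1 : Real.log X * ∑ n ∈ Ioc X (2 * X), |EI n H| ≤
      ∑ n ∈ Ico 1 (3 * X), l1W X n * (Real.log n * |EI n H|) := by
    have h2 : Real.log X * ∑ n ∈ Ioc X (2 * X), |EI n H| ≤
        ∑ n ∈ Ioc X (2 * X), l1W X n * (Real.log n * |EI n H|) := by
      rw [mul_sum]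
      refine sum_le_sum fun n hn => ?_
      rw [mem_Ioc] at hn
      have hn1 : (X : ℝ) ≤ n := by exact_mod_cast hn.1.le
      rw [l1W_one hX0 hn1 (by exact_mod_cast hn.2), one_mul]
      exact mul_le_mul_of_nonneg_right (Real.log_le_log hX0 hn1) (abs_nonneg _)
    refine h2.trans ?_
    refine sum_le_sum_of_subset_of_nonneg ?_ fun n hn _ => ?_
    · intro n hn
      rw [mem_Ioc] at hn
      rw [mem_Ico]
      omega
    · rw [mem_Ico] at hn
      have hn1 : (1 : ℝ) ≤ n := by exact_mod_cast hn.1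
      have := Real.log_nonneg hn1
      have := l1W_nonneg X n
      positivity
  obtain ⟨c, hc⟩ : ∃ c : ℝ, c = 2 * κ * Real.log (5 / 2 * X) + 8 / 3 * (H : ℝ) ^ 2 / X := ⟨_, rfl⟩
  have hlog : Real.log (5 / 2 * X) ≤ Real.log X + 1 := by
    rw [Real.log_mul (by norm_num) hX0.ne']
    have h3 : Real.log (5 / 2) ≤ 1 := by
      rw [Real.log_le_iff_le_exp (by norm_num)]
      have := Real.exp_one_gt_d9
      linarith
    linarith
  have hlog0 : 0 ≤ Real.log (5 / 2 * X) := Real.log_nonneg (by linarith)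
  have hc0 : 0 ≤ c := by rw [hc]; positivity
  have h2 : ∀ n ∈ Ico 1 (3 * X), l1W X n * (Real.log n * |EI n H|) ≤
      s * (l1W X n * ET n H) + (if n ∈ Icc (3 * X / 4) (5 * X / 2) then c else 0) := by
    intro n hn
    rw [mem_Ico] at hn
    rcases le_or_gt (n : ℝ) (3 / 4 * X) with hl | hl
    · rw [l1W_left hX0 hl]
      simp only [zero_mul, mul_zero, zero_add]
      split_ifs <;> linarith
    rcases le_or_gt (5 / 2 * (X : ℝ)) n with hr | hr
    · rw [l1W_right hX0 hr]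
      simp only [zero_mul, mul_zero, zero_add]
      split_ifs <;> linarith
    have h3 : 3 * X ≤ 4 * n := by
      have : 3 * (X : ℝ) ≤ 4 * n := by linarith
      exact_mod_cast this
    have h4 : 2 * n ≤ 5 * X := by
      have : 2 * (n : ℝ) ≤ 5 * X := by linarith
      exact_mod_cast this
    have hmem : n ∈ Icc (3 * X / 4) (5 * X / 2) := by
      rw [mem_Icc]
      omega
    rw [if_pos hmem]
    have h5 := hone n h3 h4
    have h6 : |EI n H| ≤ s * EI n H + 2 * κ := by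
      rw [hsabs, abs_le]
      constructor <;> linarith
    have hn0 : (0 : ℝ) < n := by linarith
    have hln0 : 0 ≤ Real.log n := Real.log_nonneg (by linarith)
    have hln1 : Real.log n ≤ Real.log (5 / 2 * X) := Real.log_le_log hn0 hr.le
    have h7 := trg n H (by omega)
    have h8 : |s * ET n H - s * (Real.log n * EI n H)| ≤ 2 * ((H : ℝ) ^ 2 / n) := by
      rw [← mul_sub, hsle]
      exact h7
    have h9 : (H : ℝ) ^ 2 / n ≤ 4 / 3 * (H : ℝ) ^ 2 / X := by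
      rw [div_le_div_iff₀ hn0 hX0]
      nlinarith [sq_nonneg (H : ℝ)]
    have h10 := (abs_le.mp h8).1
    have h11 : Real.log n * |EI n H| ≤ s * ET n H + c := by
      have a1 : Real.log n * |EI n H| ≤ Real.log n * (s * EI n H + 2 * κ) :=
        mul_le_mul_of_nonneg_left h6 hln0
      have a2 : Real.log n * (2 * κ) ≤ Real.log (5 / 2 * X) * (2 * κ) :=
        mul_le_mul_of_nonneg_right hln1 (by linarith)
      have a3 : 2 * (4 / 3 * (H : ℝ) ^ 2 / X) = 8 / 3 * (H : ℝ) ^ 2 / X := by ring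
      rw [hc]
      nlinarith
    have h12 := mul_le_mul_of_nonneg_left h11 (l1W_nonneg X n)
    have h13 : l1W X n * c ≤ c := by
      have := mul_le_mul_of_nonneg_right (l1W_le X n) hc0
      linarith
    calc l1W X n * (Real.log n * |EI n H|) ≤ l1W X n * (s * ET n H + c) := h12
      _ = s * (l1W X n * ET n H) + l1W X n * c := by ring
      _ ≤ _ := by linarith
  have h3 : ∑ n ∈ Ico 1 (3 * X), (if n ∈ Icc (3 * X / 4) (5 * X / 2) then c else 0) ≤
      6 * (H : ℝ) ^ 2 + 4 * κ * X * Real.log X := by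
    rw [← sum_filter, sum_const, nsmul_eq_mul]
    have h5 : ((Ico 1 (3 * X)).filter (fun n => n ∈ Icc (3 * X / 4) (5 * X / 2))).card ≤
        5 * X / 2 + 1 - 3 * X / 4 := by
      have h6 : ((Ico 1 (3 * X)).filter (fun n => n ∈ Icc (3 * X / 4) (5 * X / 2))) ⊆
          Icc (3 * X / 4) (5 * X / 2) := by
        intro n hn
        rw [mem_filter] at hn
        exact hn.2
      have h7 := card_le_card h6
      rwa [Nat.card_Icc] at h7
    have h6 : (((Ico 1 (3 * X)).filter (fun n => n ∈ Icc (3 * X / 4) (5 * X / 2))).card : ℝ) ≤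
        177 / 100 * X := by
      have h7 : 100 * ((Ico 1 (3 * X)).filter (fun n => n ∈ Icc (3 * X / 4) (5 * X / 2))).card ≤
          177 * X := by omega
      have h8 : 100 * (((Ico 1 (3 * X)).filter (fun n => n ∈ Icc (3 * X / 4) (5 * X / 2))).card : ℝ) ≤
          177 * X := by exact_mod_cast h7
      linarith
    have h7 := mul_le_mul_of_nonneg_right h6 hc0
    refine h7.trans ?_
    rw [hc]
    have b1 : 177 / 100 * (X : ℝ) * (2 * κ * Real.log (5 / 2 * X)) ≤ 4 * κ * X * Real.log X := by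
      have b2 : 177 / 100 * (2 * Real.log (5 / 2 * X)) ≤ 4 * Real.log X := by nlinarith
      have b3 := mul_le_mul_of_nonneg_left b2 (by positivity : 0 ≤ κ * X)
      calc 177 / 100 * (X : ℝ) * (2 * κ * Real.log (5 / 2 * X))
          = κ * X * (177 / 100 * (2 * Real.log (5 / 2 * X))) := by ring
        _ ≤ κ * X * (4 * Real.log X) := b3
        _ = 4 * κ * X * Real.log X := by ring
    have b4 : 177 / 100 * (X : ℝ) * (8 / 3 * (H : ℝ) ^ 2 / X) = 472 / 100 * (H : ℝ) ^ 2 := by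
      field_simp
      ring
    have b5 := sq_nonneg (H : ℝ)
    nlinarith
  have h4 := sum_le_sum h2
  rw [sum_add_distrib, ← mul_sum] at h4
  linarith

/-- the kernel minus the weight -/
noncomputable def lR (X : ℝ) (H j : ℕ) : ℝ := 10 ^ 13 * Gk ((j : ℝ) / X) - lV X H j / H

private theorem lR_bd (X : ℝ) (H j : ℕ) (hX : 0 < X) (hH : 0 < H) (hHX : 4 * (H : ℝ) ≤ X) (hj : 0 < j) :
    0 ≤ lR X H j ∧ lR X H j ≤ 3 * 10 ^ 13 := by
  have hH0 : (0 : ℝ) < H := by exact_mod_cast hH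
  have hj0 : (0 : ℝ) < j := by exact_mod_cast hj
  have ht : 0 < (j : ℝ) / X := by positivity
  have g1 := Gk_pos ht
  have g2 := Gk_bd ht
  have v0 := lV_nonneg X H j
  have v1 := lV_le X H j
  have v2 : lV X H j / H ≤ 1 := by rw [div_le_one hH0]; exact v1
  have v3 : 0 ≤ lV X H j / H := by positivity
  unfold lR
  constructor
  · rcases le_or_gt (j : ℝ) (3 / 4 * X) with hl | hl
    · rw [lV_left hX H j hl, zero_div]
      nlinarith
    rcases le_or_gt (5 / 2 * X + H) j with hr | hr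
    · rw [lV_right hX H j hr, zero_div]
      nlinarith
    have m1 : 1 / 2 ≤ (j : ℝ) / X := by
      rw [le_div_iff₀ hX]
      linarith
    have m2 : (j : ℝ) / X ≤ 4 := by
      rw [div_le_iff₀ hX]
      linarith
    have m3 := Gk_mid m1 m2
    have m4 : (10 : ℝ) ^ 13 * (1 / 10 ^ 13) ≤ 10 ^ 13 * Gk ((j : ℝ) / X) :=
      mul_le_mul_of_nonneg_left m3 (by positivity)
    have m5 : (10 : ℝ) ^ 13 * (1 / 10 ^ 13) = 1 := by norm_num
    linarith
  · nlinarith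

private theorem lR_lip (X a : ℝ) (H A : ℕ) (hX : 0 < X) (hH : 0 < H) (ha : 0 < a) (hA : a * X ≤ A) (i j : ℕ)
    (hi : A ≤ i) (hij : i ≤ j) :
    |lR X H j - lR X H i| ≤ (2 * 10 ^ 15 / a ^ 3 + 4) / X * ((j : ℝ) - i) := by
  have hH0 : (0 : ℝ) < H := by exact_mod_cast hH
  have hi1 : (A : ℝ) ≤ i := by exact_mod_cast hi
  have hij1 : (i : ℝ) ≤ j := by exact_mod_cast hij
  have ha1 : a ≤ (i : ℝ) / X := by
    rw [le_div_iff₀ hX]
    linarith
  have g1 := Gk_lip ((i : ℝ) / X) ((j : ℝ) / X) (by linarith) (div_le_div_of_nonneg_right hij1 hX.le)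
  have g2 : 200 * ((j : ℝ) / X - (i : ℝ) / X) / ((i : ℝ) / X) ^ 3 ≤ 200 * ((j : ℝ) / X - (i : ℝ) / X) / a ^ 3 := by
    refine div_le_div_of_nonneg_left ?_ (by positivity) (pow_le_pow_left₀ ha.le ha1 3)
    have : (i : ℝ) / X ≤ (j : ℝ) / X := div_le_div_of_nonneg_right hij1 hX.le
    linarith
  have g3 := lV_lip hX H i j hij
  have g4 : |lV X H j / H - lV X H i / H| ≤ 4 / X * ((j : ℝ) - i) := by
    rw [← sub_div, abs_div, abs_of_pos hH0, div_le_iff₀ hH0]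
    calc |lV X H j - lV X H i| ≤ 4 / X * H * ((j : ℝ) - i) := g3
      _ = 4 / X * ((j : ℝ) - i) * H := by ring
  unfold lR
  have e : 10 ^ 13 * Gk ((j : ℝ) / X) - lV X H j / H - (10 ^ 13 * Gk ((i : ℝ) / X) - lV X H i / H) =
      10 ^ 13 * (Gk ((j : ℝ) / X) - Gk ((i : ℝ) / X)) - (lV X H j / H - lV X H i / H) := by ring
  rw [e]
  refine (abs_sub _ _).trans ?_
  rw [abs_mul, abs_of_pos (by norm_num : (0 : ℝ) < 10 ^ 13)]
  have g5 := mul_le_mul_of_nonneg_left (g1.trans g2) (by norm_num : (0 : ℝ) ≤ 10 ^ 13)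
  calc _ ≤ 10 ^ 13 * (200 * ((j : ℝ) / X - (i : ℝ) / X) / a ^ 3) + 4 / X * ((j : ℝ) - i) := by linarith
    _ = (2 * 10 ^ 15 / a ^ 3 + 4) / X * ((j : ℝ) - i) := by
        field_simp
        ring

/-- the size of the error of `pcl` -/
private theorem lsz (θ δ : ℝ) (hθ0 : 0 < θ) (hθ1 : θ < 1) (h1 : θ ≤ δ + (1 - θ)) (hδ1 : δ < θ)
    (X L l A : ℝ) (hX : 1 ≤ X) (hL : 1 ≤ L) (hLl : L ≤ l) (hl : l = Real.log X) (hl3 : 12 ≤ l) (hA : X / (2 * L) ≤ A) :
    (2 * (L * X) / A ^ θ) * (3 * 10 ^ 13 * ((L * X) ^ δ * Real.log (L * X) + 8 * (L * X) ^ (2 * θ) / A) +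
      4 * ((2 * 10 ^ 15 / (1 / (2 * L)) ^ 3 + 4) / X) * (L * X) ^ (2 * θ) * (1 + Real.log (3 * (L * X)))) ≤
      10 ^ 19 * l ^ 8 * X ^ (δ + (1 - θ)) := by
  have hX0 : 0 < X := by linarith
  have hL0 : 0 < L := by linarith
  have hl0 : 0 < l := by linarith
  have hA0 : 0 < A := lt_of_lt_of_le (by positivity) hA
  -- the first factor
  have f1 : 2 * (L * X) / A ^ θ ≤ 4 * l ^ 2 * X ^ (1 - θ) := by
    have a1 : (X / (2 * L)) ^ θ ≤ A ^ θ := Real.rpow_le_rpow (by positivity) hA hθ0.le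
    have a2 : X ^ θ / (2 * l) ≤ (X / (2 * L)) ^ θ := by
      rw [Real.div_rpow hX0.le (by positivity)]
      refine div_le_div_of_nonneg_left (by positivity) (by positivity) ?_
      calc (2 * L) ^ θ ≤ (2 * L) ^ (1 : ℝ) := Real.rpow_le_rpow_of_exponent_le (by linarith) hθ1.le
        _ = 2 * L := Real.rpow_one _
        _ ≤ 2 * l := by linarith
    have a3 : 0 < X ^ θ / (2 * l) := by positivity
    have e : X ^ (1 - θ) = X / X ^ θ := by rw [Real.rpow_sub hX0, Real.rpow_one]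
    have a4 : 0 < X ^ θ := by positivity
    calc 2 * (L * X) / A ^ θ ≤ 2 * (l * X) / (X ^ θ / (2 * l)) := by
          refine div_le_div₀ (by positivity) ?_ a3 (a2.trans a1)
          nlinarith
      _ = 4 * l ^ 2 * X ^ (1 - θ) := by
          rw [e]
          field_simp
          ring
  have hlX : Real.log (L * X) ≤ 2 * l := by
    rw [Real.log_mul hL0.ne' hX0.ne', ← hl]
    have := Real.log_le_sub_one_of_pos hL0
    linarith
  have hlX0 : 0 ≤ Real.log (L * X) := Real.log_nonneg (by nlinarith)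
  have hl3X : 1 + Real.log (3 * (L * X)) ≤ 4 * l := by
    rw [Real.log_mul (by norm_num) (by positivity)]
    have := Real.log_le_sub_one_of_pos (by norm_num : (0 : ℝ) < 3)
    linarith
  have hl3X0 : 0 ≤ 1 + Real.log (3 * (L * X)) := by
    have := Real.log_nonneg (by nlinarith : 1 ≤ 3 * (L * X))
    linarith
  have f2 : (L * X) ^ δ ≤ l * X ^ δ := by
    rw [Real.mul_rpow hL0.le hX0.le]
    refine mul_le_mul_of_nonneg_right ?_ (by positivity)
    calc L ^ δ ≤ L ^ (1 : ℝ) := Real.rpow_le_rpow_of_exponent_le hL (by linarith)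
      _ = L := Real.rpow_one _
      _ ≤ l := hLl
  have f3 : (L * X) ^ (2 * θ) ≤ l ^ 2 * X ^ (2 * θ) := by
    rw [Real.mul_rpow hL0.le hX0.le]
    refine mul_le_mul_of_nonneg_right ?_ (by positivity)
    calc L ^ (2 * θ) ≤ L ^ (2 : ℝ) := Real.rpow_le_rpow_of_exponent_le hL (by linarith)
      _ = L ^ 2 := by norm_num
      _ ≤ l ^ 2 := pow_le_pow_left₀ hL0.le hLl 2
  have f4 : X ^ (2 * θ) / X ≤ X ^ δ := by
    rw [div_le_iff₀ hX0]
    calc X ^ (2 * θ) ≤ X ^ (δ + 1) := Real.rpow_le_rpow_of_exponent_le hX (by linarith)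
      _ = X ^ δ * X := by rw [Real.rpow_add hX0, Real.rpow_one]
  have g0 : 0 ≤ X ^ δ := by positivity
  have g1 : (L * X) ^ δ * Real.log (L * X) ≤ 2 * l ^ 2 * X ^ δ := by
    calc (L * X) ^ δ * Real.log (L * X) ≤ (l * X ^ δ) * (2 * l) :=
          mul_le_mul f2 hlX hlX0 (by positivity)
      _ = 2 * l ^ 2 * X ^ δ := by ring
  have g2 : 8 * (L * X) ^ (2 * θ) / A ≤ 16 * l ^ 3 * X ^ δ := by
    calc 8 * (L * X) ^ (2 * θ) / A ≤ 8 * (l ^ 2 * X ^ (2 * θ)) / (X / (2 * L)) := by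
          refine div_le_div₀ (by positivity) ?_ (by positivity) hA
          linarith
      _ = 16 * l ^ 2 * L * (X ^ (2 * θ) / X) := by
          field_simp
          ring
      _ ≤ 16 * l ^ 2 * l * X ^ δ := by
          refine mul_le_mul ?_ f4 (by positivity) (by positivity)
          exact mul_le_mul_of_nonneg_left hLl (by positivity)
      _ = 16 * l ^ 3 * X ^ δ := by ring
  have hDD : 2 * 10 ^ 15 / (1 / (2 * L)) ^ 3 + 4 ≤ 2 * 10 ^ 16 * l ^ 3 := by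
    have e : 2 * 10 ^ 15 / (1 / (2 * L)) ^ 3 = 16 * 10 ^ 15 * L ^ 3 := by
      field_simp
      ring
    rw [e]
    have e2 : L ^ 3 ≤ l ^ 3 := pow_le_pow_left₀ hL0.le hLl 3
    have e3 : 1 ≤ l ^ 3 := one_le_pow₀ (by linarith)
    nlinarith
  have g3 : 4 * ((2 * 10 ^ 15 / (1 / (2 * L)) ^ 3 + 4) / X) * (L * X) ^ (2 * θ) * (1 + Real.log (3 * (L * X))) ≤
      32 * 10 ^ 16 * l ^ 6 * X ^ δ := by
    calc 4 * ((2 * 10 ^ 15 / (1 / (2 * L)) ^ 3 + 4) / X) * (L * X) ^ (2 * θ) * (1 + Real.log (3 * (L * X)))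
        ≤ 4 * ((2 * 10 ^ 16 * l ^ 3) / X) * (l ^ 2 * X ^ (2 * θ)) * (4 * l) := by
          refine mul_le_mul ?_ hl3X hl3X0 (by positivity)
          refine mul_le_mul ?_ f3 (by positivity) (by positivity)
          refine mul_le_mul_of_nonneg_left ?_ (by norm_num)
          exact div_le_div_of_nonneg_right hDD hX0.le
      _ = 32 * 10 ^ 16 * l ^ 6 * (X ^ (2 * θ) / X) := by
          field_simp
          ring
      _ ≤ 32 * 10 ^ 16 * l ^ 6 * X ^ δ := mul_le_mul_of_nonneg_left f4 (by positivity)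
  have g4 : 3 * 10 ^ 13 * ((L * X) ^ δ * Real.log (L * X) + 8 * (L * X) ^ (2 * θ) / A) +
      4 * ((2 * 10 ^ 15 / (1 / (2 * L)) ^ 3 + 4) / X) * (L * X) ^ (2 * θ) * (1 + Real.log (3 * (L * X))) ≤
      10 ^ 18 * l ^ 6 * X ^ δ := by
    have p2 : l ^ 2 ≤ l ^ 6 := pow_le_pow_right₀ (by linarith) (by norm_num)
    have p3 : l ^ 3 ≤ l ^ 6 := pow_le_pow_right₀ (by linarith) (by norm_num)
    have q2 := mul_le_mul_of_nonneg_right p2 g0
    have q3 := mul_le_mul_of_nonneg_right p3 g0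
    have q6 : 0 ≤ l ^ 6 * X ^ δ := by positivity
    nlinarith
  have g5 : X ^ (δ + (1 - θ)) = X ^ δ * X ^ (1 - θ) := Real.rpow_add hX0 _ _
  rw [g5]
  calc _ ≤ (4 * l ^ 2 * X ^ (1 - θ)) * (10 ^ 18 * l ^ 6 * X ^ δ) := by
        refine mul_le_mul f1 g4 ?_ (by positivity)
        positivity
    _ = 4 * 10 ^ 18 * (l ^ 8 * (X ^ δ * X ^ (1 - θ))) := by ring
    _ ≤ 10 ^ 19 * (l ^ 8 * (X ^ δ * X ^ (1 - θ))) := mul_le_mul_of_nonneg_right (by norm_num) (by positivity)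
    _ = 10 ^ 19 * l ^ 8 * (X ^ δ * X ^ (1 - θ)) := by ring

theorem lll (s θ δ : ℝ) (hs : s = 1 ∨ s = -1) (hθ0 : 0 < θ) (hθ1 : θ < 1) (hδ0 : 0 ≤ δ) (h1 : θ ≤ δ + (1 - θ))
    (h2 : 1 / 2 ≤ δ + (1 - θ)) (hδ1 : δ < θ) (ε : ℝ) (hε : 0 < ε) :
    ∃ x0 : ℝ, ∀ X H : ℕ, x0 ≤ X → (X : ℝ) ^ θ ≤ H → (H : ℝ) ≤ 1000 * (X : ℝ) ^ θ →
      OneW s θ δ (X / Lw X - 1) (Lw X * X) → ∀ κ : ℝ, 0 ≤ κ →
      (∀ n : ℕ, 3 * X ≤ 4 * n → 2 * n ≤ 5 * X → -κ ≤ s * EI n H) →
      ∑ n ∈ Ioc X (2 * X), |EI n H| ≤ (X : ℝ) ^ (δ + (1 - θ) + ε) * H + 4 * κ * X := by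
  obtain ⟨x1, hpcl⟩ := pcl s θ δ hs hθ0 hθ1 hδ0
  obtain ⟨C, x2, hC, hwin⟩ := win
  -- large `X`
  have ev1 : ∀ᶠ X : ℝ in Filter.atTop, 27 ≤ Real.log X := Real.tendsto_log_atTop.eventually_ge_atTop 27
  have ev2 : ∀ᶠ X : ℝ in Filter.atTop, 2 * (|x1| + 1) * Real.log X ≤ X := by
    have h := Real.isLittleO_log_id_atTop.bound (c := 1 / (2 * (|x1| + 1))) (by positivity)
    filter_upwards [h, Filter.eventually_ge_atTop 1] with X hX hX1
    have hl := Real.log_nonneg hX1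
    rw [Real.norm_eq_abs, abs_of_nonneg hl, id, Real.norm_eq_abs, abs_of_nonneg (by linarith : (0 : ℝ) ≤ X)] at hX
    have h0 : 0 < 2 * (|x1| + 1) := by positivity
    calc 2 * (|x1| + 1) * Real.log X ≤ 2 * (|x1| + 1) * (1 / (2 * (|x1| + 1)) * X) :=
          mul_le_mul_of_nonneg_left hX h0.le
      _ = X := by field_simp
  have ev3 : ∀ᶠ X : ℝ in Filter.atTop, 4000 ≤ X ^ (1 - θ) :=
    (tendsto_rpow_atTop (by linarith)).eventually_ge_atTop 4000
  have ev4 : ∀ᶠ X : ℝ in Filter.atTop, (10 ^ 13 * C + 10 ^ 19 + 6000) * Real.log X ^ (8 : ℝ) ≤ X ^ ε := by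
    have h := (isLittleO_log_rpow_rpow_atTop 8 hε).bound (c := 1 / (10 ^ 13 * C + 10 ^ 19 + 6000)) (by positivity)
    filter_upwards [h, Filter.eventually_ge_atTop 1] with X hX hX1
    have hl := Real.log_nonneg hX1
    have h0 : 0 < 10 ^ 13 * C + 10 ^ 19 + 6000 := by positivity
    rw [Real.norm_eq_abs, abs_of_nonneg (by positivity), Real.norm_eq_abs, abs_of_nonneg (by positivity)] at hX
    calc _ ≤ (10 ^ 13 * C + 10 ^ 19 + 6000) * (1 / (10 ^ 13 * C + 10 ^ 19 + 6000) * X ^ ε) :=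
          mul_le_mul_of_nonneg_left hX h0.le
      _ = X ^ ε := by field_simp
  obtain ⟨x0, hx0⟩ := Filter.eventually_atTop.mp (ev1.and (ev2.and (ev3.and ev4)))
  refine ⟨max x0 (max x2 100), fun X H hX hH1 hH2 hone κ hκ hEI => ?_⟩
  have hX3 : x0 ≤ X := (le_max_left _ _).trans hX
  have hX2 : x2 ≤ X := (le_max_left _ _).trans ((le_max_right _ _).trans hX)
  have hX1 : (100 : ℝ) ≤ X := (le_max_right _ _).trans ((le_max_right _ _).trans hX)
  obtain ⟨k1, k2, k3, k4⟩ := hx0 X hX3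
  have hX0 : (0 : ℝ) < X := by linarith
  have hXn : 100 ≤ X := by exact_mod_cast hX1
  obtain ⟨l, hl⟩ : ∃ l : ℝ, l = Real.log X := ⟨_, rfl⟩
  obtain ⟨L, hL⟩ : ∃ L : ℝ, L = Lw X := ⟨_, rfl⟩
  rw [← hl] at k1 k2 k4
  rw [← hL] at hone
  have hl0 : 0 < l := by linarith
  have hL3 : 3 ≤ L := by
    rw [hL, Lw, ← hl]
    exact Real.le_sqrt_of_sq_le (by linarith)
  have hLl : L ≤ l := by
    rw [hL, Lw, ← hl, Real.sqrt_le_left hl0.le]
    nlinarith
  have hL0 : 0 < L := by linarith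
  have hXL : X / (2 * l) ≤ X / (2 * L) := div_le_div_of_nonneg_left hX0.le (by positivity) (by linarith)
  have hXl : |x1| + 1 ≤ X / (2 * l) := by
    rw [le_div_iff₀ (by positivity)]
    linarith
  obtain ⟨A, hA⟩ : ∃ A : ℕ, A = ⌊(X : ℝ) / L⌋₊ := ⟨_, rfl⟩
  have hA1 : (A : ℝ) ≤ X / L := by rw [hA]; exact Nat.floor_le (by positivity)
  have hA2 : (X : ℝ) / L - 1 < A := by rw [hA]; exact Nat.sub_one_lt_floor _
  have hA3 : (X : ℝ) / (2 * L) ≤ A := by
    have e : (X : ℝ) / L = X / (2 * L) + X / (2 * L) := by field_simp; ring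
    have := abs_nonneg x1
    linarith
  have hA4 : x1 ≤ A := by
    have := le_abs_self x1
    linarith
  have hA5 : (A : ℝ) ≤ X / 3 := hA1.trans (div_le_div_of_nonneg_left hX0.le (by norm_num) hL3)
  have hA6 : (0 : ℝ) < A := lt_of_lt_of_le (by positivity) hA3
  have hA7 : 0 < A := by exact_mod_cast hA6
  have hXθ : 1 ≤ (X : ℝ) ^ θ := Real.one_le_rpow (by linarith) hθ0.le
  have hH0 : (0 : ℝ) < H := by linarith
  have hHn : 0 < H := by exact_mod_cast hH0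
  have hHX : 4 * (H : ℝ) ≤ X := by
    have e : (X : ℝ) = X ^ (1 - θ) * X ^ θ := by
      rw [← Real.rpow_add hX0, sub_add_cancel, Real.rpow_one]
    have := mul_le_mul_of_nonneg_right k3 (by linarith : 0 ≤ (X : ℝ) ^ θ)
    linarith
  -- the pieces
  have hD0 : 0 ≤ (2 * 10 ^ 15 / (1 / (2 * L)) ^ 3 + 4) / X := by positivity
  have hAB : (A : ℝ) ≤ L * X := by
    have := mul_le_mul_of_nonneg_right hL3 hX0.le
    linarith
  obtain ⟨N, hN1, hN2, hN3⟩ := hpcl A (L * X) ((2 * 10 ^ 15 / (1 / (2 * L)) ^ 3 + 4) / X) (3 * 10 ^ 13)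
    (lR X H) hA4 hAB hD0 (by norm_num)
    (fun n h a b c d => hone n h (by linarith) b c d)
    (fun j hj => lR_bd X H j hX0 hHn hHX (by omega))
    (fun i j hi hij => lR_lip X (1 / (2 * L)) H A hX0 hHn (by positivity)
      (by rw [one_div_mul_eq_div]; exact hA3) i j hi hij)
  have hsz := lsz θ δ hθ0 hθ1 h1 hδ1 X L l A (by linarith) (by linarith) hLl hl (by linarith) hA3
  have hN4 : (N : ℝ) ≤ X ^ 2 := by
    have a1 : 2 * L ≤ X := by
      have b1 : 0 ≤ |x1| * l := mul_nonneg (abs_nonneg x1) hl0.le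
      linarith
    have a2 := mul_le_mul_of_nonneg_right a1 hX0.le
    linarith
  have hw := hwin X A N hX2 (by rw [← hL]; exact hA1) (by rw [← hL]; exact hN1) hN4
  have hNX : 5 / 2 * (X : ℝ) + H ≤ N := by
    have := mul_le_mul_of_nonneg_right hL3 hX0.le
    linarith
  have hsw := lV_swap X H A N (by omega) (by linarith) hNX
  -- combine
  obtain ⟨α, hα⟩ : ∃ α, α = δ + (1 - θ) := ⟨_, rfl⟩
  rw [← hα] at hsz h1 h2
  rw [← hl] at hw
  have hR : s * ∑ j ∈ Ioc A N, bb j * lR X H j =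
      10 ^ 13 * (s * ∑ j ∈ Ioc A N, bb j * Gk ((j : ℝ) / X)) - (s * ∑ j ∈ Ioc A N, bb j * lV X H j) / H := by
    have e : ∀ j ∈ Ioc A N, bb j * lR X H j =
        10 ^ 13 * (bb j * Gk ((j : ℝ) / X)) - (bb j * lV X H j) / H := by
      intro j _
      unfold lR
      ring
    rw [sum_congr rfl e, sum_sub_distrib, ← mul_sum, ← sum_div]
    ring
  have hw2 : s * ∑ j ∈ Ioc A N, bb j * Gk ((j : ℝ) / X) ≤ C * (√X * l) := by
    have a1 : |s * ∑ j ∈ Ioc A N, bb j * Gk ((j : ℝ) / X)| ≤ C * (√X * l) := by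
      rcases hs with rfl | rfl
      · rw [one_mul]; exact hw
      · rw [neg_one_mul, abs_neg]; exact hw
    exact (abs_le.mp a1).2
  have hsq : √(X : ℝ) ≤ (X : ℝ) ^ α := by
    rw [Real.sqrt_eq_rpow]
    exact Real.rpow_le_rpow_of_exponent_le (by linarith) h2
  have hXα : 0 < (X : ℝ) ^ α := by positivity
  have hT : s * ∑ j ∈ Ioc A N, bb j * lV X H j ≤ H * ((10 ^ 13 * C * l + 10 ^ 19 * l ^ 8) * (X : ℝ) ^ α) := by
    have a1 : (s * ∑ j ∈ Ioc A N, bb j * lV X H j) / H ≤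
        10 ^ 13 * (C * (√X * l)) + 10 ^ 19 * l ^ 8 * (X : ℝ) ^ α := by
      have := mul_le_mul_of_nonneg_left hw2 (by norm_num : (0 : ℝ) ≤ 10 ^ 13)
      linarith
    have a2 : 10 ^ 13 * (C * (√X * l)) ≤ 10 ^ 13 * C * l * (X : ℝ) ^ α := by
      have := mul_le_mul_of_nonneg_left hsq (by positivity : 0 ≤ 10 ^ 13 * C * l)
      linarith
    rw [div_le_iff₀ hH0] at a1
    calc _ ≤ _ := a1
      _ ≤ (10 ^ 13 * C * l * (X : ℝ) ^ α + 10 ^ 19 * l ^ 8 * (X : ℝ) ^ α) * H :=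
          mul_le_mul_of_nonneg_right (by linarith) hH0.le
      _ = _ := by ring
  have hfin := lfin s hs X H hXn (by rw [← hl]; linarith) κ
    (H * ((10 ^ 13 * C * l + 10 ^ 19 * l ^ 8) * (X : ℝ) ^ α)) hκ hEI (by rw [← hsw]; exact hT)
  rw [← hl] at hfin
  have hHα : (H : ℝ) ≤ 1000 * (X : ℝ) ^ α :=
    hH2.trans (mul_le_mul_of_nonneg_left (Real.rpow_le_rpow_of_exponent_le (by linarith) h1) (by norm_num))
  have hl8 : 1 ≤ l ^ 8 := one_le_pow₀ (by linarith)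
  have hll8 : l ≤ l ^ 8 := by
    calc l = l ^ 1 := (pow_one l).symm
      _ ≤ l ^ 8 := pow_le_pow_right₀ (by linarith) (by norm_num)
  have k5 : 10 ^ 13 * C * l + 10 ^ 19 * l ^ 8 + 6000 ≤ (X : ℝ) ^ ε := by
    have e : l ^ (8 : ℝ) = l ^ 8 := by norm_cast
    rw [e] at k4
    have a1 : 10 ^ 13 * C * l ≤ 10 ^ 13 * C * l ^ 8 := mul_le_mul_of_nonneg_left hll8 (by positivity)
    nlinarith
  have k6 : H * ((10 ^ 13 * C * l + 10 ^ 19 * l ^ 8) * (X : ℝ) ^ α) + 6 * (H : ℝ) ^ 2 ≤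
      (X : ℝ) ^ (α + ε) * H := by
    have a1 : 6 * (H : ℝ) ^ 2 ≤ H * (6000 * (X : ℝ) ^ α) := by nlinarith
    calc _ ≤ H * ((10 ^ 13 * C * l + 10 ^ 19 * l ^ 8) * (X : ℝ) ^ α) + H * (6000 * (X : ℝ) ^ α) := by linarith
      _ = (10 ^ 13 * C * l + 10 ^ 19 * l ^ 8 + 6000) * ((X : ℝ) ^ α * H) := by ring
      _ ≤ (X : ℝ) ^ ε * ((X : ℝ) ^ α * H) := mul_le_mul_of_nonneg_right k5 (by positivity)
      _ = (X : ℝ) ^ (α + ε) * H := by rw [Real.rpow_add hX0]; ring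
  have k7 : l * ∑ n ∈ Ioc X (2 * X), |EI n H| ≤ l * ((X : ℝ) ^ (α + ε) * H + 4 * κ * X) := by
    have a1 : 0 ≤ (X : ℝ) ^ (α + ε) * H := by positivity
    nlinarith
  have k8 := le_of_mul_le_mul_left k7 hl0
  rw [hα] at k8
  exact k8

end Pool.Agent.H24.TL
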