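import Pool.Agent.H24.TL.Lll
import Pool.Agent.H24.TL.Pcw
import Pool.Agent.H24.TL.Lwf

/-!
# [H24 TL MDL] local version of `H24/TS/Mdb`

`κ = X^θ`. PROOF. As `mdb`: `m = ⌈40 κ⌉`, `L = ⌈200 κ⌉`, `B x = |EI (x-m) L| + D`, `D = 30000 X^δ`, for `X - κ - 1 ≤ x ≤ 2X`, `0` otherwise.
`lll` only at `Y = X - 50 ⌈κ⌉` and `2Y` (`(Y, 4Y] ⊇ [X - κ - m - 1, 2X]`), both windows are inside `[9/10 X/L, 21/10 L X]` (`Lw Y` and `Lw X` differ by a
factor `1 + o(1)`). The one sided hypothesis `-κ' ≤ s EI n L` for `3Y ≤ 4n`, `2n ≤ 5Y`: `pcw` (`L ≥ 4 n^θ` as `(5X)^θ ≤ 5 κ`), `κ' = C X^δ`.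
-/

set_option autoImplicit false

namespace Pool.Agent.H24.TL

open Finset Pool.Agent.H48.WN Pool.Agent.H67.TS

/-- the hypothesis of all local theorems -/
def OneX (s θ δ X : ℝ) : Prop := OneW s θ δ (9 / 10 * (X / Lw X)) (21 / 10 * (Lw X * X))

private theorem pi_ei (n H : ℕ) (hn : 2 ≤ n) : Pi n H = EI n H := by
  have e1 : ⌊((n : ℝ) + (H : ℝ))⌋₊ = n + H := by
    rw [← Nat.cast_add, Nat.floor_natCast]
  have hn2 : (2 : ℝ) ≤ n := by exact_mod_cast hn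
  unfold Pi EI
  rw [e1, Nat.floor_natCast]
  congr 1
  apply intervalIntegral.integral_congr
  intro t ht
  rw [Set.uIcc_of_le (by simp)] at ht
  show 1 / Real.log (max t 2) = 1 / Real.log t
  rw [max_eq_left (hn2.trans ht.1)]

/-- a sum over shifted arguments -/
private theorem shift_sum (f : ℕ → ℝ) (hf : ∀ n, 0 ≤ f n) (A N m q r : ℕ) (hq : q + m ≤ A) (hr : N ≤ r + m) :
    ∑ x ∈ Ioc A N, f (x - m) ≤ ∑ y ∈ Ioc q r, f y := by
  have e1 : ∑ x ∈ Ioc A N, f (x - m) = ∑ y ∈ (Ioc A N).image (fun x => x - m), f y := by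
    rw [Finset.sum_image]
    intro a ha b hb hab
    have ha' := mem_Ioc.1 (Finset.mem_coe.1 ha)
    have hb' := mem_Ioc.1 (Finset.mem_coe.1 hb)
    have hab' : a - m = b - m := hab
    omega
  rw [e1]
  refine Finset.sum_le_sum_of_subset_of_nonneg ?_ fun i _ _ => hf i
  intro y hy
  obtain ⟨x, hx, rfl⟩ := Finset.mem_image.1 hy
  rw [mem_Ioc] at hx ⊢
  omega

/-- the windows of `lll` at `Z` -/
private theorem mwin {s θ δ X Z : ℝ} (hX : 1 ≤ X) (h1 : 10 ≤ Lw X) (h2 : 100 * Lw X ≤ X) (h3 : Lw (2 * X) ≤ 21 / 20 * Lw X)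
    (hZ1 : 99 / 100 * X ≤ Z) (hZ2 : Z ≤ 2 * X) (h : OneX s θ δ X) : OneW s θ δ (Z / Lw Z - 1) (Lw Z * Z) := by
  have hZ0 : 0 < Z := by linarith
  have a1 : Lw Z ≤ 21 / 20 * Lw X := (lw_mono hZ0 hZ2).trans h3
  have hl0 : 0 < Lw X := by linarith
  have hX0 : 0 < X := by linarith
  have hZ3 : 1 < Z := by linarith
  have a0 : 0 < Lw Z := Real.sqrt_pos.mpr (div_pos (Real.log_pos hZ3) (by norm_num))
  have a2 : 9 / 10 * (X / Lw X) ≤ Z / Lw Z - 1 := by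
    have b1 : 100 ≤ X / Lw X := by rw [le_div_iff₀ hl0]; exact h2
    have b2 : 99 / 100 * X / (21 / 20 * Lw X) ≤ Z / Lw Z :=
      div_le_div₀ hZ0.le hZ1 a0 a1
    have b3 : 99 / 100 * X / (21 / 20 * Lw X) = 33 / 35 * (X / Lw X) := by
      field_simp
      norm_num
    linarith
  have a3 : Lw Z * Z ≤ 21 / 10 * (Lw X * X) := by
    calc Lw Z * Z ≤ (21 / 20 * Lw X) * (2 * X) := mul_le_mul a1 hZ2 hZ0.le (by positivity)
      _ = 21 / 10 * (Lw X * X) := by ring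
  intro n H c1 c2 c3 c4
  exact h n H (a2.trans c1) (c2.trans a3) c3 c4

private theorem lw_two {X : ℝ} (hX : 2 ≤ X) (h : 10 * Real.log 2 ≤ Real.log X) : Lw (2 * X) ≤ 21 / 20 * Lw X := by
  unfold Lw
  have h0 : 0 ≤ Real.log X := Real.log_nonneg (by linarith)
  rw [show 21 / 20 * √(Real.log X / 3) = √((21 / 20) ^ 2 * (Real.log X / 3)) by
    rw [Real.sqrt_mul (by norm_num), Real.sqrt_sq (by norm_num)]]
  apply Real.sqrt_le_sqrt
  rw [Real.log_mul (by norm_num) (by linarith)]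
  nlinarith

theorem mdl (s θ δ : ℝ) (hs : s = 1 ∨ s = -1) (hθ0 : 0 < θ) (hθ1 : θ < 1) (hδ0 : 0 ≤ δ) (h1 : θ ≤ δ + (1 - θ))
    (h2 : 1 / 2 ≤ δ + (1 - θ)) (hδ1 : δ < θ) (ε : ℝ) (hε : 0 < ε) :
    ∃ x0 : ℝ, ∀ X : ℕ, x0 ≤ X → OneX s θ δ X → ∃ B : ℕ → ℝ,
      (∀ x, 0 ≤ B x) ∧ ∑ x ∈ Ioc 0 (2 * X), B x ≤ (X : ℝ) ^ (1 + δ + ε) ∧
      ∀ x n j : ℕ, X < n → n ≤ 2 * X → x ≤ n → (n : ℝ) ≤ x + (X : ℝ) ^ θ → (j : ℝ) ≤ (X : ℝ) ^ θ →
        |EI n j| ≤ B x := by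
  obtain ⟨e, he⟩ : ∃ e, e = min ε 1 := ⟨_, rfl⟩
  have he0 : 0 < e := by rw [he]; exact lt_min hε one_pos
  have he1 : e ≤ 1 := by rw [he]; exact min_le_right _ _
  have heε : e ≤ ε := by rw [he]; exact min_le_left _ _
  obtain ⟨x1, hx1, hpcw⟩ := pcw s θ δ hs hθ0 hθ1 hδ0 hδ1
  obtain ⟨x2, hlll⟩ := lll s θ δ hs hθ0 hθ1 hδ0 h1 h2 hδ1 (e / 2) (by linarith)
  obtain ⟨x3, hlw⟩ := lw_ev
  have ev1 : ∀ᶠ X : ℝ in Filter.atTop, 20000 ≤ X ^ (1 - θ) :=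
    (tendsto_rpow_atTop (by linarith)).eventually_ge_atTop 20000
  have ev2 : ∀ᶠ X : ℝ in Filter.atTop, 177384 ≤ X ^ (e / 2) :=
    (tendsto_rpow_atTop (by linarith)).eventually_ge_atTop 177384
  have ev3 : ∀ᶠ X : ℝ in Filter.atTop, 10 * Real.log 2 ≤ Real.log X :=
    Real.tendsto_log_atTop.eventually_ge_atTop _
  have ev4 : ∀ᶠ X : ℝ in Filter.atTop, 2 * x1 ≤ X ^ (1 / 2 : ℝ) :=
    (tendsto_rpow_atTop (by norm_num)).eventually_ge_atTop _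
  have ev5 := lw_small (1 / 2) (by norm_num)
  obtain ⟨x0, hx0⟩ := Filter.eventually_atTop.mp (ev1.and (ev2.and (ev3.and (ev4.and ev5))))
  refine ⟨max x0 (max (2 * x2) (max x3 100)), fun X hX hone => ?_⟩
  have hX3 : x0 ≤ X := (le_max_left _ _).trans hX
  have hX2 : 2 * x2 ≤ X := (le_max_left _ _).trans ((le_max_right _ _).trans hX)
  have hX1 : x3 ≤ X := (le_max_left _ _).trans ((le_max_right _ _).trans ((le_max_right _ _).trans hX))
  have hX5 : (100 : ℝ) ≤ X := (le_max_right _ _).trans ((le_max_right _ _).trans ((le_max_right _ _).trans hX))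
  obtain ⟨k1, k2, k3, k4, k5⟩ := hx0 X hX3
  obtain ⟨w1, w2⟩ := hlw X hX1
  have w3 : Lw (2 * X) ≤ 21 / 20 * Lw X := lw_two (by linarith) k3
  have hX0 : (0 : ℝ) < X := by linarith
  have hX1' : (1 : ℝ) ≤ X := by linarith
  -- the unit of length
  obtain ⟨κ, hκ⟩ : ∃ κ : ℝ, κ = (X : ℝ) ^ θ := ⟨_, rfl⟩
  have hκ1 : 1 ≤ κ := by rw [hκ]; exact Real.one_le_rpow hX1' hθ0.le
  have hκX : 20000 * κ ≤ X := by
    have a3 : (X : ℝ) ^ (1 - θ) * κ = X := by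
      rw [hκ, ← Real.rpow_add hX0, sub_add_cancel, Real.rpow_one]
    calc 20000 * κ ≤ (X : ℝ) ^ (1 - θ) * κ := mul_le_mul_of_nonneg_right k1 (by linarith)
      _ = X := a3
  have hc : ∀ c : ℝ, 1 ≤ c → ∀ y : ℝ, 0 ≤ y → y ≤ c * X → y ^ θ ≤ c * κ := by
    intro c hc y hy0 hy
    have a1 : y ^ θ ≤ (c * (X : ℝ)) ^ θ := Real.rpow_le_rpow hy0 hy hθ0.le
    have a2 : (c * (X : ℝ)) ^ θ = c ^ θ * κ := by
      rw [hκ]
      exact Real.mul_rpow (by linarith) hX0.le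
    have a3 : c ^ θ ≤ c := by
      calc c ^ θ ≤ c ^ (1 : ℝ) := Real.rpow_le_rpow_of_exponent_le hc hθ1.le
        _ = c := Real.rpow_one c
    have a4 : c ^ θ * κ ≤ c * κ := mul_le_mul_of_nonneg_right a3 (by linarith)
    linarith
  obtain ⟨m, hm⟩ : ∃ m : ℕ, m = ⌈40 * κ⌉₊ := ⟨_, rfl⟩
  obtain ⟨L, hL⟩ : ∃ L : ℕ, L = ⌈200 * κ⌉₊ := ⟨_, rfl⟩
  obtain ⟨w, hw⟩ : ∃ w : ℕ, w = ⌈50 * κ⌉₊ := ⟨_, rfl⟩
  have hm1 : 40 * κ ≤ m := by rw [hm]; exact Nat.le_ceil _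
  have hm2 : (m : ℝ) ≤ 41 * κ := by
    have := (Nat.ceil_lt_add_one (show 0 ≤ 40 * κ by linarith)).le
    rw [hm]
    linarith
  have hw1 : 50 * κ ≤ w := by rw [hw]; exact Nat.le_ceil _
  have hw2 : (w : ℝ) ≤ 51 * κ := by
    have := (Nat.ceil_lt_add_one (show 0 ≤ 50 * κ by linarith)).le
    rw [hw]
    linarith
  have hL1 : 200 * κ ≤ L := by rw [hL]; exact Nat.le_ceil _
  have hL2 : (L : ℝ) ≤ 201 * κ := by
    have := (Nat.ceil_lt_add_one (show 0 ≤ 200 * κ by linarith)).le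
    rw [hL]
    linarith
  have hwX : w ≤ X := by
    have : (w : ℝ) ≤ X := by linarith
    exact_mod_cast this
  obtain ⟨Y, hY⟩ : ∃ Y : ℕ, Y = X - w := ⟨_, rfl⟩
  have hY' : (Y : ℝ) = X - w := by rw [hY, Nat.cast_sub hwX]
  have hY1 : 99 / 100 * (X : ℝ) ≤ Y := by linarith
  have hY2 : (Y : ℝ) ≤ X - 50 * κ := by linarith
  -- the lower bound for the start points
  obtain ⟨P, hP⟩ : ∃ P : ℝ, P = 9 / 10 * (X / Lw X) := ⟨_, rfl⟩
  obtain ⟨Q, hQ⟩ : ∃ Q : ℝ, Q = 21 / 10 * (Lw X * X) := ⟨_, rfl⟩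
  have hl0 : 0 < Lw X := by linarith
  have hP1 : x1 ≤ P := by
    have b1 : (X : ℝ) ^ (1 / 2 : ℝ) ≤ X / Lw X := by
      rw [le_div_iff₀ hl0]
      calc (X : ℝ) ^ (1 / 2 : ℝ) * Lw X ≤ (X : ℝ) ^ (1 / 2 : ℝ) * (X : ℝ) ^ (1 / 2 : ℝ) :=
            mul_le_mul_of_nonneg_left k5 (by positivity)
        _ = X := by
            rw [← Real.rpow_add hX0]
            norm_num
    rw [hP]
    linarith
  have hP2 : P + 1 ≤ X / 10 := by
    have b1 : (X : ℝ) / Lw X ≤ X / 10 := div_le_div_of_nonneg_left hX0.le (by norm_num) w1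
    rw [hP]
    linarith
  have hQ1 : 21 * (X : ℝ) ≤ Q := by
    have : 10 * (X : ℝ) ≤ Lw X * X := mul_le_mul_of_nonneg_right w1 hX0.le
    rw [hQ]
    linarith
  have hone' : OneW s θ δ P Q := by
    rw [hP, hQ]
    exact hone
  have hB := hpcw P Q hP1 hone'
  have e1 : 1 - (1 - θ) = θ := by ring
  have e2 : δ + (1 - θ) - 1 = δ - θ := by ring
  have hsub := sbw s (δ + (1 - θ)) (1 - θ) 9 (P + 1) Q hs (by linarith) (by linarith) (by linarith) (by linarith)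
    (by norm_num) (by linarith) hB
  rw [e1, e2] at hsub
  have hdec : ∀ y : ℝ, X / 4 ≤ y → y ^ (δ - θ) * L ≤ 804 * (X : ℝ) ^ δ := by
    intro y hy
    have c1 : y ^ (δ - θ) ≤ (1 / 4 * (X : ℝ)) ^ (δ - θ) :=
      Real.rpow_le_rpow_of_nonpos (by positivity) (by linarith) (by linarith)
    rw [Real.mul_rpow (by norm_num) hX0.le] at c1
    have c2 : (1 / 4 : ℝ) ^ (δ - θ) ≤ (1 / 4 : ℝ) ^ (-1 : ℝ) :=
      Real.rpow_le_rpow_of_exponent_ge (by norm_num) (by norm_num) (by linarith)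
    have c3 : (1 / 4 : ℝ) ^ (-1 : ℝ) = 4 := by
      rw [Real.rpow_neg_one]; norm_num
    rw [c3] at c2
    have c4 : y ^ (δ - θ) ≤ 4 * (X : ℝ) ^ (δ - θ) := c1.trans (mul_le_mul_of_nonneg_right c2 (by positivity))
    have c5 : (X : ℝ) ^ (δ - θ) * κ = (X : ℝ) ^ δ := by
      rw [hκ, ← Real.rpow_add hX0, sub_add_cancel]
    calc y ^ (δ - θ) * L ≤ (4 * (X : ℝ) ^ (δ - θ)) * (201 * κ) :=
          mul_le_mul c4 hL2 (Nat.cast_nonneg _) (by positivity)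
      _ = 804 * ((X : ℝ) ^ (δ - θ) * κ) := by ring
      _ = 804 * (X : ℝ) ^ δ := by rw [c5]
  have hXδ : 0 < (X : ℝ) ^ δ := by positivity
  obtain ⟨D, hD⟩ : ∃ D : ℝ, D = 30000 * (X : ℝ) ^ δ := ⟨_, rfl⟩
  have hD0 : 0 ≤ D := by rw [hD]; positivity
  refine ⟨fun x => if Y + m < x ∧ x ≤ 2 * X then |EI (x - m) L| + D else 0, ?_, ?_, ?_⟩
  · intro x
    show (0 : ℝ) ≤ if Y + m < x ∧ x ≤ 2 * X then |EI (x - m) L| + D else 0
    split_ifs
    · positivity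
    · exact le_rfl
  · -- the sum
    have s1 : ∑ x ∈ Ioc 0 (2 * X), (if Y + m < x ∧ x ≤ 2 * X then |EI (x - m) L| + D else 0) ≤
        ∑ x ∈ Ioc (Y + m) (2 * X), (|EI (x - m) L| + D) := by
      rw [← Finset.sum_filter]
      refine Finset.sum_le_sum_of_subset_of_nonneg ?_ fun i _ _ => by positivity
      intro x hx
      rw [mem_filter] at hx
      rw [mem_Ioc]
      exact hx.2
    have hXY : 2 * X ≤ 4 * Y + m := by
      have a1 : 2 * (X : ℝ) ≤ 4 * Y + m := by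
        have : (0 : ℝ) ≤ m := Nat.cast_nonneg _
        linarith
      exact_mod_cast a1
    have s2 : ∑ x ∈ Ioc (Y + m) (2 * X), |EI (x - m) L| ≤ ∑ y ∈ Ioc Y (4 * Y), |EI y L| :=
      shift_sum (fun y => |EI y L|) (fun y => abs_nonneg _) (Y + m) (2 * X) m Y (4 * Y) le_rfl hXY
    have s3 : ∑ y ∈ Ioc Y (4 * Y), |EI y L| = ∑ y ∈ Ioc Y (2 * Y), |EI y L| +
        ∑ y ∈ Ioc (2 * Y) (2 * (2 * Y)), |EI y L| := by
      have t1 : Ioc Y (4 * Y) = Ioc Y (2 * Y) ∪ Ioc (2 * Y) (2 * (2 * Y)) := by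
        rw [show 2 * (2 * Y) = 4 * Y by ring]
        exact (Finset.Ioc_union_Ioc_eq_Ioc (by omega) (by omega)).symm
      rw [t1, Finset.sum_union]
      rw [Finset.disjoint_left]
      intro a ha hb
      rw [mem_Ioc] at ha hb
      omega
    have s4 : ∀ Z : ℕ, (Y : ℝ) ≤ Z → (Z : ℝ) ≤ 2 * Y →
        ∑ y ∈ Ioc Z (2 * Z), |EI y L| ≤ 58692 * (X : ℝ) ^ (1 + δ + e / 2) := by
      intro Z hZ1 hZ2
      have hZ0 : (0 : ℝ) < Z := by linarith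
      have b1 : (Z : ℝ) ^ θ ≤ 2 * κ := hc 2 (by norm_num) Z hZ0.le (by linarith)
      have b2 : κ ≤ 2 * (Z : ℝ) ^ θ := by
        have c1 : (1 / 2 * (X : ℝ)) ^ θ ≤ (Z : ℝ) ^ θ := Real.rpow_le_rpow (by positivity) (by linarith) hθ0.le
        rw [Real.mul_rpow (by norm_num) hX0.le, ← hκ] at c1
        have c2 : (1 / 2 : ℝ) ≤ (1 / 2 : ℝ) ^ θ := by
          calc (1 / 2 : ℝ) = (1 / 2 : ℝ) ^ (1 : ℝ) := (Real.rpow_one _).symm
            _ ≤ _ := Real.rpow_le_rpow_of_exponent_ge (by norm_num) (by norm_num) hθ1.le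
        have c3 : 1 / 2 * κ ≤ (1 / 2 : ℝ) ^ θ * κ := mul_le_mul_of_nonneg_right c2 (by linarith)
        linarith
      have b3 := hlll Z L (by linarith) (by linarith) (by linarith)
        (mwin hX1' w1 w2 w3 (by linarith) (by linarith) hone) (7236 * (X : ℝ) ^ δ) (by positivity) (by
          intro n hn1 hn2
          have hn1' : 3 * (Z : ℝ) ≤ 4 * n := by exact_mod_cast hn1
          have hn2' : 2 * (n : ℝ) ≤ 5 * Z := by exact_mod_cast hn2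
          have hn0 : (0 : ℝ) ≤ n := Nat.cast_nonneg _
          have d1 : (n : ℝ) ^ θ ≤ 5 * κ := hc 5 (by norm_num) n hn0 (by linarith)
          have d2 := hB n L (by linarith) (by linarith) (by rw [e1]; linarith) (by linarith)
          rw [e2, pi_ei n L (by
            have : (2 : ℝ) ≤ n := by linarith
            exact_mod_cast this)] at d2
          have d3 := hdec n (by linarith)
          linarith)
      have b4 : (Z : ℝ) ^ (δ + (1 - θ) + e / 2) ≤ 4 * (X : ℝ) ^ (δ + (1 - θ) + e / 2) := by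
        have c1 : (Z : ℝ) ^ (δ + (1 - θ) + e / 2) ≤ (2 * X : ℝ) ^ (δ + (1 - θ) + e / 2) :=
          Real.rpow_le_rpow hZ0.le (by linarith) (by linarith)
        have c2 : (2 * X : ℝ) ^ (δ + (1 - θ) + e / 2) = (2 : ℝ) ^ (δ + (1 - θ) + e / 2) *
            (X : ℝ) ^ (δ + (1 - θ) + e / 2) := Real.mul_rpow (by norm_num) hX0.le
        have c3 : (2 : ℝ) ^ (δ + (1 - θ) + e / 2) ≤ 4 := by
          calc (2 : ℝ) ^ (δ + (1 - θ) + e / 2) ≤ 2 ^ (2 : ℝ) :=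
                Real.rpow_le_rpow_of_exponent_le (by norm_num) (by linarith)
            _ = 4 := by norm_num
        rw [c2] at c1
        exact c1.trans (mul_le_mul_of_nonneg_right c3 (by positivity))
      have b5 : (X : ℝ) ^ (δ + (1 - θ) + e / 2) * κ = (X : ℝ) ^ (1 + δ + e / 2) := by
        rw [hκ, ← Real.rpow_add hX0]
        congr 1
        ring
      have b6 : (X : ℝ) ^ δ * X ≤ (X : ℝ) ^ (1 + δ + e / 2) := by
        calc (X : ℝ) ^ δ * X = (X : ℝ) ^ (δ + 1) := by rw [Real.rpow_add hX0, Real.rpow_one]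
          _ ≤ (X : ℝ) ^ (1 + δ + e / 2) := Real.rpow_le_rpow_of_exponent_le hX1' (by linarith)
      have b7 : (Z : ℝ) ^ (δ + (1 - θ) + e / 2) * L ≤ 804 * (X : ℝ) ^ (1 + δ + e / 2) := by
        calc (Z : ℝ) ^ (δ + (1 - θ) + e / 2) * L ≤ (4 * (X : ℝ) ^ (δ + (1 - θ) + e / 2)) * (201 * κ) :=
              mul_le_mul b4 hL2 (Nat.cast_nonneg _) (by positivity)
          _ = 804 * ((X : ℝ) ^ (δ + (1 - θ) + e / 2) * κ) := by ring
          _ = 804 * (X : ℝ) ^ (1 + δ + e / 2) := by rw [b5]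
      have b8 : 4 * (7236 * (X : ℝ) ^ δ) * Z ≤ 57888 * (X : ℝ) ^ (1 + δ + e / 2) := by
        calc 4 * (7236 * (X : ℝ) ^ δ) * Z ≤ 4 * (7236 * (X : ℝ) ^ δ) * (2 * X) :=
              mul_le_mul_of_nonneg_left (by linarith) (by positivity)
          _ = 57888 * ((X : ℝ) ^ δ * X) := by ring
          _ ≤ 57888 * (X : ℝ) ^ (1 + δ + e / 2) := by linarith
      linarith
    have s5 : ∑ y ∈ Ioc Y (4 * Y), |EI y L| ≤ 117384 * (X : ℝ) ^ (1 + δ + e / 2) := by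
      rw [s3]
      have r1 := s4 Y le_rfl (by linarith)
      have r2 := s4 (2 * Y) (by push_cast; linarith) (by push_cast; linarith)
      linarith
    have s6 : ∑ _x ∈ Ioc (Y + m) (2 * X), D ≤ 60000 * (X : ℝ) ^ (1 + δ + e / 2) := by
      rw [Finset.sum_const, nsmul_eq_mul, Nat.card_Ioc]
      have r1 : ((2 * X - (Y + m) : ℕ) : ℝ) ≤ 2 * X := by
        have : 2 * X - (Y + m) ≤ 2 * X := Nat.sub_le _ _
        exact_mod_cast this
      have r3 : (X : ℝ) ^ δ * X ≤ (X : ℝ) ^ (1 + δ + e / 2) := by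
        calc (X : ℝ) ^ δ * X = (X : ℝ) ^ (δ + 1) := by rw [Real.rpow_add hX0, Real.rpow_one]
          _ ≤ (X : ℝ) ^ (1 + δ + e / 2) := Real.rpow_le_rpow_of_exponent_le hX1' (by linarith)
      calc ((2 * X - (Y + m) : ℕ) : ℝ) * D ≤ 2 * X * D := mul_le_mul_of_nonneg_right r1 hD0
        _ = 60000 * ((X : ℝ) ^ δ * X) := by rw [hD]; ring
        _ ≤ 60000 * (X : ℝ) ^ (1 + δ + e / 2) := by linarith
    calc ∑ x ∈ Ioc 0 (2 * X), (if Y + m < x ∧ x ≤ 2 * X then |EI (x - m) L| + D else 0)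
        ≤ ∑ x ∈ Ioc (Y + m) (2 * X), (|EI (x - m) L| + D) := s1
      _ = ∑ x ∈ Ioc (Y + m) (2 * X), |EI (x - m) L| + ∑ _x ∈ Ioc (Y + m) (2 * X), D := Finset.sum_add_distrib
      _ ≤ 117384 * (X : ℝ) ^ (1 + δ + e / 2) + 60000 * (X : ℝ) ^ (1 + δ + e / 2) :=
          add_le_add (s2.trans s5) s6
      _ = 177384 * (X : ℝ) ^ (1 + δ + e / 2) := by ring
      _ ≤ (X : ℝ) ^ (e / 2) * (X : ℝ) ^ (1 + δ + e / 2) := mul_le_mul_of_nonneg_right k2 (by positivity)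
      _ = (X : ℝ) ^ (1 + δ + e) := by
          rw [← Real.rpow_add hX0]
          congr 1
          ring
      _ ≤ (X : ℝ) ^ (1 + δ + ε) := Real.rpow_le_rpow_of_exponent_le hX1' (by linarith)
  · intro x n j hn1 hn2 hxn hnx hj
    rw [← hκ] at hnx hj
    have hn1' : (X : ℝ) < n := by exact_mod_cast hn1
    have hn2' : (n : ℝ) ≤ 2 * X := by exact_mod_cast hn2
    have hxn' : (x : ℝ) ≤ n := by exact_mod_cast hxn
    have hj0 : (0 : ℝ) ≤ j := Nat.cast_nonneg j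
    have hcond : Y + m < x ∧ x ≤ 2 * X := by
      constructor
      · have : (Y : ℝ) + m < x := by linarith
        exact_mod_cast this
      · omega
    show |EI n j| ≤ if Y + m < x ∧ x ≤ 2 * X then |EI (x - m) L| + D else 0
    rw [if_pos hcond]
    have hmx : m ≤ x := by omega
    obtain ⟨y, hy⟩ : ∃ y : ℕ, y = x - m := ⟨_, rfl⟩
    have hy' : (y : ℝ) = x - m := by
      rw [hy, Nat.cast_sub hmx]
    have hy4 : (X : ℝ) / 4 ≤ y := by linarith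
    have hyX : (y : ℝ) ≤ 2 * X := by linarith
    have hyκ := hc 2 (by norm_num) y (Nat.cast_nonneg _) hyX
    have h3 := hsub y L n j (by linarith) (by linarith) (by linarith) (by linarith) hj0 (by linarith)
    rw [pi_ei n j (by
      have : (2 : ℝ) ≤ n := by linarith
      exact_mod_cast this), pi_ei y L (by
      have : (2 : ℝ) ≤ y := by linarith
      exact_mod_cast this)] at h3
    have h4 : s * EI y L ≤ |EI y L| := by
      rcases hs with rfl | rfl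
      · rw [one_mul]
        exact le_abs_self _
      · rw [neg_one_mul]
        exact neg_le_abs _
    have h5 := hdec y hy4
    rw [← hy, hD]
    linarith

/-- mean error of all short windows -/
theorem mal (s θ δ : ℝ) (hs : s = 1 ∨ s = -1) (hθ0 : 0 < θ) (hθ1 : θ < 1) (hδ0 : 0 ≤ δ) (h1 : θ ≤ δ + (1 - θ))
    (h2 : 1 / 2 ≤ δ + (1 - θ)) (hδ1 : δ < θ) (ε : ℝ) (hε : 0 < ε) :
    ∃ x0 : ℝ, ∀ X j : ℕ, x0 ≤ X → OneX s θ δ X → (j : ℝ) ≤ (X : ℝ) ^ θ →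
      ∑ n ∈ Ioc X (2 * X), |EI n j| ≤ (X : ℝ) ^ (1 + δ + ε) := by
  obtain ⟨x0, H⟩ := mdl s θ δ hs hθ0 hθ1 hδ0 h1 h2 hδ1 ε hε
  refine ⟨x0, fun X j hX hX1 hj => ?_⟩
  obtain ⟨B, hB0, hB1, hB2⟩ := H X hX hX1
  have h0 : (0 : ℝ) ≤ (X : ℝ) ^ θ := by positivity
  refine le_trans ?_ hB1
  refine (Finset.sum_le_sum fun n hn => ?_).trans
    (Finset.sum_le_sum_of_subset_of_nonneg (f := B) ?_ fun i _ _ => hB0 i)
  · rw [mem_Ioc] at hn
    exact hB2 n n j hn.1 hn.2 le_rfl (by linarith) hj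
  · intro n hn
    rw [mem_Ioc] at hn ⊢
    omega

end Pool.Agent.H24.TL
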