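import Pool.Agent.H24.TL.Gcl
import Pool.Agent.H24.TL.Fgl
import Pool.Agent.H24.TL.Fbo

/-!
# [H24 TL RES] both signs in every `[Y, Y log Y]`, `θ < 4/7`

PROOF. `oneX_win`: for large `Y` there is `X` with `Y ≤ 9/10 X/L` and `21/10 L X ≤ Y log Y` (`X = ⌈(231/200) Y √(log Y/3)⌉₊`, `log X ≤ (1 + 1/50) log Y`).
`nox`: `fbo` for `δ < θ/4` (with `max δ (2θ-1) (θ-1/2) < θ/4`), `gcl` for `θ < 1/4`, `fgl` for `1/4 ≤ θ`.
-/

set_option autoImplicit false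

namespace Pool.Agent.H24.TL

open Finset Pool.Agent.H48.WN Pool.Agent.H67.TS

theorem oneX_win : ∀ X0 : ℕ, ∃ Y0 : ℝ, ∀ Y : ℝ, Y0 ≤ Y → ∃ X : ℕ, X0 ≤ X ∧ Y ≤ 9 / 10 * (X / Lw X) ∧
    21 / 10 * (Lw X * X) ≤ Y * Real.log Y := by
  intro X0
  have ev1 : ∀ᶠ Y : ℝ in Filter.atTop, 27 ≤ Real.log Y := Real.tendsto_log_atTop.eventually_ge_atTop 27
  have ev2 : ∀ᶠ Y : ℝ in Filter.atTop, 10 * Real.log Y ^ (1 : ℝ) ≤ Y ^ (1 / 50 : ℝ) := by
    have h := (isLittleO_log_rpow_rpow_atTop 1 (by norm_num : (0 : ℝ) < 1 / 50)).bound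
      (c := 1 / 10) (by norm_num)
    filter_upwards [h, Filter.eventually_ge_atTop 1] with Y hY hY1
    have hl := Real.log_nonneg hY1
    rw [Real.norm_eq_abs, abs_of_nonneg (by positivity), Real.norm_eq_abs, abs_of_nonneg (by positivity)] at hY
    linarith
  obtain ⟨y0, hy0⟩ := Filter.eventually_atTop.mp (ev1.and ev2)
  refine ⟨max y0 (max X0 1000), fun Y hY => ?_⟩
  have h1 : y0 ≤ Y := (le_max_left _ _).trans hY
  have h2 : (X0 : ℝ) ≤ Y := (le_max_left _ _).trans ((le_max_right _ _).trans hY)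
  have h3 : (1000 : ℝ) ≤ Y := (le_max_right _ _).trans ((le_max_right _ _).trans hY)
  obtain ⟨k1, k2⟩ := hy0 Y h1
  rw [Real.rpow_one] at k2
  obtain ⟨y, hy⟩ : ∃ y : ℝ, y = Real.log Y := ⟨_, rfl⟩
  obtain ⟨r, hr⟩ : ∃ r : ℝ, r = √(y / 3) := ⟨_, rfl⟩
  rw [← hy] at k1 k2 ⊢
  have hY0 : (0 : ℝ) < Y := by linarith
  have hr2 : r ^ 2 = y / 3 := by rw [hr, Real.sq_sqrt (by linarith)]
  have hr3 : 3 ≤ r := by rw [hr]; exact Real.le_sqrt_of_sq_le (by linarith)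
  have hry : r ≤ y := by nlinarith
  obtain ⟨X, hX⟩ : ∃ X : ℕ, X = ⌈231 / 200 * (Y * r)⌉₊ := ⟨_, rfl⟩
  have hYr : 3 * Y ≤ Y * r := by nlinarith
  have hX1 : 231 / 200 * (Y * r) ≤ X := by rw [hX]; exact Nat.le_ceil _
  have hX2 : (X : ℝ) ≤ 116 / 100 * (Y * r) := by
    have := Nat.ceil_lt_add_one (by positivity : 0 ≤ 231 / 200 * (Y * r))
    rw [← hX] at this
    linarith
  have hX0 : (0 : ℝ) < X := by linarith
  have hXlog : Real.log X ≤ 51 / 50 * y := by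
    have e1 : (X : ℝ) ≤ Y ^ (51 / 50 : ℝ) := by
      have e2 : Y ^ (51 / 50 : ℝ) = Y ^ (1 / 50 : ℝ) * Y := by
        rw [show (51 / 50 : ℝ) = 1 / 50 + 1 by norm_num, Real.rpow_add hY0, Real.rpow_one]
      rw [e2]
      have e3 : 10 * r * Y ≤ Y ^ (1 / 50 : ℝ) * Y := mul_le_mul_of_nonneg_right (by linarith) hY0.le
      linarith
    have e4 := Real.log_le_log hX0 e1
    rwa [Real.log_rpow hY0, ← hy] at e4
  have hXlog0 : y ≤ Real.log X := by
    rw [hy]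
    exact Real.log_le_log hY0 (by linarith)
  have hLle : Lw X ≤ 101 / 100 * r := by
    rw [Lw, hr, show (101 / 100 : ℝ) * √(y / 3) = √((101 / 100) ^ 2 * (y / 3)) by
      rw [Real.sqrt_mul (by norm_num), Real.sqrt_sq (by norm_num)]]
    exact Real.sqrt_le_sqrt (by linarith)
  have hL0 : 0 < Lw X := by
    rw [Lw]
    exact Real.sqrt_pos.mpr (by linarith)
  refine ⟨X, ?_, ?_, ?_⟩
  · have : (X0 : ℝ) ≤ X := by linarith
    exact_mod_cast this
  · have e1 : Y * Lw X ≤ 9 / 10 * X := by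
      have := mul_le_mul_of_nonneg_left hLle hY0.le
      linarith
    have e2 : Y ≤ 9 / 10 * X / Lw X := by rw [le_div_iff₀ hL0]; exact e1
    calc Y ≤ 9 / 10 * X / Lw X := e2
      _ = 9 / 10 * (X / Lw X) := by ring
  · have e1 : Lw X * X ≤ (101 / 100 * r) * (116 / 100 * (Y * r)) :=
      mul_le_mul hLle hX2 hX0.le (by positivity)
    have e2 : (101 / 100 * r) * (116 / 100 * (Y * r)) = 101 / 100 * (116 / 100) * (Y * r ^ 2) := by ring
    rw [e2, hr2] at e1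
    have e3 : 0 ≤ Y * y := mul_nonneg hY0.le (by linarith)
    linarith

/-- the exponent -/
noncomputable def dh (θ : ℝ) : ℝ := max (θ / 4) (min (θ / 2) (max ((1 - 2 * θ) / 6) (1 / 12)))

theorem oneX_mono (s θ δ δ' : ℝ) (X : ℕ) (hX : 2 ≤ X) (h : δ ≤ δ') (h1 : OneX s θ δ X) : OneX s θ δ' X := by
  intro n H hn1 hn2 hH1 hH2
  have hX2 : (2 : ℝ) ≤ X := by exact_mod_cast hX
  have hL : 0 < Lw X := by
    rw [Lw]
    refine Real.sqrt_pos.mpr ?_
    have := Real.log_pos (by linarith : (1 : ℝ) < X)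
    positivity
  have h0 : (0 : ℝ) < n := lt_of_lt_of_le (by positivity) hn1
  have h3 : (1 : ℝ) ≤ n := by
    have : 0 < n := by exact_mod_cast h0
    exact_mod_cast this
  have h4 := h1 n H hn1 hn2 hH1 hH2
  have h5 : (n : ℝ) ^ δ ≤ (n : ℝ) ^ δ' := Real.rpow_le_rpow_of_exponent_le h3 h
  linarith

theorem nox (s θ δ : ℝ) (hs : s = 1 ∨ s = -1) (h0 : 0 < θ) (h1 : θ < 4 / 7) (hδ : δ < dh θ) :
    ∃ X0 : ℕ, ∀ X : ℕ, X0 ≤ X → ¬ OneX s θ δ X := by
  rcases lt_or_ge δ (θ / 4) with h | h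
  · obtain ⟨d, hd⟩ : ∃ d, d = max (max δ 0) (max (2 * θ - 1) (θ - 1 / 2)) := ⟨_, rfl⟩
    have d1 : δ ≤ d := by rw [hd]; exact (le_max_left _ _).trans (le_max_left _ _)
    have d2 : 0 ≤ d := by rw [hd]; exact (le_max_right _ _).trans (le_max_left _ _)
    have d3 : 2 * θ - 1 ≤ d := by rw [hd]; exact (le_max_left _ _).trans (le_max_right _ _)
    have d4 : θ - 1 / 2 ≤ d := by rw [hd]; exact (le_max_right _ _).trans (le_max_right _ _)
    have d5 : d < θ / 4 := by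
      rw [hd]
      exact max_lt (max_lt h (by linarith)) (max_lt (by linarith) (by linarith))
    obtain ⟨X0, hX0⟩ := fbo s θ (d + θ / 4) d hs (by linarith) (by linarith) (by linarith) (by linarith)
      d2 (by linarith) (by linarith) (by linarith)
    exact ⟨max X0 2, fun X hX h2 => hX0 X ((le_max_left _ _).trans hX)
      (oneX_mono s θ δ d X ((le_max_right _ _).trans hX) d1 h2)⟩
  · have h2 : δ < min (θ / 2) (max ((1 - 2 * θ) / 6) (1 / 12)) := by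
      unfold dh at hδ
      rcases lt_max_iff.mp hδ with h3 | h3
      · linarith
      · exact h3
    obtain ⟨h3, h4⟩ := lt_min_iff.mp h2
    rcases lt_or_ge θ (1 / 4) with h5 | h5
    · rw [max_eq_left (by linarith)] at h4
      obtain ⟨X0, hX0⟩ := gcl s θ (min (θ / 2) ((1 - 2 * θ) / 6)) δ (gcat θ h0 (by linarith)) hs h0 (by linarith)
        ((min_le_left _ _).trans (by linarith)) ((min_le_left _ _).trans (by linarith)) (by linarith)
        (lt_min h3 h4)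
      exact ⟨X0, hX0⟩
    · rw [max_eq_right (by linarith)] at h4
      exact fgl s θ δ hs h5 (by linarith) (by linarith) h4

theorem res (s θ ε : ℝ) (hs : s = 1 ∨ s = -1) (h0 : 0 < θ) (h1 : θ < 4 / 7) (hε : 0 < ε) :
    ∃ Y0 : ℝ, ∀ Y : ℝ, Y0 ≤ Y → ∃ n H : ℕ, Y ≤ n ∧ (n : ℝ) ≤ Y * Real.log Y ∧ (n : ℝ) ^ θ ≤ H ∧
      (H : ℝ) ≤ 2 * (n : ℝ) ^ θ ∧ (n : ℝ) ^ (dh θ - ε) ≤ s * EI n H := by
  obtain ⟨X0, hX0⟩ := nox (-s) θ (dh θ - ε) (by rcases hs with h | h <;> simp [h]) h0 h1 (by linarith)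
  obtain ⟨Y0, hY0⟩ := oneX_win X0
  refine ⟨Y0, fun Y hY => ?_⟩
  obtain ⟨X, x1, x2, x3⟩ := hY0 Y hY
  have h := hX0 X x1
  unfold OneX OneW at h
  push Not at h
  obtain ⟨n, H, k1, k2, k3, k4, k5⟩ := h
  refine ⟨n, H, x2.trans k1, k2.trans x3, k3, k4, ?_⟩
  have h7 : -s * EI n H = -(s * EI n H) := by ring
  rw [h7] at k5
  linarith

end Pool.Agent.H24.TL
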