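import Pool.Agent.H24.TL.Defs
import Pool.Agent.H99.GB.Trf

/-!
# [H24 TL TRG] logarithmic weights, all lengths

PROOF as in `H99/GB/Trf`: `∑_{n<p≤n+H} (log p - log n) ≤ H log(1+H/n) ≤ H²/n`, `|H - log n ∫_n^(n+H) dt/log t| = |∫ (1 - log n/log t)| ≤ H²/n`.
-/

set_option autoImplicit false

namespace Pool.Agent.H24.TL

open Finset Pool.Agent.H99.GB Pool.Agent.H48.WN Pool.Agent.H67.VS

theorem trg (n H : ℕ) (hn : 3 ≤ n) : |ET n H - Real.log n * EI n H| ≤ 2 * ((H : ℝ) ^ 2 / n) := by
  have hn3 : (3 : ℝ) ≤ n := by exact_mod_cast hn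
  have hn0 : (0 : ℝ) < n := by linarith
  have hH0 : (0 : ℝ) ≤ H := Nat.cast_nonneg _
  obtain ⟨r, hr⟩ : ∃ r : ℝ, r = (H : ℝ) ^ 2 / n := ⟨_, rfl⟩
  have hr0 : 0 ≤ r := by rw [hr]; positivity
  have hr1 : (H : ℝ) / n * H = r := by rw [hr]; ring
  have hr2 : (H : ℝ) * (H / n) = r := by rw [hr]; ring
  rw [← hr]
  have hlog1 : 1 ≤ Real.log n := by
    rw [Real.le_log_iff_exp_le hn0]
    have := Real.exp_one_lt_d9
    linarith
  have hlog2 : Real.log ((n : ℝ) + H) - Real.log n ≤ H / n := by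
    rw [← Real.log_div (by linarith) hn0.ne']
    have h1 : ((n : ℝ) + H) / n = H / n + 1 := by field_simp; ring
    have h2 : 0 < ((n : ℝ) + H) / n := by positivity
    have h3 := Real.log_le_sub_one_of_pos h2
    rw [h1] at h3 ⊢
    linarith
  have hlog3 : Real.log n ≤ Real.log ((n : ℝ) + H) := Real.log_le_log hn0 (by linarith)
  -- the primes
  have e1 : ∑ m ∈ Ioc n (n + H), pl m = ∑ m ∈ (Ioc n (n + H)).filter Nat.Prime, Real.log m := by
    rw [sum_filter]
    rfl
  have e2 : ((((Ioc n (n + H)).filter Nat.Prime).card : ℕ) : ℝ) ≤ H := by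
    have h1 : ((Ioc n (n + H)).filter Nat.Prime).card ≤ H := by
      refine (card_filter_le _ _).trans ?_
      simp
    exact_mod_cast h1
  have e3 : Real.log n * (((Ioc n (n + H)).filter Nat.Prime).card : ℝ) ≤ ∑ m ∈ Ioc n (n + H), pl m := by
    rw [e1, mul_comm, ← nsmul_eq_mul, ← sum_const]
    refine sum_le_sum fun m hm => ?_
    rw [mem_filter, mem_Ioc] at hm
    exact Real.log_le_log hn0 (by exact_mod_cast hm.1.1.le)
  have e4 : ∑ m ∈ Ioc n (n + H), pl m ≤
      Real.log ((n : ℝ) + H) * (((Ioc n (n + H)).filter Nat.Prime).card : ℝ) := by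
    rw [e1, mul_comm, ← nsmul_eq_mul, ← sum_const]
    refine sum_le_sum fun m hm => ?_
    rw [mem_filter, mem_Ioc] at hm
    have h0 : (n : ℝ) < m := by exact_mod_cast hm.1.1
    exact Real.log_le_log (by linarith) (by exact_mod_cast hm.1.2)
  have e5 : Real.log ((n : ℝ) + H) * (((Ioc n (n + H)).filter Nat.Prime).card : ℝ) ≤
      Real.log n * (((Ioc n (n + H)).filter Nat.Prime).card : ℝ) + r := by
    have h1 : (Real.log ((n : ℝ) + H) - Real.log n) * (((Ioc n (n + H)).filter Nat.Prime).card : ℝ) ≤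
        (H / n) * H := mul_le_mul hlog2 e2 (Nat.cast_nonneg _) (by positivity)
    linarith
  -- the integral
  have hi : IntervalIntegrable (fun t : ℝ => 1 / Real.log t) MeasureTheory.volume (n : ℝ) ((n : ℝ) + H) := by
    apply ContinuousOn.intervalIntegrable
    intro t ht
    rw [Set.uIcc_of_le (by linarith)] at ht
    have ht2 : 3 ≤ t := hn3.trans ht.1
    have hlog : Real.log t ≠ 0 := (Real.log_pos (by linarith)).ne'
    apply ContinuousAt.continuousWithinAt
    exact continuousAt_const.div (Real.continuousAt_log (by linarith)) hlog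
  have f1 : ∫ t in (n : ℝ)..((n : ℝ) + H), 1 / Real.log t ≤ H / Real.log n := by
    have h1 := intervalIntegral.integral_mono_on (a := (n : ℝ)) (b := (n : ℝ) + H) (by linarith) hi
      (g := fun _ => 1 / Real.log n) (by simp) (fun t ht => by
        apply one_div_le_one_div_of_le (by linarith)
        exact Real.log_le_log hn0 ht.1)
    rw [intervalIntegral.integral_const, smul_eq_mul] at h1
    refine h1.trans (le_of_eq ?_)
    ring
  have f2 : (H : ℝ) / Real.log ((n : ℝ) + H) ≤ ∫ t in (n : ℝ)..((n : ℝ) + H), 1 / Real.log t := by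
    have h1 := intervalIntegral.integral_mono_on (a := (n : ℝ)) (b := (n : ℝ) + H) (by linarith)
      (f := fun _ => 1 / Real.log ((n : ℝ) + H)) (by simp) hi (fun t ht => by
        apply one_div_le_one_div_of_le
        · exact Real.log_pos (by linarith [ht.1])
        · exact Real.log_le_log (by linarith [ht.1]) ht.2)
    rw [intervalIntegral.integral_const, smul_eq_mul] at h1
    refine le_trans (le_of_eq ?_) h1
    ring
  obtain ⟨J, hJ⟩ : ∃ J : ℝ, J = ∫ t in (n : ℝ)..((n : ℝ) + H), 1 / Real.log t := ⟨_, rfl⟩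
  rw [← hJ] at f1 f2
  have g1 : Real.log n * J ≤ H := by
    rw [le_div_iff₀ (by linarith)] at f1
    linarith
  have g2 : (H : ℝ) - r ≤ Real.log n * J := by
    have h1 : (H : ℝ) ≤ J * Real.log ((n : ℝ) + H) := by
      rwa [div_le_iff₀ (by linarith)] at f2
    have h2 : J ≤ H := f1.trans (div_le_self hH0 hlog1)
    have h3 : 0 ≤ J := le_trans (div_nonneg hH0 (by linarith)) f2
    have h4 : J * (Real.log ((n : ℝ) + H) - Real.log n) ≤ H * (H / n) :=
      mul_le_mul h2 hlog2 (by linarith) hH0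
    linarith
  unfold ET EI
  rw [← hJ, abs_le]
  constructor <;> nlinarith

theorem et_bb (n H : ℕ) : ET n H = ∑ j ∈ Ioc n (n + H), bb j := by
  unfold ET bb
  rw [sum_sub_distrib, sum_const, Nat.card_Ioc, nsmul_eq_mul, mul_one]
  congr 1
  rw [Nat.add_sub_cancel_left]

end Pool.Agent.H24.TL
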