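import Pool.Agent.H24.TL.Idn

/-!
# [H24 TL WIN] the identity for primes, in the window

PROOF. `idn` with `N = ⌈X²⌉₊`. Prime powers: `0 ≤ ∑_{n ≤ N} (Λ n - pl n) Gk (n/X) ≤ 3 (ψ-θ)(2 L X) + (ψ-θ)(N) · 3 e^(-π L²/2) ≤ C √X log X`
(`Chebyshev.psi_sub_theta_le_mul_sqrt`, `Gk_bd`, `Gk_le`). Tails: for `n ≤ A ≤ X/L`: `Gk (n/X) ≤ 3 e^(-π y²/2) y`, `y = X/n ≥ L`, at most `3 L e^(-π L²/2)`
(`Gk_le'`, `L² = (log X)/3`); for `n ≥ N ≥ L X`: `Gk (n/X) ≤ 3 e^(-π (n/X)²/2) ≤ 3 e^(-π L²/2) L² X²/n²`. `X L e^(-π L²/2) ≤ 15 √X`.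
-/

set_option autoImplicit false

namespace Pool.Agent.H24.TL

open Finset

private theorem vm_pl (n : ℕ) : ArithmeticFunction.vonMangoldt n - Pool.Agent.H67.VS.pl n =
    if ¬ n.Prime then ArithmeticFunction.vonMangoldt n else 0 := by
  unfold Pool.Agent.H67.VS.pl
  by_cases h : n.Prime
  · rw [if_pos h, if_neg (by simpa using h), ArithmeticFunction.vonMangoldt_apply_prime h]
    ring
  · rw [if_neg h, if_pos h]
    ring

private theorem vm_pl_nn (n : ℕ) :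
    0 ≤ ArithmeticFunction.vonMangoldt n - Pool.Agent.H67.VS.pl n := by
  rw [vm_pl]
  by_cases h : n.Prime
  · rw [if_neg (by simpa using h)]
  · rw [if_pos h]
    exact ArithmeticFunction.vonMangoldt_nonneg

private theorem vm_pl_sum (M : ℕ) :
    ∑ n ∈ Icc 1 M, (ArithmeticFunction.vonMangoldt n - Pool.Agent.H67.VS.pl n) =
      Chebyshev.psi M - Chebyshev.theta M := by
  rw [Chebyshev.psi_sub_theta_eq_sum_not_prime, Nat.floor_natCast, Finset.sum_filter]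
  have e : Icc 1 M = Ioc 0 M := by
    ext x
    simp only [Finset.mem_Icc, Finset.mem_Ioc]
    omega
  rw [e]
  exact Finset.sum_congr rfl fun n _ => vm_pl n

private theorem sq_tail' (K N : ℕ) (hK : 1 ≤ K) : ∑ k ∈ Ioc K N, 1 / (k : ℝ) ^ 2 ≤ 1 / (K : ℝ) := by
  have hK' : (1 : ℝ) ≤ K := by exact_mod_cast hK
  by_cases h : K ≤ N
  · have : ∑ k ∈ Ioc K N, 1 / (k : ℝ) ^ 2 ≤ 1 / (K : ℝ) - 1 / (N : ℝ) := by
      induction N, h using Nat.le_induction with
      | base => simp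
      | succ N hN ih =>
        rw [Finset.sum_Ioc_succ_top (by omega)]
        have hN1 : (1 : ℝ) ≤ N := by exact_mod_cast (hK.trans hN)
        have key : 1 / ((N + 1 : ℕ) : ℝ) ^ 2 ≤ 1 / N - 1 / ((N + 1 : ℕ) : ℝ) := by
          push_cast
          have hj0 : (0 : ℝ) < N := by linarith
          have e : (1 : ℝ) / N - 1 / (N + 1) = 1 / (N * (N + 1)) := by
            field_simp
            ring
          rw [e]
          apply one_div_le_one_div_of_le (by positivity)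
          nlinarith
        linarith
    have h1 : (0 : ℝ) ≤ 1 / N := by positivity
    linarith
  · rw [Finset.Ioc_eq_empty (by omega)]
    simp

/-- `y e^(-π y²/2)` decreases -/
private theorem dec1 {L y : ℝ} (hL : 1 ≤ L) (hy : L ≤ y) :
    y * Real.exp (-(Real.pi * y ^ 2 / 2)) ≤ L * Real.exp (-(Real.pi * L ^ 2 / 2)) := by
  have hL0 : 0 < L := by linarith
  have hpi := Real.pi_gt_three
  have h1 : y / L ≤ Real.exp (y / L - 1) := by
    have := Real.add_one_le_exp (y / L - 1)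
    linarith
  have h2 : y / L - 1 ≤ Real.pi * y ^ 2 / 2 - Real.pi * L ^ 2 / 2 := by
    have h3 : y / L - 1 ≤ y - L := by
      have h4 : y / L - 1 = (y - L) / L := by field_simp
      rw [h4]
      exact div_le_self (by linarith) hL
    have h5 : y - L ≤ 3 * (y ^ 2 - L ^ 2) / 2 := by nlinarith
    have h6 : 3 * (y ^ 2 - L ^ 2) / 2 ≤ Real.pi * y ^ 2 / 2 - Real.pi * L ^ 2 / 2 := by
      have h7 : 0 ≤ y ^ 2 - L ^ 2 := by nlinarith
      nlinarith
    linarith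
  have h8 : y / L ≤ Real.exp (Real.pi * y ^ 2 / 2 - Real.pi * L ^ 2 / 2) :=
    h1.trans (Real.exp_le_exp.mpr h2)
  have h9 : y ≤ L * Real.exp (Real.pi * y ^ 2 / 2 - Real.pi * L ^ 2 / 2) := by
    rw [div_le_iff₀ hL0] at h8
    linarith
  calc y * Real.exp (-(Real.pi * y ^ 2 / 2))
      ≤ (L * Real.exp (Real.pi * y ^ 2 / 2 - Real.pi * L ^ 2 / 2)) *
        Real.exp (-(Real.pi * y ^ 2 / 2)) := mul_le_mul_of_nonneg_right h9 (Real.exp_pos _).le
    _ = L * Real.exp (-(Real.pi * L ^ 2 / 2)) := by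
      rw [mul_assoc, ← Real.exp_add]
      congr 2
      ring

/-- `y² e^(-π y²/2)` decreases -/
private theorem dec2 {L y : ℝ} (hL : 1 ≤ L) (hy : L ≤ y) :
    y ^ 2 * Real.exp (-(Real.pi * y ^ 2 / 2)) ≤ L ^ 2 * Real.exp (-(Real.pi * L ^ 2 / 2)) := by
  have hL0 : 0 < L := by linarith
  have hpi := Real.pi_gt_three
  have hL2 : 1 ≤ L ^ 2 := by nlinarith
  have hy2 : L ^ 2 ≤ y ^ 2 := by nlinarith
  have h1 : y ^ 2 / L ^ 2 ≤ Real.exp (y ^ 2 / L ^ 2 - 1) := by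
    have := Real.add_one_le_exp (y ^ 2 / L ^ 2 - 1)
    linarith
  have h2 : y ^ 2 / L ^ 2 - 1 ≤ Real.pi * y ^ 2 / 2 - Real.pi * L ^ 2 / 2 := by
    have h3 : y ^ 2 / L ^ 2 - 1 ≤ y ^ 2 - L ^ 2 := by
      have h4 : y ^ 2 / L ^ 2 - 1 = (y ^ 2 - L ^ 2) / L ^ 2 := by field_simp
      rw [h4]
      exact div_le_self (by linarith) hL2
    have h6 : 3 * (y ^ 2 - L ^ 2) / 2 ≤ Real.pi * y ^ 2 / 2 - Real.pi * L ^ 2 / 2 := by
      have h7 : 0 ≤ y ^ 2 - L ^ 2 := by nlinarith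
      nlinarith
    linarith
  have h8 : y ^ 2 / L ^ 2 ≤ Real.exp (Real.pi * y ^ 2 / 2 - Real.pi * L ^ 2 / 2) :=
    h1.trans (Real.exp_le_exp.mpr h2)
  have h9 : y ^ 2 ≤ L ^ 2 * Real.exp (Real.pi * y ^ 2 / 2 - Real.pi * L ^ 2 / 2) := by
    rw [div_le_iff₀ (by positivity)] at h8
    linarith
  calc y ^ 2 * Real.exp (-(Real.pi * y ^ 2 / 2))
      ≤ (L ^ 2 * Real.exp (Real.pi * y ^ 2 / 2 - Real.pi * L ^ 2 / 2)) *
        Real.exp (-(Real.pi * y ^ 2 / 2)) := mul_le_mul_of_nonneg_right h9 (Real.exp_pos _).le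
    _ = L ^ 2 * Real.exp (-(Real.pi * L ^ 2 / 2)) := by
      rw [mul_assoc, ← Real.exp_add]
      congr 2
      ring

/-- facts on `L` -/
private theorem Lfacts {X : ℝ} (hX : 100 ≤ X) : 3 ≤ Real.log X ∧ Real.log X ≤ X ∧ 1 ≤ Lw X ∧
    Lw X ≤ Real.log X ∧ X * (Lw X * Real.exp (-(Real.pi * Lw X ^ 2 / 2))) ≤ 15 * √X := by
  have hX0 : 0 < X := by linarith
  have h3 : 3 ≤ Real.log X := by
    rw [Real.le_log_iff_exp_le hX0]
    have h1 : Real.exp 3 = Real.exp 1 ^ 3 := by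
      rw [← Real.exp_nat_mul]
      norm_num
    rw [h1]
    have h2 : Real.exp 1 ≤ 3 := by linarith [Real.exp_one_lt_d9]
    have h4 : Real.exp 1 ^ 3 ≤ 3 ^ 3 := by
      have := (Real.exp_pos 1).le
      gcongr
    linarith
  have hlX : Real.log X ≤ X := (Real.log_le_sub_one_of_pos hX0).trans (by linarith)
  have hL1 : 1 ≤ Lw X := by
    unfold Lw
    rw [Real.one_le_sqrt]
    linarith
  have hL2 : Lw X ^ 2 = Real.log X / 3 := by
    unfold Lw
    exact Real.sq_sqrt (by linarith)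
  have hLl : Lw X ≤ Real.log X / 3 := by nlinarith
  refine ⟨h3, hlX, hL1, by linarith, ?_⟩
  rw [hL2]
  have hs : √X = Real.exp (Real.log X / 2) := by
    have : Real.exp (Real.log X / 2) = √X := by
      rw [← Real.sqrt_sq (Real.exp_pos (Real.log X / 2)).le, ← Real.exp_nat_mul]
      congr 1
      have : ((2 : ℕ) : ℝ) * (Real.log X / 2) = Real.log X := by push_cast; ring
      rw [this, Real.exp_log hX0]
    exact this.symm
  have hx : X = Real.exp (Real.log X) := (Real.exp_log hX0).symm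
  set l := Real.log X with hl
  rw [hs]
  have h1 : X * (Lw X * Real.exp (-(Real.pi * (l / 3) / 2))) =
      Lw X * (Real.exp l * Real.exp (-(Real.pi * (l / 3) / 2))) := by
    rw [← hx]; ring
  rw [h1, ← Real.exp_add]
  have hpi : (3.14 : ℝ) < Real.pi := Real.pi_gt_d2
  have h2 : Real.exp (l + -(Real.pi * (l / 3) / 2)) ≤ Real.exp (l / 2) * Real.exp (-(l * (0.07 / 3))) := by
    rw [← Real.exp_add]
    refine Real.exp_le_exp.mpr ?_
    nlinarith
  have h3' : Lw X * Real.exp (-(l * (0.07 / 3))) ≤ 15 := by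
    have h4 : l * (0.07 / 3) ≤ Real.exp (l * (0.07 / 3)) := by
      have := Real.add_one_le_exp (l * (0.07 / 3))
      linarith
    rw [Real.exp_neg, ← div_eq_mul_inv, div_le_iff₀ (Real.exp_pos _)]
    nlinarith
  calc Lw X * Real.exp (l + -(Real.pi * (l / 3) / 2))
      ≤ Lw X * (Real.exp (l / 2) * Real.exp (-(l * (0.07 / 3)))) :=
        mul_le_mul_of_nonneg_left h2 (by linarith)
    _ = (Lw X * Real.exp (-(l * (0.07 / 3)))) * Real.exp (l / 2) := by ring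
    _ ≤ 15 * Real.exp (l / 2) := mul_le_mul_of_nonneg_right h3' (Real.exp_pos _).le

private theorem bb_abs (n : ℕ) {b : ℝ} (hn : 1 ≤ n) (h : Real.log n ≤ b) : |bb n| ≤ 1 + b := by
  have h0 : 0 ≤ Real.log n := Real.log_nonneg (by exact_mod_cast hn)
  unfold bb Pool.Agent.H67.VS.pl
  rw [abs_le]
  split_ifs <;> constructor <;> linarith

theorem win : ∃ C X0 : ℝ, 0 < C ∧ ∀ (X : ℝ) (A N : ℕ), X0 ≤ X → (A : ℝ) ≤ X / Lw X → Lw X * X ≤ N →
    (N : ℝ) ≤ X ^ 2 → |∑ n ∈ Ioc A N, bb n * Gk ((n : ℝ) / X)| ≤ C * (√X * Real.log X) := by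
  obtain ⟨C1, hC1, hid⟩ := idn
  obtain ⟨c0, hc0⟩ := Chebyshev.psi_sub_theta_le_mul_sqrt
  obtain ⟨c, hc⟩ : ∃ c, c = max c0 1 := ⟨_, rfl⟩
  have hc1 : 1 ≤ c := hc ▸ le_max_right _ _
  have hps : ∀ x : ℝ, Chebyshev.psi x - Chebyshev.theta x ≤ c * √x := fun x =>
    (hc0 x).trans (mul_le_mul_of_nonneg_right (hc ▸ le_max_left _ _) (Real.sqrt_nonneg _))
  refine ⟨C1 + 6 * c + 90 * c + 90 + 180, 100, by positivity, fun X A N hX hA hN hN2 => ?_⟩
  have hX0 : 0 < X := by linarith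
  obtain ⟨hl3, hlX, hL1, hLl, hkey⟩ := Lfacts hX
  obtain ⟨L, hL⟩ : ∃ L, L = Lw X := ⟨_, rfl⟩
  obtain ⟨l, hl⟩ : ∃ l, l = Real.log X := ⟨_, rfl⟩
  obtain ⟨ρ, hρ⟩ : ∃ ρ, ρ = Real.exp (-(Real.pi * L ^ 2 / 2)) := ⟨_, rfl⟩
  rw [← hL] at hA hN hL1 hLl hkey
  rw [← hρ] at hkey
  rw [← hl] at hl3 hlX hLl ⊢
  have hρ0 : 0 < ρ := hρ ▸ Real.exp_pos _
  have hL0 : 0 < L := by linarith
  have hs0 : 0 < √X := Real.sqrt_pos.2 hX0
  have hXL : L * X ≤ X ^ 2 := by nlinarith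
  have hXρ : X * ρ ≤ 15 * √X := by
    refine le_trans ?_ hkey
    have : ρ ≤ L * ρ := by nlinarith
    exact mul_le_mul_of_nonneg_left this hX0.le
  -- the long sum
  obtain ⟨N2, hN2d⟩ : ∃ N2, N2 = ⌈X ^ 2⌉₊ := ⟨_, rfl⟩
  have hN2a : X ^ 2 ≤ N2 := hN2d ▸ Nat.le_ceil _
  have hN2b : (N2 : ℝ) ≤ X ^ 2 + 1 := hN2d ▸ (Nat.ceil_lt_add_one (by positivity)).le
  have hN2c : (N2 : ℝ) ≤ 4 * X ^ 2 := by nlinarith
  have hNN : N ≤ N2 := by
    have : (N : ℝ) ≤ N2 := hN2.trans hN2a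
    exact_mod_cast this
  have hAN : A ≤ N := by
    have h1 : X / L ≤ X := div_le_self hX0.le hL1
    have h2 : X ≤ L * X := by nlinarith
    have : (A : ℝ) ≤ N := by linarith
    exact_mod_cast this
  have hN1 : 1 ≤ N := by
    have : (1 : ℝ) ≤ N := by nlinarith
    exact_mod_cast this
  have hlogN2 : Real.log N2 ≤ 3 * l := by
    have h1 : (N2 : ℝ) ≤ X ^ 3 := by nlinarith
    have h2 : (0 : ℝ) < N2 := by nlinarith
    have h3 : Real.log N2 ≤ Real.log (X ^ 3) := Real.log_le_log h2 h1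
    rw [Real.log_pow] at h3
    rw [hl]
    push_cast at h3
    linarith
  -- pointwise bounds
  have hlow : ∀ n ∈ Icc 1 A, |bb n * Gk ((n : ℝ) / X)| ≤ 2 * l * (3 * (L * ρ)) := by
    intro n hn
    rw [Finset.mem_Icc] at hn
    have hn1 : (1 : ℝ) ≤ n := by exact_mod_cast hn.1
    have hn0 : (0 : ℝ) < n := by linarith
    have hnA : (n : ℝ) ≤ A := by exact_mod_cast hn.2
    have hnX : (n : ℝ) ≤ X / L := hnA.trans hA
    have hnX' : (n : ℝ) ≤ X := hnX.trans (div_le_self hX0.le hL1)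
    have ht0 : 0 < (n : ℝ) / X := by positivity
    have ht1 : (n : ℝ) / X ≤ 1 := by rw [div_le_one hX0]; exact hnX'
    have hy : L ≤ X / n := by
      rw [le_div_iff₀ hn0]
      rw [le_div_iff₀ hL0] at hnX
      linarith
    have h1 := Gk_le' ht0 ht1
    have h2 : 3 * Real.exp (-(Real.pi / (2 * ((n : ℝ) / X) ^ 2))) / ((n : ℝ) / X) =
        3 * ((X / n) * Real.exp (-(Real.pi * (X / n) ^ 2 / 2))) := by
      have e : -(Real.pi / (2 * ((n : ℝ) / X) ^ 2)) = -(Real.pi * (X / n) ^ 2 / 2) := by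
        field_simp
      rw [e]
      field_simp
    rw [h2] at h1
    have h3 := dec1 hL1 hy
    rw [← hρ] at h3
    have h4 : |bb n| ≤ 2 * l := by
      refine (bb_abs n hn.1 (b := l) ?_).trans (by linarith)
      rw [hl]
      exact Real.log_le_log hn0 hnX'
    rw [abs_mul, abs_of_pos (Gk_pos ht0)]
    refine mul_le_mul h4 (by linarith) (Gk_pos ht0).le (by linarith)
  have hhigh : ∀ n ∈ Ioc N N2, |bb n * Gk ((n : ℝ) / X)| ≤ 4 * l * (3 * (L ^ 2 * ρ * X ^ 2)) * (1 / (n : ℝ) ^ 2) := by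
    intro n hn
    rw [Finset.mem_Ioc] at hn
    have hnN : (N : ℝ) ≤ n := by exact_mod_cast hn.1.le
    have hn0 : (0 : ℝ) < n := by nlinarith
    have hn2 : (n : ℝ) ≤ N2 := by exact_mod_cast hn.2
    have ht0 : 0 < (n : ℝ) / X := by positivity
    have hy : L ≤ (n : ℝ) / X := by
      rw [le_div_iff₀ hX0]
      linarith
    have h1 := Gk_le (hL1.trans hy)
    have h3 := dec2 hL1 hy
    rw [← hρ] at h3
    have h5 : Real.exp (-(Real.pi * ((n : ℝ) / X) ^ 2 / 2)) ≤ L ^ 2 * ρ * X ^ 2 * (1 / (n : ℝ) ^ 2) := by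
      have h6 : ((n : ℝ) / X) ^ 2 = (n : ℝ) ^ 2 / X ^ 2 := by rw [div_pow]
      have h7 : Real.exp (-(Real.pi * ((n : ℝ) / X) ^ 2 / 2)) ≤ L ^ 2 * ρ / (((n : ℝ) / X) ^ 2) := by
        rw [le_div_iff₀ (by positivity)]
        linarith
      refine h7.trans (le_of_eq ?_)
      rw [h6]
      field_simp
    have h4 : |bb n| ≤ 4 * l := by
      refine (bb_abs n (by omega) (b := 3 * l) ?_).trans (by linarith)
      exact (Real.log_le_log hn0 hn2).trans hlogN2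
    rw [abs_mul, abs_of_pos (Gk_pos ht0)]
    calc |bb n| * Gk ((n : ℝ) / X) ≤ (4 * l) * (3 * (L ^ 2 * ρ * X ^ 2 * (1 / (n : ℝ) ^ 2))) :=
          mul_le_mul h4 (by linarith) (Gk_pos ht0).le (by linarith)
      _ = 4 * l * (3 * (L ^ 2 * ρ * X ^ 2)) * (1 / (n : ℝ) ^ 2) := by ring
  have T3 : |∑ n ∈ Icc 1 A, bb n * Gk ((n : ℝ) / X)| ≤ 90 * (√X * l) := by
    refine (Finset.abs_sum_le_sum_abs _ _).trans ((Finset.sum_le_sum hlow).trans ?_)
    rw [Finset.sum_const, Nat.card_Icc, nsmul_eq_mul, Nat.add_sub_cancel]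
    calc (A : ℝ) * (2 * l * (3 * (L * ρ))) ≤ (X / L) * (2 * l * (3 * (L * ρ))) :=
          mul_le_mul_of_nonneg_right hA (by positivity)
      _ = 6 * l * (X * ρ) := by field_simp; ring
      _ ≤ 6 * l * (15 * √X) := mul_le_mul_of_nonneg_left hXρ (by positivity)
      _ = 90 * (√X * l) := by ring
  have T4 : |∑ n ∈ Ioc N N2, bb n * Gk ((n : ℝ) / X)| ≤ 180 * (√X * l) := by
    refine (Finset.abs_sum_le_sum_abs _ _).trans ((Finset.sum_le_sum hhigh).trans ?_)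
    rw [← Finset.mul_sum]
    have h1 := sq_tail' N N2 hN1
    have h2 : 1 / (N : ℝ) ≤ 1 / (L * X) := one_div_le_one_div_of_le (by positivity) hN
    calc 4 * l * (3 * (L ^ 2 * ρ * X ^ 2)) * ∑ k ∈ Ioc N N2, 1 / (k : ℝ) ^ 2
        ≤ 4 * l * (3 * (L ^ 2 * ρ * X ^ 2)) * (1 / (L * X)) :=
          mul_le_mul_of_nonneg_left (h1.trans h2) (by positivity)
      _ = 12 * l * (X * (L * ρ)) := by field_simp; ring
      _ ≤ 12 * l * (15 * √X) := mul_le_mul_of_nonneg_left hkey (by positivity)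
      _ = 180 * (√X * l) := by ring
  -- prime powers
  obtain ⟨M, hMd⟩ : ∃ M, M = ⌈L * X⌉₊ := ⟨_, rfl⟩
  have hMa : L * X ≤ M := hMd ▸ Nat.le_ceil _
  have hMb : (M : ℝ) ≤ L * X + 1 := hMd ▸ (Nat.ceil_lt_add_one (by positivity)).le
  have hMc : (M : ℝ) ≤ 4 * (L * X) := by nlinarith
  have hMN : M ≤ N2 := by
    rw [hMd, hN2d]
    exact Nat.ceil_mono hXL
  have hq : ∀ n : ℕ, 1 ≤ n → 0 ≤ (ArithmeticFunction.vonMangoldt n - Pool.Agent.H67.VS.pl n) * Gk ((n : ℝ) / X) := by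
    intro n hn
    have hn0 : (0 : ℝ) < n := by exact_mod_cast hn
    exact mul_nonneg (vm_pl_nn n) (Gk_pos (by positivity)).le
  have esplit : Icc 1 N2 = Icc 1 M ∪ Ioc M N2 := by
    ext x
    simp only [Finset.mem_union, Finset.mem_Icc, Finset.mem_Ioc]
    omega
  have hdis : Disjoint (Icc 1 M) (Ioc M N2) := by
    rw [Finset.disjoint_left]
    intro x hx hx'
    rw [Finset.mem_Icc] at hx
    rw [Finset.mem_Ioc] at hx'
    omega
  have hsub : Ioc M N2 ⊆ Icc 1 N2 := by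
    intro x hx
    rw [Finset.mem_Ioc] at hx
    rw [Finset.mem_Icc]
    omega
  have T2a : ∑ n ∈ Icc 1 M, (ArithmeticFunction.vonMangoldt n - Pool.Agent.H67.VS.pl n) * Gk ((n : ℝ) / X) ≤
      6 * c * (√X * l) := by
    calc ∑ n ∈ Icc 1 M, (ArithmeticFunction.vonMangoldt n - Pool.Agent.H67.VS.pl n) * Gk ((n : ℝ) / X)
        ≤ ∑ n ∈ Icc 1 M, (ArithmeticFunction.vonMangoldt n - Pool.Agent.H67.VS.pl n) * 3 := by
          refine Finset.sum_le_sum fun n hn => ?_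
          rw [Finset.mem_Icc] at hn
          have hn0 : (0 : ℝ) < n := by exact_mod_cast hn.1
          exact mul_le_mul_of_nonneg_left (Gk_bd (by positivity)) (vm_pl_nn n)
      _ = 3 * (Chebyshev.psi M - Chebyshev.theta M) := by rw [← Finset.sum_mul, vm_pl_sum]; ring
      _ ≤ 3 * (c * √(M : ℝ)) := mul_le_mul_of_nonneg_left (hps _) (by norm_num)
      _ ≤ 3 * (c * (2 * (√X * l))) := by
        refine mul_le_mul_of_nonneg_left (mul_le_mul_of_nonneg_left ?_ (by linarith)) (by norm_num)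
        rw [Real.sqrt_le_left (by positivity)]
        have h1 : √X * √X = X := Real.mul_self_sqrt hX0.le
        have h2 : L ≤ l ^ 2 := by nlinarith
        calc (M : ℝ) ≤ 4 * (L * X) := hMc
          _ ≤ 4 * (l ^ 2 * X) := by nlinarith
          _ = (2 * (√X * l)) ^ 2 := by rw [mul_pow, mul_pow, Real.sq_sqrt hX0.le]; ring
      _ = 6 * c * (√X * l) := by ring
  have T2b : ∑ n ∈ Ioc M N2, (ArithmeticFunction.vonMangoldt n - Pool.Agent.H67.VS.pl n) * Gk ((n : ℝ) / X) ≤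
      90 * c * (√X * l) := by
    calc ∑ n ∈ Ioc M N2, (ArithmeticFunction.vonMangoldt n - Pool.Agent.H67.VS.pl n) * Gk ((n : ℝ) / X)
        ≤ ∑ n ∈ Ioc M N2, (ArithmeticFunction.vonMangoldt n - Pool.Agent.H67.VS.pl n) * (3 * ρ) := by
          refine Finset.sum_le_sum fun n hn => ?_
          rw [Finset.mem_Ioc] at hn
          have hn0 : (0 : ℝ) < n := by
            have : 0 < n := by omega
            exact_mod_cast this
          have hnM : (M : ℝ) ≤ n := by exact_mod_cast hn.1.le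
          have hy : L ≤ (n : ℝ) / X := by
            rw [le_div_iff₀ hX0]
            linarith
          refine mul_le_mul_of_nonneg_left ?_ (vm_pl_nn n)
          refine (Gk_le (hL1.trans hy)).trans ?_
          refine mul_le_mul_of_nonneg_left ?_ (by norm_num)
          rw [hρ]
          refine Real.exp_le_exp.mpr ?_
          have h1 : L ^ 2 ≤ ((n : ℝ) / X) ^ 2 := pow_le_pow_left₀ hL0.le hy 2
          have := Real.pi_pos
          nlinarith
      _ ≤ ∑ n ∈ Icc 1 N2, (ArithmeticFunction.vonMangoldt n - Pool.Agent.H67.VS.pl n) * (3 * ρ) := by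
          refine Finset.sum_le_sum_of_subset_of_nonneg hsub fun n _ _ => ?_
          exact mul_nonneg (vm_pl_nn n) (by positivity)
      _ = 3 * ρ * (Chebyshev.psi N2 - Chebyshev.theta N2) := by rw [← Finset.sum_mul, vm_pl_sum]; ring
      _ ≤ 3 * ρ * (c * √(N2 : ℝ)) := mul_le_mul_of_nonneg_left (hps _) (by positivity)
      _ ≤ 3 * ρ * (c * (2 * X)) := by
        refine mul_le_mul_of_nonneg_left (mul_le_mul_of_nonneg_left ?_ (by linarith)) (by positivity)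
        rw [Real.sqrt_le_left (by positivity)]
        calc (N2 : ℝ) ≤ 4 * X ^ 2 := hN2c
          _ = (2 * X) ^ 2 := by ring
      _ = 6 * c * (X * ρ) := by ring
      _ ≤ 6 * c * (15 * √X) := mul_le_mul_of_nonneg_left hXρ (by linarith)
      _ ≤ 90 * c * (√X * l) := by nlinarith [mul_pos (by linarith : 0 < c) hs0]
  have T2n : 0 ≤ ∑ n ∈ Icc 1 N2, (ArithmeticFunction.vonMangoldt n - Pool.Agent.H67.VS.pl n) * Gk ((n : ℝ) / X) :=
    Finset.sum_nonneg fun n hn => hq n (Finset.mem_Icc.mp hn).1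
  have T2 : ∑ n ∈ Icc 1 N2, (ArithmeticFunction.vonMangoldt n - Pool.Agent.H67.VS.pl n) * Gk ((n : ℝ) / X) ≤
      (6 * c + 90 * c) * (√X * l) := by
    rw [esplit, Finset.sum_union hdis]
    linarith
  have T1 := hid X N2 (by linarith) hN2a
  have T1' : C1 * √X ≤ C1 * (√X * l) := by
    refine mul_le_mul_of_nonneg_left ?_ hC1.le
    nlinarith
  have e1 : ∑ n ∈ Icc 1 N2, bb n * Gk ((n : ℝ) / X) =
      ∑ n ∈ Icc 1 N2, (ArithmeticFunction.vonMangoldt n - 1) * Gk ((n : ℝ) / X) -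
        ∑ n ∈ Icc 1 N2, (ArithmeticFunction.vonMangoldt n - Pool.Agent.H67.VS.pl n) * Gk ((n : ℝ) / X) := by
    rw [← Finset.sum_sub_distrib]
    refine Finset.sum_congr rfl fun n _ => ?_
    unfold bb
    ring
  have e2 : ∑ n ∈ Icc 1 N2, bb n * Gk ((n : ℝ) / X) =
      ∑ n ∈ Icc 1 A, bb n * Gk ((n : ℝ) / X) + ∑ n ∈ Ioc A N, bb n * Gk ((n : ℝ) / X) +
        ∑ n ∈ Ioc N N2, bb n * Gk ((n : ℝ) / X) := by
    have s1 : Icc 1 N2 = (Icc 1 A ∪ Ioc A N) ∪ Ioc N N2 := by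
      ext x
      simp only [Finset.mem_union, Finset.mem_Icc, Finset.mem_Ioc]
      omega
    have d1 : Disjoint (Icc 1 A) (Ioc A N) := by
      rw [Finset.disjoint_left]
      intro x hx hx'
      rw [Finset.mem_Icc] at hx
      rw [Finset.mem_Ioc] at hx'
      omega
    have d2 : Disjoint (Icc 1 A ∪ Ioc A N) (Ioc N N2) := by
      rw [Finset.disjoint_left]
      intro x hx hx'
      rw [Finset.mem_union, Finset.mem_Icc, Finset.mem_Ioc] at hx
      rw [Finset.mem_Ioc] at hx'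
      omega
    rw [s1, Finset.sum_union d2, Finset.sum_union d1]
  obtain ⟨a1, b1⟩ := abs_le.mp T1
  obtain ⟨a3, b3⟩ := abs_le.mp T3
  obtain ⟨a4, b4⟩ := abs_le.mp T4
  have hsl : 0 < √X * l := by positivity
  rw [e2] at e1
  rw [abs_le]
  constructor
  · nlinarith
  · nlinarith

end Pool.Agent.H24.TL
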